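import Mathlib

/-!
# Basic notions of modular representation theory used in `MP_d1e4d8_al`

Relative projectivity, vertices, block idempotents, defect groups.
-/

universe u

namespace Pool.Agent.W449.PV

section

variable {F : Type u} [Field F] {G : Type} [Group G]

/-- `ρ` is irreducible: `V ≠ 0` and the only `G`-stable subspaces are `0` and `V`. -/
def IsIrred {V : Type u} [AddCommGroup V] [Module F V] (ρ : Representation F G V) : Prop :=
  Nontrivial V ∧ ∀ W : Submodule F V, (∀ g : G, ∀ w ∈ W, ρ g w ∈ W) → W = ⊥ ∨ W = ⊤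

/-- `ρ` is relatively `H`-projective: every surjection of `FG`-modules onto `V` that splits as a
map of `FH`-modules splits as a map of `FG`-modules. -/
def RelProj {V : Type u} [AddCommGroup V] [Module F V] (ρ : Representation F G V)
    (H : Subgroup G) : Prop :=
  ∀ (W : Type u) [AddCommGroup W] [Module F W] (σ : Representation F G W) (π : W →ₗ[F] V),
    (∀ (g : G) (w : W), π (σ g w) = ρ g (π w)) → Function.Surjective π →
    (∃ s : V →ₗ[F] W, (∀ v, π (s v) = v) ∧ ∀ h ∈ H, ∀ v, s (ρ h v) = σ h (s v)) →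
    ∃ s : V →ₗ[F] W, (∀ v, π (s v) = v) ∧ ∀ (g : G) (v : V), s (ρ g v) = σ g (s v)

/-- `Q` is a vertex of `ρ`: a minimal subgroup `Q` of `G` for which `ρ` is relatively
`Q`-projective. -/
def IsVertex {V : Type u} [AddCommGroup V] [Module F V] (ρ : Representation F G V)
    (Q : Subgroup G) : Prop :=
  RelProj ρ Q ∧ ∀ H : Subgroup G, H < Q → ¬ RelProj ρ H

/-- `e` is a block idempotent of `F[G]`: a nonzero central idempotent that is not a sum of two
nonzero orthogonal central idempotents. -/
def IsBlock (e : MonoidAlgebra F G) : Prop :=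
  e ≠ 0 ∧ e * e = e ∧ (∀ x, x * e = e * x) ∧
    ∀ e₁ e₂ : MonoidAlgebra F G, (∀ x, x * e₁ = e₁ * x) → (∀ x, x * e₂ = e₂ * x) →
      e₁ * e₁ = e₁ → e₂ * e₂ = e₂ → e₁ * e₂ = 0 → e = e₁ + e₂ → e₁ = 0 ∨ e₂ = 0

/-- `e` is a relative trace from `D`: `e = ∑_{s} s a s⁻¹` for some `a ∈ F[G]` that commutes with
all elements of `D`, where `s` runs over a system of representatives of the left cosets `gD`. -/
def IsRelTrace (D : Subgroup G) (e : MonoidAlgebra F G) : Prop :=
  ∃ (S : Finset G) (a : MonoidAlgebra F G), (∀ g : G, ∃! s, s ∈ S ∧ s⁻¹ * g ∈ D) ∧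
    (∀ d ∈ D, MonoidAlgebra.of F G d * a = a * MonoidAlgebra.of F G d) ∧
    e = ∑ s ∈ S, MonoidAlgebra.of F G s * a * MonoidAlgebra.of F G s⁻¹

/-- `D` is a defect group of the block `e`: a minimal subgroup from which `e` is a relative
trace. -/
def IsDefectGroup (e : MonoidAlgebra F G) (D : Subgroup G) : Prop :=
  IsRelTrace D e ∧ ∀ D' : Subgroup G, D' < D → ¬ IsRelTrace D' e

end

end Pool.Agent.W449.PV
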