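import Mathlib

/-! # Relative traces in a `G`-ring -/

namespace Pool.Agent.W449.PV

variable {G : Type} [Group G]

/-- `s` is a family of representatives of the left cosets of `H` in `K`. -/
def Reps (H K : Subgroup G) {ι : Type} (s : ι → G) : Prop :=
  (∀ i, s i ∈ K) ∧ ∀ g ∈ K, ∃! i, (s i)⁻¹ * g ∈ H

theorem Reps.trans {L H K : Subgroup G} {ι κ : Type} {s : ι → G} {t : κ → G}
    (hLH : L ≤ H) (hHK : H ≤ K) (hs : Reps H K s) (ht : Reps L H t) :
    Reps L K (fun x : ι × κ => s x.1 * t x.2) := by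
  constructor
  · intro x
    exact K.mul_mem (hs.1 _) (hHK (ht.1 _))
  · intro g hg
    obtain ⟨i, hi, hi'⟩ := hs.2 g hg
    obtain ⟨j, hj, hj'⟩ := ht.2 _ hi
    refine ⟨(i, j), ?_, ?_⟩
    · simpa [mul_assoc] using hj
    · rintro ⟨a, b⟩ hab
      have h0 : (t b)⁻¹ * ((s a)⁻¹ * g) ∈ L := by simpa [mul_assoc] using hab
      have h2 : (s a)⁻¹ * g ∈ H := by
        have := H.mul_mem (ht.1 b) (hLH h0)
        simpa using this
      have ha : a = i := hi' a h2
      subst ha
      have hb : b = j := hj' b h0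
      rw [hb]

theorem Reps.self (K : Subgroup G) : Reps K K (fun _ : Unit => (1 : G)) :=
  ⟨fun _ => K.one_mem, fun g hg => ⟨(), by simpa using hg, fun _ _ => rfl⟩⟩

theorem exists_reps [Finite G] {H K : Subgroup G} (hHK : H ≤ K) :
    ∃ (ι : Type) (_ : Fintype ι) (s : ι → G), Reps H K s ∧
      Nat.card ι * Nat.card H = Nat.card K := by
  classical
  have hfin : Finite (K ⧸ H.subgroupOf K) := inferInstance
  refine ⟨K ⧸ H.subgroupOf K, Fintype.ofFinite _, fun q => ((Quotient.out q : K) : G), ?_, ?_⟩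
  · constructor
    · intro q; exact (Quotient.out q : K).2
    · intro g hg
      refine ⟨((⟨g, hg⟩ : K) : K ⧸ H.subgroupOf K), ?_, ?_⟩
      · have h1 : ((Quotient.out ((⟨g, hg⟩ : K) : K ⧸ H.subgroupOf K) : K) : K ⧸ H.subgroupOf K)
            = ((⟨g, hg⟩ : K) : K ⧸ H.subgroupOf K) := Quotient.out_eq' _
        rw [QuotientGroup.eq] at h1
        exact h1
      · intro q hq
        have h1 : ((Quotient.out q : K) : K ⧸ H.subgroupOf K) = q := Quotient.out_eq' _
        rw [← h1, QuotientGroup.eq]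
        exact hq
  · have h1 := Subgroup.card_eq_card_quotient_mul_card_subgroup (H.subgroupOf K)
    rw [h1]
    congr 1
    exact (Nat.card_congr (Subgroup.subgroupOfEquivOfLe hHK).toEquiv).symm

section

variable (R : Type*) [Ring R] [MulSemiringAction G R]

/-- The sums of relative traces to `K` from subgroups of `K` of order at most `9`. -/
def Sm (K : Subgroup G) : AddSubgroup R := AddSubgroup.closure
  {x | ∃ (H : Subgroup G) (ι : Type) (_ : Fintype ι) (s : ι → G) (y : R),
    H ≤ K ∧ Nat.card H ≤ 9 ∧ Reps H K s ∧ (∀ h ∈ H, h • y = y) ∧ x = ∑ i, s i • y}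

variable {R}

theorem Sm.tr {H K : Subgroup G} (hHK : H ≤ K) {ι : Type} [Fintype ι] {s : ι → G}
    (hs : Reps H K s) {z : R} (hz : ∀ h ∈ H, h • z = z) {x : R} (hx : x ∈ Sm R H) :
    ∑ i, s i • (z * x) ∈ Sm R K := by
  unfold Sm at hx
  induction hx using AddSubgroup.closure_induction with
  | mem x hx =>
    obtain ⟨L, κ, _, t, y, hLH, hL, ht, hy, rfl⟩ := hx
    apply AddSubgroup.subset_closure
    refine ⟨L, ι × κ, inferInstance, fun x => s x.1 * t x.2, z * y, hLH.trans hHK, hL,
      hs.trans hLH hHK ht, ?_, ?_⟩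
    · intro h hh
      rw [smul_mul', hz h (hLH hh), hy h hh]
    · rw [Fintype.sum_prod_type]
      refine Finset.sum_congr rfl fun i _ => ?_
      rw [Finset.mul_sum, Finset.smul_sum]
      refine Finset.sum_congr rfl fun j _ => ?_
      rw [mul_smul, smul_mul' (t j), hz _ (ht.1 j)]
  | zero => simp
  | add x y _ _ hx hy =>
    simp only [mul_add, smul_add, Finset.sum_add_distrib]
    exact AddSubgroup.add_mem _ hx hy
  | neg x _ hx =>
    simp only [mul_neg, smul_neg, Finset.sum_neg_distrib]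
    exact AddSubgroup.neg_mem _ hx

theorem Sm.one_of_card {K : Subgroup G} (hK : Nat.card K ≤ 9) : (1 : R) ∈ Sm R K := by
  apply AddSubgroup.subset_closure
  refine ⟨K, Unit, inferInstance, fun _ => 1, 1, le_rfl, hK, Reps.self K, ?_, ?_⟩
  · intro h _; exact smul_one h
  · simp

/-- Trace from the trivial subgroup. -/
theorem Sm.tr_one {K : Subgroup G} {ι : Type} [Fintype ι] {s : ι → G}
    (hs : Reps ⊥ K s) (z : R) : ∑ i, s i • z ∈ Sm R K := by
  apply AddSubgroup.subset_closure
  refine ⟨⊥, ι, inferInstance, s, z, bot_le, by simp, hs, ?_, rfl⟩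
  intro h hh
  rw [Subgroup.mem_bot] at hh
  rw [hh, one_smul]

theorem smul_natCast' (g : G) (n : ℕ) : g • (n : R) = (n : R) :=
  map_natCast (MulSemiringAction.toRingHom G R g) n

variable (R) in
/-- The sums of relative traces to `G` from subgroups of `P` of order at most `9`. -/
def SmT (P : Subgroup G) : AddSubgroup R := AddSubgroup.closure
  {x | ∃ (H : Subgroup G) (ι : Type) (_ : Fintype ι) (s : ι → G) (y : R),
    H ≤ P ∧ Nat.card H ≤ 9 ∧ Reps H ⊤ s ∧ (∀ h ∈ H, h • y = y) ∧ x = ∑ i, s i • y}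

theorem SmT.tr {P : Subgroup G} {ι : Type} [Fintype ι] {s : ι → G}
    (hs : Reps P ⊤ s) {z : R} (hz : ∀ h ∈ P, h • z = z) {x : R} (hx : x ∈ Sm R P) :
    ∑ i, s i • (z * x) ∈ SmT R P := by
  unfold Sm at hx
  induction hx using AddSubgroup.closure_induction with
  | mem x hx =>
    obtain ⟨L, κ, _, t, y, hLH, hL, ht, hy, rfl⟩ := hx
    apply AddSubgroup.subset_closure
    refine ⟨L, ι × κ, inferInstance, fun x => s x.1 * t x.2, z * y, hLH, hL,
      hs.trans hLH le_top ht, ?_, ?_⟩
    · intro h hh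
      rw [smul_mul', hz h (hLH hh), hy h hh]
    · rw [Fintype.sum_prod_type]
      refine Finset.sum_congr rfl fun i _ => ?_
      rw [Finset.mul_sum, Finset.smul_sum]
      refine Finset.sum_congr rfl fun j _ => ?_
      rw [mul_smul, smul_mul' (t j), hz _ (ht.1 j)]
  | zero => simp
  | add x y _ _ hx hy =>
    simp only [mul_add, smul_add, Finset.sum_add_distrib]
    exact AddSubgroup.add_mem _ hx hy
  | neg x _ hx =>
    simp only [mul_neg, smul_neg, Finset.sum_neg_distrib]
    exact AddSubgroup.neg_mem _ hx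

theorem SmT.of_index (h3' : (3 : R) = 0) [Finite G] {K : Subgroup G} (hK : (1 : R) ∈ Sm R K)
    (h3 : ¬ 3 ∣ K.index) : (1 : R) ∈ SmT R K := by
  obtain ⟨ι, _, s, hs, hcard⟩ := exists_reps (le_top : K ≤ ⊤)
  have hidx : Nat.card ι = K.index := by
    have h1 := K.index_mul_card
    have h2 : Nat.card (⊤ : Subgroup G) = Nat.card G := by simp
    rw [h2, ← h1] at hcard
    exact Nat.eq_of_mul_eq_mul_right Nat.card_pos hcard
  have key := SmT.tr hs (z := ((Nat.card ι : ℕ) : R)) (fun h _ => smul_natCast' h _) hK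
  have h1 : ∑ i, s i • (((Nat.card ι : ℕ) : R) * 1) = 1 := by
    simp only [mul_one, smul_natCast' (G := G) (R := R), Finset.sum_const, Finset.card_univ]
    rw [← Nat.card_eq_fintype_card, nsmul_eq_mul, ← Nat.cast_mul, hidx]
    obtain ⟨t, ht⟩ : ∃ t, K.index * K.index = 3 * t + 1 := by
      have : K.index % 3 = 1 ∨ K.index % 3 = 2 := by omega
      refine ⟨K.index * K.index / 3, ?_⟩
      have h4 : (K.index * K.index) % 3 = 1 := by
        rcases this with h | h <;> rw [Nat.mul_mod, h]
      omega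
    rw [ht]
    push_cast
    rw [h3']; simp
  rwa [h1] at key

end

end Pool.Agent.W449.PV
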