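import Mathlib
import Pool.Agent.W449.PV.Def
import Pool.Agent.W449.PV.Tr

/-! # From relative traces to vertices -/

universe u

namespace Pool.Agent.W449.PV

section

variable {G : Type} [Group G]

theorem Reps.sum_left {H : Subgroup G} {ι : Type} [Fintype ι] {s : ι → G} (hs : Reps H ⊤ s)
    {M : Type*} [AddCommMonoid M] (f : G → M) (hf : ∀ g, ∀ h ∈ H, f (g * h) = f g) (g : G) :
    ∑ i, f (g * s i) = ∑ i, f (s i) := by
  classical
  choose e he he' using fun i => hs.2 (g * s i) trivial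
  have hinj : Function.Injective e := by
    intro i i' hii
    obtain ⟨l, _, hl⟩ := hs.2 (s i) trivial
    have h1 : i = l := hl i (by simp)
    have h2 : i' = l := by
      apply hl i'
      have a1 := he i
      have a2 := he i'
      rw [← hii] at a2
      have a3 := H.mul_mem (H.inv_mem a2) a1
      have e1 : ((s (e i))⁻¹ * (g * s i'))⁻¹ * ((s (e i))⁻¹ * (g * s i)) = (s i')⁻¹ * s i := by
        group
      rwa [e1] at a3
    rw [h1, h2]
  refine Fintype.sum_bijective e (Finite.injective_iff_bijective.1 hinj) _ _ (fun i => ?_)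
  have := hf (s (e i)) _ (he i)
  rw [← this]
  congr 1
  group

variable {F : Type u} [Field F] {V : Type u} [AddCommGroup V] [Module F V]

theorem relProj_of_trace (ρ : Representation F G V) {H : Subgroup G} {ι : Type} [Fintype ι]
    {s : ι → G} (hs : Reps H ⊤ s) (y : V →ₗ[F] V) (hy : ∀ h ∈ H, ρ h * y * ρ h⁻¹ = y)
    (h1 : ∑ i, ρ (s i) * y * ρ (s i)⁻¹ = 1) : RelProj ρ H := by
  intro W _ _ σ π hπ hsurj
  rintro ⟨s0, hs0, hs0H⟩
  let T : G → (V →ₗ[F] W) := fun g => (σ g) ∘ₗ s0 ∘ₗ y ∘ₗ (ρ g⁻¹)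
  have hT : ∀ g, ∀ h ∈ H, T (g * h) = T g := by
    intro g h hh
    apply LinearMap.ext
    intro v
    have e1 : ∀ v, ρ h (y (ρ h⁻¹ v)) = y v := by
      intro v
      exact congrArg (fun f : V →ₗ[F] V => f v) (hy h hh)
    show σ (g * h) (s0 (y (ρ (g * h)⁻¹ v))) = σ g (s0 (y (ρ g⁻¹ v)))
    rw [map_mul, mul_inv_rev, map_mul]
    show σ g (σ h (s0 (y (ρ h⁻¹ (ρ g⁻¹ v))))) = _
    rw [← hs0H h hh, e1]
  refine ⟨∑ i, T (s i), ?_, ?_⟩
  · intro v
    rw [LinearMap.sum_apply, map_sum]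
    have e1 : ∀ i, π (T (s i) v) = (ρ (s i) * y * ρ (s i)⁻¹) v := by
      intro i
      show π (σ (s i) (s0 (y (ρ (s i)⁻¹ v)))) = ρ (s i) (y (ρ (s i)⁻¹ v))
      rw [hπ, hs0]
    rw [Finset.sum_congr rfl (fun i _ => e1 i), ← LinearMap.sum_apply, h1]
    rfl
  · intro g v
    have e1 := hs.sum_left T hT g⁻¹
    have e2 : ∀ x, σ g (T (g⁻¹ * x) v) = T x (ρ g v) := by
      intro x
      show σ g (σ (g⁻¹ * x) (s0 (y (ρ (g⁻¹ * x)⁻¹ v)))) = σ x (s0 (y (ρ x⁻¹ (ρ g v))))
      have a1 : σ g (σ (g⁻¹ * x) (s0 (y (ρ (g⁻¹ * x)⁻¹ v))))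
          = (σ g * σ (g⁻¹ * x)) (s0 (y (ρ (g⁻¹ * x)⁻¹ v))) := rfl
      have a2 : ρ x⁻¹ (ρ g v) = (ρ x⁻¹ * ρ g) v := rfl
      rw [a1, a2, ← map_mul, ← map_mul]
      congr 3
      · group
      · group
    have e3 : (∑ i, T (s i)) v = ∑ i, T (g⁻¹ * s i) v := by
      rw [← e1, LinearMap.sum_apply]
    rw [e3, map_sum, LinearMap.sum_apply]
    exact Finset.sum_congr rfl (fun i _ => (e2 (s i)).symm)

/-- The conjugation action of `G` on the endomorphism ring of a representation. -/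
@[reducible] def cjAct (ρ : Representation F G V) : MulSemiringAction G (Module.End F V) where
  smul g x := ρ g * x * ρ g⁻¹
  one_smul x := by
    show ρ 1 * x * ρ 1⁻¹ = x
    simp
  mul_smul g h x := by
    show ρ (g * h) * x * ρ (g * h)⁻¹ = ρ g * (ρ h * x * ρ h⁻¹) * ρ g⁻¹
    rw [map_mul, mul_inv_rev, map_mul]
    simp only [mul_assoc]
  smul_zero g := by
    show ρ g * 0 * ρ g⁻¹ = 0
    simp
  smul_add g x y := by
    show ρ g * (x + y) * ρ g⁻¹ = ρ g * x * ρ g⁻¹ + ρ g * y * ρ g⁻¹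
    rw [mul_add, add_mul]
  smul_one g := by
    show ρ g * 1 * ρ g⁻¹ = 1
    rw [mul_one, ← map_mul]; simp
  smul_mul g x y := by
    show ρ g * (x * y) * ρ g⁻¹ = ρ g * x * ρ g⁻¹ * (ρ g * y * ρ g⁻¹)
    have : ρ g⁻¹ * ρ g = 1 := by rw [← map_mul]; simp
    calc ρ g * (x * y) * ρ g⁻¹ = ρ g * x * 1 * y * ρ g⁻¹ := by simp only [mul_assoc, one_mul]
      _ = _ := by rw [← this]; simp only [mul_assoc]

theorem irred_bij [FiniteDimensional F V] {ρ : Representation F G V} (hρ : IsIrred ρ)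
    {x : Module.End F V} (hx : ∀ g, ρ g * x = x * ρ g) (hx0 : x ≠ 0) :
    ∃ y : Module.End F V, y * x = 1 ∧ (∀ g, ρ g * y = y * ρ g) := by
  have hker : LinearMap.ker x = ⊥ := by
    rcases hρ.2 (LinearMap.ker x) (by
      intro g w hw
      rw [LinearMap.mem_ker] at hw ⊢
      have : (x * ρ g) w = (ρ g * x) w := by rw [hx]
      have h2 : x (ρ g w) = ρ g (x w) := this
      rw [h2, hw, map_zero]) with h | h
    · exact h
    · exact absurd (LinearMap.ker_eq_top.1 h) hx0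
  let e : V ≃ₗ[F] V := LinearEquiv.ofInjectiveEndo x (LinearMap.ker_eq_bot.1 hker)
  have he : ∀ v, e v = x v := fun v => rfl
  refine ⟨e.symm.toLinearMap, ?_, ?_⟩
  · apply LinearMap.ext
    intro v
    show e.symm (x v) = v
    rw [← he, e.symm_apply_apply]
  · intro g
    apply LinearMap.ext
    intro v
    show ρ g (e.symm v) = e.symm (ρ g v)
    rw [LinearEquiv.eq_symm_apply, he]
    have : (x * ρ g) (e.symm v) = (ρ g * x) (e.symm v) := by rw [hx]
    have h2 : x (ρ g (e.symm v)) = ρ g (x (e.symm v)) := this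
    rw [h2, ← he, e.apply_symm_apply]

theorem exists_relProj [FiniteDimensional F V] {ρ : Representation F G V} (hρ : IsIrred ρ)
    {P : Subgroup G}
    (h1 : letI := cjAct ρ; (1 : Module.End F V) ∈ SmT (Module.End F V) P) :
    ∃ H : Subgroup G, H ≤ P ∧ Nat.card H ≤ 9 ∧ RelProj ρ H := by
  letI := cjAct ρ
  have hdef : ∀ (g : G) (x : Module.End F V), g • x = ρ g * x * ρ g⁻¹ := fun _ _ => rfl
  by_contra hcon
  push Not at hcon
  have h2 : SmT (Module.End F V) P ≤ (⊥ : AddSubgroup (Module.End F V)) := by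
    unfold SmT
    rw [AddSubgroup.closure_le]
    rintro x ⟨H, ι, _, s, y, hHP, hH, hs, hy, rfl⟩
    by_contra hx
    have hx0 : ∑ i, s i • y ≠ 0 := hx
    have hcomm : ∀ g : G, ρ g * (∑ i, s i • y) = (∑ i, s i • y) * ρ g := by
      intro g
      have e1 := hs.sum_left (fun x => x • y) (by
        intro x h hh
        show (x * h) • y = x • y
        rw [mul_smul, hy h hh]) g
      have e2 : g • (∑ i, s i • y) = ∑ i, s i • y := by
        rw [Finset.smul_sum, ← e1]
        refine Finset.sum_congr rfl fun i _ => ?_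
        rw [mul_smul]
      rw [hdef] at e2
      have e3 : ρ g⁻¹ * ρ g = 1 := by rw [← map_mul]; simp
      calc ρ g * (∑ i, s i • y) = ρ g * (∑ i, s i • y) * (ρ g⁻¹ * ρ g) := by rw [e3, mul_one]
        _ = (ρ g * (∑ i, s i • y) * ρ g⁻¹) * ρ g := by simp only [mul_assoc]
        _ = _ := by rw [e2]
    obtain ⟨z, hz, hz'⟩ := irred_bij hρ hcomm hx0
    have hzg : ∀ g : G, g • z = z := by
      intro g
      rw [hdef, hz', mul_assoc, ← map_mul]; simp
    apply hcon H hHP hH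
    apply relProj_of_trace ρ hs (z * y)
    · intro h hh
      have := hy h hh
      rw [← hdef, smul_mul', hzg, this]
    · rw [← hz, Finset.mul_sum]
      refine Finset.sum_congr rfl fun i _ => ?_
      rw [← hdef, smul_mul', hzg]
  have h3 := h2 h1
  rw [AddSubgroup.mem_bot] at h3
  haveI := hρ.1
  exact one_ne_zero h3

theorem exists_vertex [FiniteDimensional F V] [Finite G] {ρ : Representation F G V}
    (hρ : IsIrred ρ) {P : Subgroup G}
    (h1 : letI := cjAct ρ; (1 : Module.End F V) ∈ SmT (Module.End F V) P) :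
    ∃ Q : Subgroup G, Q ≤ P ∧ Nat.card Q ≤ 9 ∧ IsVertex ρ Q := by
  obtain ⟨H, hHP, hH, hR⟩ := exists_relProj hρ h1
  obtain ⟨Q, hQH, hQ⟩ := (Set.toFinite {K : Subgroup G | RelProj ρ K}).exists_le_minimal hR
  refine ⟨Q, hQH.trans hHP, (Subgroup.card_le_of_le hQH).trans hH, hQ.1, ?_⟩
  intro K hK hKr
  exact absurd (hQ.2 hKr hK.le) (not_le_of_gt hK)

end

end Pool.Agent.W449.PV
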