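import Mathlib
import Pool.Agent.W449.PV.Def
import Pool.Agent.W449.PV.Rel

/-! # Block idempotents and defect groups -/

universe u

namespace Pool.Agent.W449.PV

variable {F : Type u} [Field F] {G : Type} [Group G]
variable {V : Type u} [AddCommGroup V] [Module F V]

theorem isRelTrace_top (e : MonoidAlgebra F G) (he : ∀ x, x * e = e * x) : IsRelTrace ⊤ e := by
  refine ⟨{1}, e, ?_, ?_, ?_⟩
  · intro g
    exact ⟨1, by simp, by simp⟩
  · intro d _
    exact he _
  · rw [Finset.sum_singleton, inv_one, map_one, one_mul, mul_one]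

theorem exists_defect [Finite G] (e : MonoidAlgebra F G) (he : ∀ x, x * e = e * x) :
    ∃ D : Subgroup G, IsDefectGroup e D := by
  obtain ⟨D, _, hD⟩ := (Set.toFinite {K : Subgroup G | IsRelTrace K e}).exists_le_minimal
    (isRelTrace_top e he)
  refine ⟨D, hD.1, ?_⟩
  intro K hK hKr
  exact absurd (hD.2 hKr hK.le) (not_le_of_gt hK)

theorem central_comm {ρ : Representation F G V} {e : MonoidAlgebra F G} (he : ∀ x, x * e = e * x)
    (g : G) : ρ g * ρ.asAlgebraHom e = ρ.asAlgebraHom e * ρ g := by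
  have := congrArg ρ.asAlgebraHom (he (MonoidAlgebra.of F G g))
  rw [map_mul, map_mul, Representation.asAlgebraHom_of] at this
  exact this

theorem idem_irred [FiniteDimensional F V] {ρ : Representation F G V} (hρ : IsIrred ρ)
    {e : MonoidAlgebra F G} (he : ∀ x, x * e = e * x) (hee : e * e = e) :
    ρ.asAlgebraHom e = 0 ∨ ρ.asAlgebraHom e = 1 := by
  by_cases h0 : ρ.asAlgebraHom e = 0
  · exact Or.inl h0
  · right
    obtain ⟨y, hy, _⟩ := irred_bij hρ (central_comm he) h0
    have : ρ.asAlgebraHom e * ρ.asAlgebraHom e = ρ.asAlgebraHom e := by rw [← map_mul, hee]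
    calc ρ.asAlgebraHom e = (y * ρ.asAlgebraHom e) * ρ.asAlgebraHom e := by rw [hy, one_mul]
      _ = y * ρ.asAlgebraHom e := by rw [mul_assoc, this]
      _ = 1 := hy

theorem exists_block [FiniteDimensional F V] [Finite G] {ρ : Representation F G V}
    (hρ : IsIrred ρ) : ∃ e : MonoidAlgebra F G, IsBlock e ∧ ρ.asAlgebraHom e = 1 := by
  classical
  haveI : Fintype G := Fintype.ofFinite G
  haveI := hρ.1
  let μ : MonoidAlgebra F G → ℕ := fun e =>
    Module.finrank F (LinearMap.range (LinearMap.mulLeft F e))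
  let S : Set (MonoidAlgebra F G) :=
    {e | (∀ x, x * e = e * x) ∧ e * e = e ∧ ρ.asAlgebraHom e = 1}
  have h1S : (1 : MonoidAlgebra F G) ∈ S := ⟨by simp, by simp, map_one _⟩
  obtain ⟨e, heS, hmin⟩ : ∃ e ∈ S, ∀ e' ∈ S, μ e ≤ μ e' := by
    obtain ⟨e, he, h⟩ := WellFounded.has_min (measure μ).wf S ⟨1, h1S⟩
    exact ⟨e, he, fun e' he' => not_lt.1 (h e' he')⟩
  have aux : ∀ e₁ e₂ : MonoidAlgebra F G, (∀ x, x * e₁ = e₁ * x) → (∀ x, x * e₂ = e₂ * x) →
      e₁ * e₁ = e₁ → e₂ * e₂ = e₂ → e₁ * e₂ = 0 → e = e₁ + e₂ → ρ.asAlgebraHom e₁ = 1 →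
      e₂ = 0 := by
    intro e₁ e₂ h1 h2 h11 h22 h12 he hact
    by_contra hne
    have h21 : e₂ * e₁ = 0 := by rw [h1 e₂, h12]
    have hle : LinearMap.range (LinearMap.mulLeft F e₁) ≤
        LinearMap.range (LinearMap.mulLeft F e) := by
      rintro _ ⟨x, rfl⟩
      refine ⟨e₁ * x, ?_⟩
      simp only [LinearMap.mulLeft_apply]
      rw [he, add_mul, ← mul_assoc, h11, ← mul_assoc, h21, zero_mul, add_zero]
    have hlt : LinearMap.range (LinearMap.mulLeft F e₁) <
        LinearMap.range (LinearMap.mulLeft F e) := by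
      refine lt_of_le_of_ne hle ?_
      intro heq
      have hmem : e₂ ∈ LinearMap.range (LinearMap.mulLeft F e) := by
        refine ⟨e₂, ?_⟩
        simp only [LinearMap.mulLeft_apply]
        rw [he, add_mul, h12, h22, zero_add]
      rw [← heq] at hmem
      obtain ⟨x, hx⟩ := hmem
      simp only [LinearMap.mulLeft_apply] at hx
      apply hne
      rw [← h22]
      nth_rewrite 2 [← hx]
      rw [← mul_assoc, h21, zero_mul]
    have := Submodule.finrank_lt_finrank_of_lt hlt
    have h3 := hmin e₁ ⟨h1, h11, hact⟩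
    exact absurd this (not_lt.2 h3)
  refine ⟨e, ⟨?_, heS.2.1, heS.1, ?_⟩, heS.2.2⟩
  · rintro rfl
    have := heS.2.2
    rw [map_zero] at this
    exact one_ne_zero this.symm
  · intro e₁ e₂ h1 h2 h11 h22 h12 he
    rcases idem_irred hρ h1 h11 with h | h
    · left
      have hact : ρ.asAlgebraHom e₂ = 1 := by
        have := heS.2.2
        rw [he, map_add, h, zero_add] at this
        exact this
      exact aux e₂ e₁ h2 h1 h22 h11 (by rw [← h2 e₁] ; exact h12) (by rw [he, add_comm]) hact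
    · right
      exact aux e₁ e₂ h1 h2 h11 h22 h12 he h

theorem card_eq_index {D : Subgroup G} {S : Finset G} (hS : ∀ g : G, ∃! s, s ∈ S ∧ s⁻¹ * g ∈ D) :
    S.card = D.index := by
  classical
  rw [Subgroup.index]
  have : Nat.card S = Nat.card (G ⧸ D) := by
    refine Nat.card_eq_of_bijective (fun s : S => ((s : G) : G ⧸ D)) ⟨?_, ?_⟩
    · rintro ⟨s, hs⟩ ⟨t, ht⟩ h
      have h' : ((s : G) : G ⧸ D) = ((t : G) : G ⧸ D) := h
      rw [QuotientGroup.eq] at h'
      obtain ⟨l, _, hl⟩ := hS t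
      apply Subtype.ext
      show s = t
      rw [hl s ⟨hs, h'⟩, hl t ⟨ht, by simp⟩]
    · intro q
      induction q using QuotientGroup.induction_on with
      | H g =>
        obtain ⟨s, ⟨hs, hsD⟩, _⟩ := hS g
        exact ⟨⟨s, hs⟩, QuotientGroup.eq.2 hsD⟩
  rw [← this]
  simp

theorem index_ne_zero [FiniteDimensional F V] (η : Representation F G V)
    (hdim : ((Module.finrank F V : ℕ) : F) ≠ 0) {e : MonoidAlgebra F G} {D : Subgroup G}
    (he : η.asAlgebraHom e = 1) (hD : IsRelTrace D e) : ((D.index : ℕ) : F) ≠ 0 := by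
  obtain ⟨S, a, hS, _, hea⟩ := hD
  intro h0
  apply hdim
  have h1 : LinearMap.trace F V (η.asAlgebraHom e) = ((Module.finrank F V : ℕ) : F) := by
    rw [he, LinearMap.trace_one]
  rw [← h1, hea, map_sum, map_sum]
  have h2 : ∀ s ∈ S, LinearMap.trace F V (η.asAlgebraHom (MonoidAlgebra.of F G s * a *
      MonoidAlgebra.of F G s⁻¹)) = LinearMap.trace F V (η.asAlgebraHom a) := by
    intro s _
    rw [map_mul, LinearMap.trace_mul_comm, ← map_mul, ← mul_assoc, ← map_mul, inv_mul_cancel,
      map_one, one_mul]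
  rw [Finset.sum_congr rfl h2, Finset.sum_const, nsmul_eq_mul, card_eq_index hS, h0, zero_mul]

theorem map_algHom {U : Type u} [AddCommGroup U] [Module F U] {η : Representation F G U}
    {ρ : Representation F G V} {π : U →ₗ[F] V} (hπ : ∀ g u, π (η g u) = ρ g (π u))
    (a : MonoidAlgebra F G) (u : U) : π (η.asAlgebraHom a u) = ρ.asAlgebraHom a (π u) := by
  induction a using MonoidAlgebra.induction_on with
  | of g => rw [Representation.asAlgebraHom_of, Representation.asAlgebraHom_of, hπ]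
  | add a b ha hb => rw [map_add, map_add, LinearMap.add_apply, LinearMap.add_apply, map_add, ha, hb]
  | smul c a ha => rw [map_smul, map_smul, LinearMap.smul_apply, LinearMap.smul_apply, map_smul, ha]

theorem acts_one {U : Type u} [AddCommGroup U] [Module F U] {η : Representation F G U}
    {ρ : Representation F G V} [Nontrivial V] {π : U →ₗ[F] V}
    (hπ : ∀ g u, π (η g u) = ρ g (π u)) (hsurj : Function.Surjective π)
    (hbrick : ∀ x : Module.End F U, (∀ g, η g * x = x * η g) → ∃ c : F, x = c • 1)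
    {e : MonoidAlgebra F G} (hc : ∀ x, x * e = e * x) (he : ρ.asAlgebraHom e = 1) :
    η.asAlgebraHom e = 1 := by
  obtain ⟨c, hc'⟩ := hbrick _ (central_comm hc)
  obtain ⟨v, hv⟩ := exists_ne (0 : V)
  obtain ⟨u, hu⟩ := hsurj v
  have h1 := map_algHom hπ e u
  rw [hc', he, LinearMap.smul_apply, map_smul] at h1
  have h2 : c • v = v := by
    rw [← hu]; exact h1
  have h3 : (c - 1) • v = 0 := by rw [sub_smul, h2, one_smul, sub_self]
  have h4 : c = 1 := by
    rcases smul_eq_zero.1 h3 with h | h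
    · exact sub_eq_zero.1 h
    · exact absurd h hv
  rw [hc', h4, one_smul]

theorem defect_bound [Finite G] [CharP F 3] {U : Type u} [AddCommGroup U] [Module F U]
    [FiniteDimensional F U] {η : Representation F G U}
    {ρ : Representation F G V} [Nontrivial V] {π : U →ₗ[F] V}
    (hπ : ∀ g u, π (η g u) = ρ g (π u)) (hsurj : Function.Surjective π)
    (hbrick : ∀ x : Module.End F U, (∀ g, η g * x = x * η g) → ∃ c : F, x = c • 1)
    (hdim : ((Module.finrank F U : ℕ) : F) ≠ 0)
    {e : MonoidAlgebra F G} (hc : ∀ x, x * e = e * x) (he : ρ.asAlgebraHom e = 1)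
    {D : Subgroup G} (hD : IsRelTrace D e) {n : ℕ} (hn : 3 ^ n ∣ Nat.card G) :
    3 ^ n ≤ Nat.card D := by
  have h1 := index_ne_zero η hdim (acts_one hπ hsurj hbrick hc he) hD
  rw [ne_eq, CharP.cast_eq_zero_iff F 3] at h1
  have h2 : Nat.Coprime (3 ^ n) D.index :=
    Nat.Coprime.pow_left _ ((Nat.Prime.coprime_iff_not_dvd Nat.prime_three).2 h1)
  rw [← D.card_mul_index] at hn
  exact Nat.le_of_dvd Nat.card_pos (h2.dvd_of_dvd_mul_right hn)

end Pool.Agent.W449.PV
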