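import Mathlib

/-! # Finite projective planes and functions on flags -/

namespace Pool.Agent.W449.PV

open Classical in
/-- A finite projective plane of order `q`. -/
structure Pl (P L : Type) [Fintype P] [Fintype L] where
  I : P → L → Prop
  q : ℕ
  hq : 2 ≤ q
  line : ∀ p p', p ≠ p' → ∃ l, I p l ∧ I p' l
  point : ∀ l l', l ≠ l' → ∃ p, I p l ∧ I p l'
  uniq : ∀ p p' l l', I p l → I p' l → I p l' → I p' l' → p = p' ∨ l = l'
  cL : ∀ p, (Finset.univ.filter (fun l => I p l)).card = q + 1
  cP : ∀ l, (Finset.univ.filter (fun p => I p l)).card = q + 1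
  cardP : Fintype.card P = q ^ 2 + q + 1
  cardL : Fintype.card L = q ^ 2 + q + 1

namespace Pl

variable {P L : Type} [Fintype P] [Fintype L]

/-- The dual plane. -/
def dual (pl : Pl P L) : Pl L P where
  I l p := pl.I p l
  q := pl.q
  hq := pl.hq
  line := pl.point
  point := pl.line
  uniq l l' p p' h1 h2 h3 h4 := (pl.uniq p p' l l' h1 h3 h2 h4).symm
  cL := pl.cP
  cP := pl.cL
  cardP := pl.cardL
  cardL := pl.cardP

variable {k : Type*} [Field k]

open Classical in
/-- The incidence indicator. -/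
noncomputable def ind (k : Type*) [Field k] (pl : Pl P L) (p : P) (l : L) : k :=
  if pl.I p l then 1 else 0

theorem ind_of (pl : Pl P L) {p : P} {l : L} (h : pl.I p l) : ind k pl p l = 1 := by
  simp [ind, h]

theorem ind_not (pl : Pl P L) {p : P} {l : L} (h : ¬ pl.I p l) : ind k pl p l = 0 := by
  simp [ind, h]

theorem ind_dual (pl : Pl P L) (p : P) (l : L) : ind k pl.dual l p = ind k pl p l := rfl

theorem ind_idem (pl : Pl P L) (p : P) (l : L) : ind k pl p l * ind k pl p l = ind k pl p l := by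
  unfold ind; split_ifs <;> simp

variable (pl : Pl P L)

section

variable (hq1 : (pl.q : k) = 1)
include hq1

theorem sum_ind_L (p : P) : ∑ l, ind k pl p l = 2 := by
  classical
  unfold ind
  rw [Finset.sum_boole]
  have := pl.cL p
  rw [show (Finset.univ.filter (fun l => pl.I p l)).card = pl.q + 1 by convert this]
  push_cast
  rw [hq1]; norm_num

theorem sum_ind_P (l : L) : ∑ p, ind k pl p l = 2 := sum_ind_L pl.dual hq1 l

theorem sum_ind_ind [DecidableEq P] (p p' : P) :
    ∑ l, ind k pl p l * ind k pl p' l = 1 + if p = p' then 1 else 0 := by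
  by_cases h : p = p'
  · subst h
    simp only [ind_idem, sum_ind_L pl hq1, if_true]
    norm_num
  · obtain ⟨l, h1, h2⟩ := pl.line p p' h
    rw [if_neg h, add_zero, Finset.sum_eq_single l]
    · rw [ind_of pl h1, ind_of pl h2, one_mul]
    · intro l' _ hl'
      by_cases h3 : pl.I p l'
      · by_cases h4 : pl.I p' l'
        · rcases pl.uniq p p' l l' h1 h2 h3 h4 with h5 | h5
          · exact absurd h5 h
          · exact absurd h5.symm hl'
        · rw [ind_not pl h4, mul_zero]
      · rw [ind_not pl h3, zero_mul]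
    · intro h'
      exact absurd (Finset.mem_univ _) h'

theorem pencil (α : P → k) (p : P) :
    ∑ l, ind k pl p l * ∑ p', ind k pl p' l * α p' = α p + ∑ p', α p' := by
  classical
  simp only [Finset.mul_sum, ← mul_assoc]
  rw [Finset.sum_comm]
  simp only [← Finset.sum_mul, sum_ind_ind pl hq1, add_mul, one_mul]
  rw [Finset.sum_add_distrib, add_comm]
  simp

end

/-- Functions on flags with vanishing sums. -/
def H1 (k : Type*) [Field k] (pl : Pl P L) : Submodule k (P → L → k) where
  carrier := {f | (∀ p l, ¬ pl.I p l → f p l = 0) ∧ (∀ p, ∑ l, f p l = 0) ∧ ∀ l, ∑ p, f p l = 0}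
  zero_mem' := by simp
  add_mem' := by
    rintro f g ⟨hf1, hf2, hf3⟩ ⟨hg1, hg2, hg3⟩
    refine ⟨fun p l h => ?_, fun p => ?_, fun l => ?_⟩
    · simp [hf1 p l h, hg1 p l h]
    · simp [Finset.sum_add_distrib, hf2 p, hg2 p]
    · simp [Finset.sum_add_distrib, hf3 l, hg3 l]
  smul_mem' := by
    rintro c f ⟨hf1, hf2, hf3⟩
    refine ⟨fun p l h => ?_, fun p => ?_, fun l => ?_⟩
    · simp [hf1 p l h]
    · simp [← Finset.mul_sum, hf2 p]
    · simp [← Finset.mul_sum, hf3 l]

theorem mem_H1 {f : P → L → k} : f ∈ H1 k pl ↔ (∀ p l, ¬ pl.I p l → f p l = 0) ∧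
    (∀ p, ∑ l, f p l = 0) ∧ ∀ l, ∑ p, f p l = 0 := Iff.rfl

theorem H1_dual {f : P → L → k} (hf : f ∈ H1 k pl) : (fun l p => f p l) ∈ H1 k pl.dual :=
  ⟨fun l p h => hf.1 p l h, hf.2.2, hf.2.1⟩

/-- The function attached to a function on points. -/
noncomputable def fα (k : Type*) [Field k] (pl : Pl P L) (α : P → k) : P → L → k :=
  fun p l => ind k pl p l * (α p + ∑ p', ind k pl p' l * α p')

theorem fα_mem (h3 : (3 : k) = 0) (hq1 : (pl.q : k) = 1) {α : P → k} (hα : ∑ p, α p = 0) :
    fα k pl α ∈ H1 k pl := by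
  refine ⟨fun p l h => ?_, fun p => ?_, fun l => ?_⟩
  · simp [fα, ind_not pl h]
  · simp only [fα, mul_add, Finset.sum_add_distrib]
    rw [← Finset.sum_mul, sum_ind_L pl hq1]
    have := pencil pl hq1 α p
    rw [this, hα]
    linear_combination (α p) * h3
  · simp only [fα, mul_add, Finset.sum_add_distrib]
    rw [← Finset.sum_mul (f := fun p => ind k pl p l), sum_ind_P pl hq1]
    linear_combination (∑ p, ind k pl p l * α p) * h3

/-- The submodule of functions `fα`. -/
noncomputable def Rs (k : Type*) [Field k] (pl : Pl P L) : Submodule k (P → L → k) :=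
  Submodule.map
    ({ toFun := fun α => fα k pl α
       map_add' := by
        intro α β
        funext p l
        simp only [fα, Pi.add_apply, mul_add, Finset.sum_add_distrib]
        ring
       map_smul' := by
        intro c α
        funext p l
        simp only [fα, Pi.smul_apply, smul_eq_mul, RingHom.id_apply, mul_add, Finset.mul_sum]
        congr 1
        · ring
        · refine Finset.sum_congr rfl fun p' _ => ?_
          ring } : (P → k) →ₗ[k] (P → L → k))
    (LinearMap.ker (∑ p : P, LinearMap.proj (R := k) (φ := fun _ => k) p))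

theorem mem_Rs {f : P → L → k} : f ∈ Rs k pl ↔ ∃ α : P → k, ∑ p, α p = 0 ∧ f = fα k pl α := by
  unfold Rs
  rw [Submodule.mem_map]
  constructor
  · rintro ⟨α, hα, rfl⟩
    rw [LinearMap.mem_ker, LinearMap.sum_apply] at hα
    exact ⟨α, hα, rfl⟩
  · rintro ⟨α, hα, rfl⟩
    refine ⟨α, ?_, rfl⟩
    rw [LinearMap.mem_ker, LinearMap.sum_apply]
    exact hα

theorem Rs_le_H1 (h3 : (3 : k) = 0) (hq1 : (pl.q : k) = 1) : Rs k pl ≤ H1 k pl := by
  intro f hf
  obtain ⟨α, hα, rfl⟩ := (mem_Rs pl).1 hf
  exact fα_mem pl h3 hq1 hα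

theorem Rs_of_dual (h3 : (3 : k) = 0) (hq1 : (pl.q : k) = 1) {β : L → k} (hβ : ∑ l, β l = 0)
    {f : P → L → k} (hf : (fun l p => f p l) = fα k pl.dual β) : f ∈ Rs k pl := by
  rw [mem_Rs]
  refine ⟨fun p => ∑ l, ind k pl p l * β l, ?_, ?_⟩
  · rw [Finset.sum_comm]
    simp only [← Finset.sum_mul, sum_ind_P pl hq1, ← Finset.mul_sum, hβ, mul_zero]
  · funext p l
    have h1 : f p l = fα k pl.dual β l p := congrFun (congrFun hf l) p
    have h2 := pencil pl.dual (k := k) hq1 β l
    rw [hβ, add_zero] at h2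
    simp only [ind_dual] at h2
    rw [h1]
    simp only [fα, ind_dual]
    rw [h2, add_comm]

/-- Shape of the functions invariant under the elations with axis `l₀`. -/
theorem inv_form (h3 : (3 : k) = 0) (hq1 : (pl.q : k) = 1) {f : P → L → k} (hf : f ∈ H1 k pl)
    (l₀ : L)
    (hinv : ∀ z x x' l l', pl.I z l₀ → pl.I z l → pl.I z l' → pl.I x l → pl.I x' l' → ¬ pl.I x l₀ →
      ¬ pl.I x' l₀ → f x l = f x' l') :
    f = fα k pl (fun z => f z l₀) := by
  classical
  obtain ⟨hf1, hf2, hf3⟩ := hf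
  have hoff : ∀ z l x, pl.I z l₀ → pl.I z l → l ≠ l₀ → pl.I x l → x ≠ z → ¬ pl.I x l₀ := by
    intro z l x h1 h2 h3' h4 h5 h6
    rcases pl.uniq x z l l₀ h4 h2 h6 h1 with h | h
    · exact h5 h
    · exact h3' h
  have claim : ∀ z l, pl.I z l₀ → pl.I z l → l ≠ l₀ →
      (∀ x, pl.I x l → x ≠ z → f x l = f z l₀) ∧ f z l = - f z l₀ := by
    intro z l hz hzl hl
    obtain ⟨x₁, hx₁l, hx₁z⟩ : ∃ x, pl.I x l ∧ x ≠ z := by
      by_contra hcon
      push Not at hcon
      have h1 := pl.cP l
      have h2 : (Finset.univ.filter (fun p => pl.I p l)) ⊆ {z} := by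
        intro x hx
        rw [Finset.mem_filter] at hx
        rw [Finset.mem_singleton]
        exact hcon x hx.2
      have h4 := Finset.card_le_card h2
      rw [Finset.card_singleton] at h4
      have h5 : (Finset.univ.filter (fun p => pl.I p l)).card = pl.q + 1 := by convert h1
      have := pl.hq
      omega
    set c := f x₁ l with hc
    have hall : ∀ l' x, pl.I z l' → l' ≠ l₀ → pl.I x l' → x ≠ z → f x l' = c := by
      intro l' x h1 h2 h4 h5
      exact hinv z x x₁ l' l hz h1 hzl h4 hx₁l (hoff z l' x hz h1 h2 h4 h5)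
        (hoff z l x₁ hz hzl hl hx₁l hx₁z)
    have hz' : ∀ l', pl.I z l' → l' ≠ l₀ → f z l' = - c := by
      intro l' h1 h2
      have e1 : ∀ p, f p l' = ind k pl p l' * c + (if p = z then f z l' - c else 0) := by
        intro p
        by_cases hp : p = z
        · subst hp
          rw [ind_of pl h1, if_pos rfl]; ring
        · rw [if_neg hp, add_zero]
          by_cases h4 : pl.I p l'
          · rw [ind_of pl h4, one_mul, hall l' p h1 h2 h4 hp]
          · rw [ind_not pl h4, zero_mul, hf1 p l' h4]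
      have e2 := hf3 l'
      rw [Finset.sum_congr rfl (fun p _ => e1 p), Finset.sum_add_distrib, ← Finset.sum_mul,
        sum_ind_P pl hq1, Finset.sum_ite_eq' Finset.univ z, if_pos (Finset.mem_univ _)] at e2
      linear_combination e2
    have hz0 : f z l₀ = c := by
      have e1 : ∀ l', f z l' = - (ind k pl z l' * c) + (if l' = l₀ then f z l₀ + c else 0) := by
        intro l'
        by_cases hp : l' = l₀
        · subst hp
          rw [ind_of pl hz, if_pos rfl]; ring
        · rw [if_neg hp, add_zero]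
          by_cases h4 : pl.I z l'
          · rw [ind_of pl h4, one_mul, hz' l' h4 hp]
          · rw [ind_not pl h4, zero_mul, hf1 z l' h4, neg_zero]
      have e2 := hf2 z
      rw [Finset.sum_congr rfl (fun p _ => e1 p), Finset.sum_add_distrib, Finset.sum_neg_distrib,
        ← Finset.sum_mul, sum_ind_L pl hq1, Finset.sum_ite_eq' Finset.univ l₀,
        if_pos (Finset.mem_univ _)] at e2
      linear_combination e2
    refine ⟨?_, ?_⟩
    · intro x hx hxz
      rw [hall l x hzl hl hx hxz, hz0]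
    · rw [hz' l hzl hl, hz0]
  funext p l
  by_cases hpl : pl.I p l
  · have e0 : fα k pl (fun z => f z l₀) p l = f p l₀ + ∑ p', ind k pl p' l * f p' l₀ := by
      simp only [fα]
      rw [ind_of pl hpl, one_mul]
    rw [e0]
    by_cases hl : l = l₀
    · subst hl
      have : ∑ p', ind k pl p' l * f p' l = 0 := by
        rw [← hf3 l]
        refine Finset.sum_congr rfl fun p' _ => ?_
        by_cases h : pl.I p' l
        · rw [ind_of pl h, one_mul]
        · rw [hf1 p' l h, mul_zero]
      rw [this, add_zero]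
    · obtain ⟨z, hz1, hz2⟩ := pl.point l l₀ hl
      have e1 : ∑ p', ind k pl p' l * f p' l₀ = f z l₀ := by
        rw [Finset.sum_eq_single z]
        · rw [ind_of pl hz1, one_mul]
        · intro x _ hx
          by_cases h4 : pl.I x l
          · rw [hf1 x l₀ (hoff z l x hz2 hz1 hl h4 hx), mul_zero]
          · rw [ind_not pl h4, zero_mul]
        · intro h'
          exact absurd (Finset.mem_univ _) h'
      rw [e1]
      obtain ⟨c1, c2⟩ := claim z l hz2 hz1 hl
      by_cases hpz : p = z
      · subst hpz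
        rw [c2]
        linear_combination (-(f p l₀)) * h3
      · rw [c1 p hpl hpz, hf1 p l₀ (hoff z l p hz2 hz1 hl hpl hpz), zero_add]
  · rw [hf1 p l hpl]
    simp [fα, ind_not pl hpl]

theorem inv_Rs (h3 : (3 : k) = 0) (hq1 : (pl.q : k) = 1) {f : P → L → k} (hf : f ∈ H1 k pl)
    (l₀ : L)
    (hinv : ∀ z x x' l l', pl.I z l₀ → pl.I z l → pl.I z l' → pl.I x l → pl.I x' l' → ¬ pl.I x l₀ →
      ¬ pl.I x' l₀ → f x l = f x' l') : f ∈ Rs k pl := by
  rw [mem_Rs]
  exact ⟨_, hf.2.2 l₀, inv_form pl h3 hq1 hf l₀ hinv⟩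

theorem inv_Rs_dual (h3 : (3 : k) = 0) (hq1 : (pl.q : k) = 1) {f : P → L → k} (hf : f ∈ H1 k pl)
    (p₀ : P)
    (hinv : ∀ m l l' x x', pl.I p₀ m → pl.I x m → pl.I x' m → pl.I x l → pl.I x' l' → ¬ pl.I p₀ l →
      ¬ pl.I p₀ l' → f x l = f x' l') : f ∈ Rs k pl := by
  refine Rs_of_dual pl h3 hq1 (β := fun l => f p₀ l) (hf.2.1 p₀) ?_
  exact inv_form pl.dual h3 hq1 (H1_dual pl hf) p₀ (fun z x x' l l' h1 h2 h3' h4 h5 h6 h7 =>
    hinv z x x' l l' h1 h2 h3' h4 h5 h6 h7)

end Pl

end Pool.Agent.W449.PV
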