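import Mathlib
import Pool.Agent.W449.PV.Plane

/-! # Groups acting on projective planes -/

namespace Pool.Agent.W449.PV

variable {P L : Type} [Fintype P] [Fintype L] {X : Type} [Group X]

/-- A group acting on a projective plane. -/
structure Act (X : Type) [Group X] (pl : Pl P L) where
  σ : X →* Equiv.Perm P
  τ : X →* Equiv.Perm L
  inc : ∀ g p l, pl.I (σ g p) (τ g l) ↔ pl.I p l

namespace Act

open Pl

variable {pl : Pl P L} (a : Act X pl) {k : Type*} [Field k]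

theorem σ_inv (g : X) (p : P) : a.σ g⁻¹ (a.σ g p) = p := by
  have : (a.σ g⁻¹ * a.σ g) p = p := by rw [← map_mul]; simp
  exact this

theorem σ_inv' (g : X) (p : P) : a.σ g (a.σ g⁻¹ p) = p := by
  have : (a.σ g * a.σ g⁻¹) p = p := by rw [← map_mul]; simp
  exact this

theorem τ_inv (g : X) (l : L) : a.τ g⁻¹ (a.τ g l) = l := by
  have : (a.τ g⁻¹ * a.τ g) l = l := by rw [← map_mul]; simp
  exact this

theorem τ_inv' (g : X) (l : L) : a.τ g (a.τ g⁻¹ l) = l := by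
  have : (a.τ g * a.τ g⁻¹) l = l := by rw [← map_mul]; simp
  exact this

theorem ind_act (g : X) (p : P) (l : L) : ind k pl (a.σ g p) (a.τ g l) = ind k pl p l := by
  by_cases h : pl.I p l
  · rw [ind_of pl h, ind_of pl ((a.inc g p l).2 h)]
  · rw [ind_not pl h, ind_not pl (fun h' => h ((a.inc g p l).1 h'))]

/-- The representation on functions. -/
def η0 (k : Type*) [Field k] : Representation k X (P → L → k) where
  toFun g :=
    { toFun := fun f p l => f (a.σ g⁻¹ p) (a.τ g⁻¹ l)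
      map_add' := fun f h => rfl
      map_smul' := fun c f => rfl }
  map_one' := by
    apply LinearMap.ext
    intro f
    funext p l
    show f (a.σ 1⁻¹ p) (a.τ 1⁻¹ l) = f p l
    simp
  map_mul' g h := by
    apply LinearMap.ext
    intro f
    funext p l
    show f (a.σ (g * h)⁻¹ p) (a.τ (g * h)⁻¹ l) = f (a.σ h⁻¹ (a.σ g⁻¹ p)) (a.τ h⁻¹ (a.τ g⁻¹ l))
    rw [mul_inv_rev, map_mul, map_mul]
    rfl

theorem η0_apply (g : X) (f : P → L → k) (p : P) (l : L) :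
    a.η0 k g f p l = f (a.σ g⁻¹ p) (a.τ g⁻¹ l) := rfl

theorem η0_H1 (g : X) {f : P → L → k} (hf : f ∈ H1 k pl) : a.η0 k g f ∈ H1 k pl := by
  obtain ⟨h1, h2, h3⟩ := hf
  refine ⟨fun p l h => ?_, fun p => ?_, fun l => ?_⟩
  · rw [η0_apply]
    exact h1 _ _ (fun h' => h ((a.inc g⁻¹ p l).1 h'))
  · simp only [η0_apply]
    rw [Equiv.sum_comp (a.τ g⁻¹) (fun l => f (a.σ g⁻¹ p) l)]
    exact h2 _
  · simp only [η0_apply]
    rw [Equiv.sum_comp (a.σ g⁻¹) (fun p => f p (a.τ g⁻¹ l))]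
    exact h3 _

theorem η0_fα (g : X) (α : P → k) :
    a.η0 k g (fα k pl α) = fα k pl (fun p => α (a.σ g⁻¹ p)) := by
  funext p l
  rw [η0_apply]
  simp only [fα]
  rw [ind_act]
  congr 2
  rw [← Equiv.sum_comp (a.σ g⁻¹)]
  refine Finset.sum_congr rfl fun p' _ => ?_
  rw [ind_act]

theorem η0_Rs (g : X) {f : P → L → k} (hf : f ∈ Rs k pl) : a.η0 k g f ∈ Rs k pl := by
  rw [mem_Rs] at hf ⊢
  obtain ⟨α, hα, rfl⟩ := hf
  refine ⟨_, ?_, a.η0_fα g α⟩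
  rw [Equiv.sum_comp (a.σ g⁻¹) α, hα]

/-- The representation on `H1`. -/
def η1 (k : Type*) [Field k] : Representation k X (H1 k pl) :=
  (a.η0 k).subrepresentation (H1 k pl) (fun g _ hf => a.η0_H1 g hf)

theorem η1_coe (g : X) (f : H1 k pl) : ((a.η1 k g f : H1 k pl) : P → L → k) = a.η0 k g f := rfl

theorem inv_axis (h3 : (3 : k) = 0) (hq1 : (pl.q : k) = 1) {f : P → L → k} (hf : f ∈ H1 k pl)
    (l₀ : L) (S : Set X) (hfix : ∀ g ∈ S, a.η0 k g f = f)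
    (hz : ∀ g ∈ S, ∀ z, pl.I z l₀ → a.σ g z = z)
    (htr : ∀ x x', ¬ pl.I x l₀ → ¬ pl.I x' l₀ → ∃ g ∈ S, a.σ g x = x') :
    f = fα k pl (fun z => f z l₀) := by
  apply inv_form pl h3 hq1 hf l₀
  intro z x x' l l' h1 h2 h3' h4 h5 h6 h7
  obtain ⟨g, hg, hgx⟩ := htr x x' h6 h7
  have e1 : f x' l' = f (a.σ g⁻¹ x') (a.τ g⁻¹ l') := by
    conv_lhs => rw [← hfix g hg]
    rfl
  have e2 : a.σ g⁻¹ x' = x := by rw [← hgx, σ_inv]
  have e3 : a.τ g⁻¹ l' = l := by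
    have a1 : pl.I x (a.τ g⁻¹ l') := by
      rw [← a.inc g, τ_inv', hgx]; exact h5
    have a2 : pl.I z (a.τ g⁻¹ l') := by
      rw [← a.inc g, τ_inv', hz g hg z h1]; exact h3'
    rcases pl.uniq x z _ l a1 a2 h4 h2 with h | h
    · exact absurd (h ▸ h1) h6
    · exact h
  rw [e1, e2, e3]

theorem inv_axis_Rs (h3 : (3 : k) = 0) (hq1 : (pl.q : k) = 1) {f : P → L → k}
    (hf : f ∈ H1 k pl) (l₀ : L) (S : Set X) (hfix : ∀ g ∈ S, a.η0 k g f = f)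
    (hz : ∀ g ∈ S, ∀ z, pl.I z l₀ → a.σ g z = z)
    (htr : ∀ x x', ¬ pl.I x l₀ → ¬ pl.I x' l₀ → ∃ g ∈ S, a.σ g x = x') :
    f ∈ Rs k pl := by
  rw [mem_Rs]
  exact ⟨_, hf.2.2 l₀, a.inv_axis h3 hq1 hf l₀ S hfix hz htr⟩

theorem inv_center_Rs (h3 : (3 : k) = 0) (hq1 : (pl.q : k) = 1) {f : P → L → k}
    (hf : f ∈ H1 k pl) (p₀ : P) (S : Set X) (hfix : ∀ g ∈ S, a.η0 k g f = f)
    (hz : ∀ g ∈ S, ∀ l, pl.I p₀ l → a.τ g l = l)
    (htr : ∀ l l', ¬ pl.I p₀ l → ¬ pl.I p₀ l' → ∃ g ∈ S, a.τ g l = l') :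
    f ∈ Rs k pl := by
  apply inv_Rs_dual pl h3 hq1 hf p₀
  intro m l l' x x' h1 h2 h3' h4 h5 h6 h7
  obtain ⟨g, hg, hgl⟩ := htr l l' h6 h7
  have e1 : f x' l' = f (a.σ g⁻¹ x') (a.τ g⁻¹ l') := by
    conv_lhs => rw [← hfix g hg]
    rfl
  have e2 : a.τ g⁻¹ l' = l := by rw [← hgl, τ_inv]
  have e3 : a.σ g⁻¹ x' = x := by
    have a1 : pl.I (a.σ g⁻¹ x') l := by
      rw [← a.inc g, σ_inv', hgl]; exact h5
    have a2 : pl.I (a.σ g⁻¹ x') m := by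
      rw [← a.inc g, σ_inv', hz g hg m h1]; exact h3'
    rcases pl.uniq _ x l m a1 h4 a2 h2 with h | h
    · exact h
    · exact absurd (h ▸ h1) h6
  rw [e1, e2, e3]

end Act

end Pool.Agent.W449.PV
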