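import Mathlib
import Pool.Agent.W449.PV.PlaneAct

/-! # The module `H1` is a brick -/

namespace Pool.Agent.W449.PV

variable {P L : Type} [Fintype P] [Fintype L] {X : Type} [Group X]

namespace Act

open Pl

variable {pl : Pl P L} (a : Act X pl) {k : Type*} [Field k]

theorem fα_sum (pl : Pl P L) {ι : Type} [Fintype ι] (α : ι → P → k) :
    ∑ i, fα k pl (α i) = fα k pl (fun p => ∑ i, α i p) := by
  funext p l
  rw [Finset.sum_apply, Finset.sum_apply]
  simp only [fα]
  rw [← Finset.mul_sum, Finset.sum_add_distrib, Finset.sum_comm]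
  simp only [Finset.mul_sum]

theorem fα_zero (pl : Pl P L) : fα k pl (fun _ => 0) = 0 := by
  funext p l
  simp [fα]

theorem brick (h3 : (3 : k) = 0) (hq1 : (pl.q : k) = 1) (p₀ : P) (l₀ : L) (hF : pl.I p₀ l₀)
    {ι₂ ι₁ : Type} [Fintype ι₂] [Fintype ι₁] (v : ι₂ → X) (w : ι₁ → X)
    (hvm : ∀ j, ∃ e : Equiv.Perm ι₂, ∀ i, v j * v i = v (e i))
    (hvz : ∀ i z, pl.I z l₀ → a.σ (v i) z = z) (hvl : ∀ i, a.τ (v i) l₀ = l₀)
    (hvtr : ∀ x x', ¬ pl.I x l₀ → ¬ pl.I x' l₀ → ∃ i, a.σ (v i) x = x')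
    (hvc : ((Fintype.card ι₂ : ℕ) : k) = 1)
    (hwm : ∀ j, ∃ e : Equiv.Perm ι₁, ∀ i, w j * w i = w (e i))
    (hwp : ∀ i, a.σ (w i) p₀ = p₀) (hwl : ∀ i, a.τ (w i) l₀ = l₀)
    (hwtr : ∀ z z', pl.I z l₀ → pl.I z' l₀ → z ≠ p₀ → z' ≠ p₀ → ∃ i, a.σ (w i) z = z')
    (hwc : ((Fintype.card ι₁ : ℕ) : k) = 1)
    (htr : ∀ p l, pl.I p l → ∃ g, a.σ g p₀ = p ∧ a.τ g l₀ = l) :
    ∀ x : Module.End k (H1 k pl), (∀ g, a.η1 k g * x = x * a.η1 k g) → ∃ c : k, x = c • 1 := by
  classical
  intro x hx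
  have hxg : ∀ g (f : H1 k pl), x (a.η1 k g f) = a.η1 k g (x f) := by
    intro g f
    have : (x * a.η1 k g) f = (a.η1 k g * x) f := by rw [hx]
    exact this
  let ev : H1 k pl →ₗ[k] k :=
    { toFun := fun f => (f : P → L → k) p₀ l₀
      map_add' := fun _ _ => rfl
      map_smul' := fun _ _ => rfl }
  have hev : ∀ f : H1 k pl, ev f = (f : P → L → k) p₀ l₀ := fun _ => rfl
  have hevfix : ∀ g (f : H1 k pl), a.σ g p₀ = p₀ → a.τ g l₀ = l₀ → ev (a.η1 k g f) = ev f := by
    intro g f h1 h2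
    rw [hev, hev, η1_coe, η0_apply]
    have e1 := a.σ_inv g p₀
    rw [h1] at e1
    have e2 := a.τ_inv g l₀
    rw [h2] at e2
    rw [e1, e2]
  have key : ∀ f : H1 k pl, ev f = 0 → ev (x f) = 0 := by
    intro f hf
    set g2 : H1 k pl := ∑ i, a.η1 k (v i) f with hg2
    set g1 : H1 k pl := ∑ i, a.η1 k (w i) g2 with hg1
    have e2 : ev (x g2) = ev (x f) := by
      rw [hg2, map_sum, map_sum]
      have : ∀ i, ev (x (a.η1 k (v i) f)) = ev (x f) := by
        intro i
        rw [hxg]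
        exact hevfix _ _ (hvz i p₀ hF) (hvl i)
      simp only [this]
      rw [Finset.sum_const, Finset.card_univ, nsmul_eq_mul, hvc, one_mul]
    have e1 : ev (x g1) = ev (x g2) := by
      rw [hg1, map_sum, map_sum]
      have : ∀ i, ev (x (a.η1 k (w i) g2)) = ev (x g2) := by
        intro i
        rw [hxg]
        exact hevfix _ _ (hwp i) (hwl i)
      simp only [this]
      rw [Finset.sum_const, Finset.card_univ, nsmul_eq_mul, hwc, one_mul]
    have hg2ev : ev g2 = 0 := by
      rw [hg2, map_sum]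
      have : ∀ i, ev (a.η1 k (v i) f) = ev f := by
        intro i
        exact hevfix _ _ (hvz i p₀ hF) (hvl i)
      simp only [this]
      rw [Finset.sum_const, hf, smul_zero]
    have hg2fix : ∀ j, a.η1 k (v j) g2 = g2 := by
      intro j
      obtain ⟨e, he⟩ := hvm j
      rw [hg2, map_sum]
      conv_rhs => rw [← Equiv.sum_comp e]
      refine Finset.sum_congr rfl fun i _ => ?_
      rw [← he, map_mul]
      rfl
    set α : P → k := fun z => (g2 : P → L → k) z l₀ with hα
    have hg2form : (g2 : P → L → k) = fα k pl α := by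
      refine a.inv_axis h3 hq1 g2.2 l₀ (Set.range v) ?_ ?_ ?_
      · rintro _ ⟨j, rfl⟩
        rw [← η1_coe, hg2fix]
      · rintro _ ⟨j, rfl⟩ z hz
        exact hvz j z hz
      · intro y y' h1 h2
        obtain ⟨i, hi⟩ := hvtr y y' h1 h2
        exact ⟨v i, ⟨i, rfl⟩, hi⟩
    have hα0 : ∀ z, ¬ pl.I z l₀ → α z = 0 := fun z hz => g2.2.1 z l₀ hz
    have hαp : α p₀ = 0 := hg2ev
    have hαs : ∑ p, α p = 0 := g2.2.2.2 l₀
    set β : P → k := fun p => ∑ i, α (a.σ (w i)⁻¹ p) with hβ
    have hg1form : (g1 : P → L → k) = fα k pl β := by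
      rw [hβ, ← fα_sum pl (fun i p => α (a.σ (w i)⁻¹ p)), hg1]
      rw [Submodule.coe_sum]
      refine Finset.sum_congr rfl fun i _ => ?_
      rw [η1_coe, hg2form, η0_fα]
    have hβ0 : ∀ z, ¬ pl.I z l₀ → β z = 0 := by
      intro z hz
      refine Finset.sum_eq_zero fun i _ => hα0 _ ?_
      intro h
      apply hz
      rw [← a.inc (w i)⁻¹]
      have : a.τ (w i)⁻¹ l₀ = l₀ := by
        have := a.τ_inv (w i) l₀; rwa [hwl] at this
      rwa [this]
    have hβp : β p₀ = 0 := by
      refine Finset.sum_eq_zero fun i _ => ?_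
      have : a.σ (w i)⁻¹ p₀ = p₀ := by
        have := a.σ_inv (w i) p₀; rwa [hwp] at this
      rw [this, hαp]
    have hβw : ∀ j z, β (a.σ (w j) z) = β z := by
      intro j z
      obtain ⟨e, he⟩ := hwm j
      simp only [hβ]
      rw [← Equiv.sum_comp e]
      refine Finset.sum_congr rfl fun i _ => ?_
      rw [← he, mul_inv_rev, map_mul]
      show α (a.σ (w i)⁻¹ (a.σ (w j)⁻¹ (a.σ (w j) z))) = _
      rw [σ_inv]
    have hβs : ∑ p, β p = 0 := by
      simp only [hβ]
      rw [Finset.sum_comm]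
      refine Finset.sum_eq_zero fun i _ => ?_
      rw [Equiv.sum_comp (a.σ (w i)⁻¹) α, hαs]
    have hβz : ∀ z, β z = 0 := by
      intro z
      by_cases hz : pl.I z l₀
      · by_cases hzp : z = p₀
        · rw [hzp, hβp]
        · have hall : ∀ y, β y = ind k pl y l₀ * β z + (if y = p₀ then - β z else 0) := by
            intro y
            by_cases hy : pl.I y l₀
            · rw [ind_of pl hy, one_mul]
              by_cases hyp : y = p₀
              · rw [hyp, if_pos rfl, hβp]; ring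
              · rw [if_neg hyp, add_zero]
                obtain ⟨i, hi⟩ := hwtr z y hz hy hzp hyp
                rw [← hi, hβw]
            · rw [ind_not pl hy, zero_mul, hβ0 y hy, zero_add, if_neg]
              rintro rfl
              exact hy hF
          have h4 := hβs
          rw [Finset.sum_congr rfl (fun y _ => hall y), Finset.sum_add_distrib, ← Finset.sum_mul,
            sum_ind_P pl hq1, Finset.sum_ite_eq' Finset.univ p₀, if_pos (Finset.mem_univ _)] at h4
          linear_combination h4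
      · exact hβ0 z hz
    have hg10 : g1 = 0 := by
      apply Subtype.ext
      rw [hg1form]
      have : β = fun _ => 0 := funext hβz
      rw [this, fα_zero]
      rfl
    rw [← e2, ← e1, hg10, map_zero, map_zero]
  obtain ⟨c, hc⟩ : ∃ c : k, ∀ f, ev (x f) = c * ev f := by
    by_cases h0 : ∀ f, ev f = 0
    · exact ⟨0, fun f => by rw [key f (h0 f), zero_mul]⟩
    · push Not at h0
      obtain ⟨f₀, hf₀⟩ := h0
      refine ⟨ev (x f₀) / ev f₀, fun f => ?_⟩
      have h1 : ev (f - (ev f / ev f₀) • f₀) = 0 := by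
        rw [map_sub, map_smul, smul_eq_mul]
        field_simp
        ring
      have h2 := key _ h1
      rw [map_sub, map_smul, map_sub, map_smul, smul_eq_mul] at h2
      field_simp at h2 ⊢
      linear_combination h2
  refine ⟨c, ?_⟩
  apply LinearMap.ext
  intro f
  apply Subtype.ext
  funext p l
  show (x f : P → L → k) p l = c * (f : P → L → k) p l
  by_cases hpl : pl.I p l
  · obtain ⟨g, hg1, hg2⟩ := htr p l hpl
    have h1 := hc (a.η1 k g⁻¹ f)
    rw [hxg, hev, hev, η1_coe, η1_coe, η0_apply, η0_apply, inv_inv, hg1, hg2] at h1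
    exact h1
  · rw [(x f).2.1 p l hpl, f.2.1 p l hpl, mul_zero]

end Act

end Pool.Agent.W449.PV
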