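import Mathlib

/-! # Fourier decomposition -/

namespace Pool.Agent.W449.PV

section

variable {K k R : Type*} [Field K] [Fintype K] [DecidableEq K] [Field k] [Ring R] [Algebra k R]

theorem sum_units' {M : Type*} [AddCommMonoid M] (f : K → M) :
    ∑ x : K, f x = f 0 + ∑ u : Kˣ, f u := by
  rw [← Finset.add_sum_erase _ _ (Finset.mem_univ (0 : K))]
  congr 1
  symm
  refine Finset.sum_bij (fun (u : Kˣ) _ => (u : K)) ?_ ?_ ?_ ?_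
  · intro u _
    simp
  · intro u _ v _ h
    exact Units.ext h
  · intro x hx
    have hx0 : x ≠ 0 := by simpa using hx
    exact ⟨Units.mk0 x hx0, Finset.mem_univ _, rfl⟩
  · intro u _
    rfl

/-- Fourier transform. -/
def ft (ψ : AddChar K k) (u : K → R) (γ : K) : R := ∑ x : K, ψ (γ * x) • u x

variable {ψ : AddChar K k} (hψ : ∀ x : K, ∑ γ : K, ψ (γ * x) = if x = 0 then 1 else 0)

include hψ in
theorem ft_sum (u : K → R) : ∑ γ : K, ft ψ u γ = u 0 := by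
  unfold ft
  rw [Finset.sum_comm]
  simp only [← Finset.sum_smul, hψ]
  simp

theorem ft_zero (u : K → R) : ft ψ u 0 = ∑ x, u x := by
  simp [ft]

theorem ft_map (u : K → R) (f : R →ₐ[k] R) (s : Kˣ) (h : ∀ x, f (u x) = u (s * x)) (γ : K) :
    f (ft ψ u γ) = ft ψ u (γ * (s⁻¹ : Kˣ)) := by
  unfold ft
  rw [map_sum]
  refine Fintype.sum_equiv (Units.mulLeft s) _ _ (fun x => ?_)
  rw [map_smul, h]
  congr 2
  simp only [Units.mulLeft_apply]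
  rw [mul_assoc, Units.inv_mul_cancel_left]

theorem ft_comm {u v : K → R} (h : ∀ x y, u x * v y = v y * u x) (α β : K) :
    ft ψ u α * ft ψ v β = ft ψ v β * ft ψ u α := by
  unfold ft
  rw [Finset.sum_mul_sum, Finset.sum_mul_sum, Finset.sum_comm]
  refine Finset.sum_congr rfl fun y _ => Finset.sum_congr rfl fun x _ => ?_
  rw [smul_mul_smul_comm, smul_mul_smul_comm, h, mul_comm (ψ (α * x))]

include hψ in
theorem fourier (uA uB uC uD : K → R) (hA : uA 0 = 1) (hB : uB 0 = 1) (hC : uC 0 = 1)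
    (hD : uD 0 = 1) (hAB : ∀ x y, uA x * uB y = uB y * uA x)
    (h1 : (∑ x, uA x) * (∑ y, uB y) = 0) (h2 : (∑ x, uC x) * (∑ y, uA y) = 0)
    (h3 : (∑ x, uD x) * (∑ y, uB y) = 0) (cs : Kˣ × Kˣ → (R →ₐ[k] R))
    (cA : ∀ s x, cs s (uA x) = uA (s.1 * x)) (cB : ∀ s x, cs s (uB x) = uB (s.2 * x))
    (cC : ∀ s x, cs s (uC x) = uC ((s.1 * s.2⁻¹ : Kˣ) * x))
    (cD : ∀ s x, cs s (uD x) = uD ((s.2 * s.1⁻¹ : Kˣ) * x)) :
    ∃ φ : R, ∑ s : Kˣ × Kˣ, cs s φ = 1 := by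
  set A := ft ψ uA with hAdef
  set B := ft ψ uB with hBdef
  set C := ft ψ uC with hCdef
  set D := ft ψ uD with hDdef
  have sA : A 0 + ∑ u : Kˣ, A u = 1 := by rw [← sum_units', hAdef, ft_sum hψ, hA]
  have sB : B 0 + ∑ u : Kˣ, B u = 1 := by rw [← sum_units', hBdef, ft_sum hψ, hB]
  have sC : C 0 + ∑ u : Kˣ, C u = 1 := by rw [← sum_units', hCdef, ft_sum hψ, hC]
  have sD : D 0 + ∑ u : Kˣ, D u = 1 := by rw [← sum_units', hDdef, ft_sum hψ, hD]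
  have zAB : A 0 * B 0 = 0 := by rw [hAdef, hBdef, ft_zero, ft_zero, h1]
  have zCA : C 0 * A 0 = 0 := by rw [hAdef, hCdef, ft_zero, ft_zero, h2]
  have zDB : D 0 * B 0 = 0 := by rw [hBdef, hDdef, ft_zero, ft_zero, h3]
  have cAB : ∀ α β, A α * B β = B β * A α := ft_comm hAB
  refine ⟨A 1 * B 1 + C 1 * A 0 * B 1 + D 1 * A 1 * B 0, ?_⟩
  have e1 : ∀ s : Kˣ × Kˣ, cs s (A 1 * B 1 + C 1 * A 0 * B 1 + D 1 * A 1 * B 0)
      = A (s.1⁻¹ : Kˣ) * B (s.2⁻¹ : Kˣ) + C ((s.1 * s.2⁻¹)⁻¹ : Kˣ) * A 0 * B (s.2⁻¹ : Kˣ)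
        + D ((s.2 * s.1⁻¹)⁻¹ : Kˣ) * A (s.1⁻¹ : Kˣ) * B 0 := by
    intro s
    rw [map_add, map_add, map_mul, map_mul, map_mul, map_mul, map_mul]
    rw [hAdef, hBdef, hCdef, hDdef]
    rw [ft_map uA (cs s) s.1 (cA s), ft_map uB (cs s) s.2 (cB s), ft_map uC (cs s) _ (cC s),
      ft_map uD (cs s) _ (cD s), ft_map uA (cs s) s.1 (cA s), ft_map uB (cs s) s.2 (cB s)]
    simp only [one_mul, zero_mul]
  simp only [e1]
  rw [Finset.sum_add_distrib, Finset.sum_add_distrib]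
  have r1 : ∑ s : Kˣ × Kˣ, A (s.1⁻¹ : Kˣ) * B (s.2⁻¹ : Kˣ) = (∑ u : Kˣ, A u) * ∑ v : Kˣ, B v := by
    rw [Finset.sum_mul_sum, Fintype.sum_prod_type]
    refine Fintype.sum_equiv (Equiv.inv Kˣ) _ _ (fun x => ?_)
    refine Fintype.sum_equiv (Equiv.inv Kˣ) _ _ (fun y => ?_)
    rfl
  have r2 : ∑ s : Kˣ × Kˣ, C ((s.1 * s.2⁻¹)⁻¹ : Kˣ) * A 0 * B (s.2⁻¹ : Kˣ)
      = (∑ u : Kˣ, C u) * A 0 * ∑ v : Kˣ, B v := by
    rw [Finset.sum_mul, Finset.sum_mul_sum, Fintype.sum_prod_type, Finset.sum_comm]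
    rw [Finset.sum_comm (f := fun (i j : Kˣ) => C i * A 0 * B j)]
    refine Fintype.sum_equiv (Equiv.inv Kˣ) _ _ (fun y => ?_)
    refine Fintype.sum_equiv ((Equiv.mulRight y⁻¹).trans (Equiv.inv Kˣ)) _ _ (fun x => ?_)
    rfl
  have r3 : ∑ s : Kˣ × Kˣ, D ((s.2 * s.1⁻¹)⁻¹ : Kˣ) * A (s.1⁻¹ : Kˣ) * B 0
      = (∑ u : Kˣ, D u) * (∑ v : Kˣ, A v) * B 0 := by
    rw [Finset.sum_mul_sum, Finset.sum_mul, Fintype.sum_prod_type]
    simp only [Finset.sum_mul]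
    rw [Finset.sum_comm (f := fun (i j : Kˣ) => D i * A j * B 0)]
    refine Fintype.sum_equiv (Equiv.inv Kˣ) _ _ (fun y => ?_)
    refine Fintype.sum_equiv ((Equiv.mulRight y⁻¹).trans (Equiv.inv Kˣ)) _ _ (fun x => ?_)
    rfl
  rw [r1, r2, r3]
  have a1 : (∑ u : Kˣ, C u) * A 0 = A 0 := by
    have : (∑ u : Kˣ, C u) * A 0 = (C 0 + ∑ u : Kˣ, C u) * A 0 - C 0 * A 0 := by noncomm_ring
    rw [this, sC, zCA]; simp
  have hB0 : (∑ v : Kˣ, A v) * B 0 = B 0 * ∑ v : Kˣ, A v := by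
    rw [Finset.sum_mul, Finset.mul_sum]
    exact Finset.sum_congr rfl fun v _ => cAB _ _
  have a2 : (∑ u : Kˣ, D u) * (∑ v : Kˣ, A v) * B 0 = B 0 * (∑ v : Kˣ, A v) := by
    rw [mul_assoc, hB0, ← mul_assoc]
    congr 1
    have : (∑ u : Kˣ, D u) * B 0 = (D 0 + ∑ u : Kˣ, D u) * B 0 - D 0 * B 0 := by noncomm_ring
    rw [this, sD, zDB]; simp
  rw [a1, a2, ← hB0]
  have : (∑ u : Kˣ, A u) * ∑ v : Kˣ, B v + A 0 * ∑ v : Kˣ, B v + (∑ v : Kˣ, A v) * B 0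
      = (A 0 + ∑ u : Kˣ, A u) * (B 0 + ∑ u : Kˣ, B u) - A 0 * B 0 := by noncomm_ring
  rw [this, sA, sB, zAB]
  simp

end

end Pool.Agent.W449.PV
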