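import Mathlib
import Pool.Agent.W449.PV.Tr

/-! # The groups `A : C₃` with `A` a quotient of the Eisenstein lattice -/

namespace Pool.Agent.W449.PV

/-- Divisibility by the `m`-th power of `θ`, `θ (u, v) = (u + v, 2 v - u)`. -/
def Dv : ℕ → ℤ → ℤ → Prop
  | 0, _, _ => True
  | m + 1, i, j => ∃ u v : ℤ, i = u + v ∧ j = 2 * v - u ∧ Dv m u v

theorem Dv_succ (m : ℕ) (u v : ℤ) : Dv (m + 1) (u + v) (2 * v - u) ↔ Dv m u v := by
  constructor
  · rintro ⟨u', v', h1, h2, h⟩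
    have hv : v = v' := by omega
    have hu : u = u' := by omega
    rw [hu, hv]; exact h
  · intro h
    exact ⟨u, v, rfl, rfl, h⟩

theorem Dv_one {m : ℕ} {i j : ℤ} (h : Dv (m + 1) i j) : (3 : ℤ) ∣ i + j := by
  obtain ⟨u, v, h1, h2, _⟩ := h
  exact ⟨v, by omega⟩

theorem Dv_two {m : ℕ} {i j : ℤ} (h : Dv (m + 2) i j) : (3 : ℤ) ∣ i ∧ (3 : ℤ) ∣ j := by
  obtain ⟨u, v, h1, h2, u', v', h3, h4, _⟩ := h
  exact ⟨⟨v', by omega⟩, ⟨v' - u', by omega⟩⟩

theorem Dv_even (a : ℕ) (i j : ℤ) : Dv (2 * a) i j ↔ (3 : ℤ) ^ a ∣ i ∧ (3 : ℤ) ^ a ∣ j := by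
  induction a generalizing i j with
  | zero => simp [Dv]
  | succ a ih =>
    have e : 2 * (a + 1) = 2 * a + 2 := by ring
    rw [e]
    constructor
    · rintro ⟨u, v, h1, h2, u', v', h3, h4, h5⟩
      rw [ih] at h5
      obtain ⟨⟨s, hs⟩, ⟨t, ht⟩⟩ := h5
      refine ⟨⟨t, ?_⟩, ⟨t - s, ?_⟩⟩
      · rw [h1, h3, h4, hs, ht]; ring
      · rw [h2, h3, h4, hs, ht]; ring
    · rintro ⟨⟨s, hs⟩, ⟨t, ht⟩⟩
      refine ⟨_, _, ?_, ?_, 3 ^ a * (s - t), 3 ^ a * s, rfl, rfl, ?_⟩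
      · rw [hs]; ring
      · rw [ht]; ring
      · rw [ih]
        exact ⟨Dvd.intro _ rfl, Dvd.intro _ rfl⟩

variable {G : Type} [Group G]

/-- The relations. -/
structure Loc (b c d : G) : Prop where
  c3 : c ^ 3 = 1
  hd : c * b * c⁻¹ = d
  hbd : Commute b d
  hcd : c * d * c⁻¹ = b⁻¹ * d⁻¹

/-- The element `b ^ i * d ^ j`. -/
def Ie (b d : G) (i j : ℤ) : G := b ^ i * d ^ j

/-- The abelian subgroup. -/
def Ag (b d : G) : Subgroup G := Subgroup.closure {b, d}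

/-- The whole group. -/
def Kg (b c : G) : Subgroup G := Subgroup.closure {b, c}

namespace Loc

variable {b c d : G}

theorem I_mul (h : Loc b c d) (i j k l : ℤ) :
    Ie b d i j * Ie b d k l = Ie b d (i + k) (j + l) := by
  unfold Ie
  have h1 : d ^ j * b ^ k = b ^ k * d ^ j := ((h.hbd.zpow_zpow k j).eq).symm
  rw [mul_assoc, ← mul_assoc (d ^ j), h1, zpow_add, zpow_add]
  group

theorem I_zero (b d : G) : Ie b d 0 0 = 1 := by simp [Ie]

theorem I_inv (h : Loc b c d) (i j : ℤ) : (Ie b d i j)⁻¹ = Ie b d (-i) (-j) := by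
  rw [inv_eq_iff_mul_eq_one, h.I_mul]
  simp [Ie]

theorem I_c (h : Loc b c d) (i j : ℤ) : c * Ie b d i j * c⁻¹ = Ie b d (-j) (i - j) := by
  have h1 : c * Ie b d i j * c⁻¹ = (c * b * c⁻¹) ^ i * (c * d * c⁻¹) ^ j := by
    rw [conj_zpow, conj_zpow]
    unfold Ie
    group
  have h2 : (b⁻¹ * d⁻¹) ^ j = Ie b d (-j) (-j) := by
    rw [(h.hbd.inv_inv).mul_zpow]
    simp [Ie]
  have h4 : d ^ i = Ie b d 0 i := by simp [Ie]
  rw [h1, h.hd, h.hcd, h2, h4, h.I_mul]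
  congr 1
  ring

theorem c_I (h : Loc b c d) (i j : ℤ) : c * Ie b d i j = Ie b d (-j) (i - j) * c := by
  rw [← h.I_c]; group

theorem cinv_I (h : Loc b c d) (i j : ℤ) :
    c⁻¹ * Ie b d i j = Ie b d (j - i) (-i) * c⁻¹ := by
  have := h.c_I (j - i) (-i)
  rw [show (-(-i) : ℤ) = i by ring, show j - i - -i = j by ring] at this
  rw [inv_mul_eq_iff_eq_mul, ← mul_assoc, this]
  group

theorem cz_I (h : Loc b c d) (r : ℤ) (i j : ℤ) :
    ∃ i' j', c ^ r * Ie b d i j = Ie b d i' j' * c ^ r := by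
  induction r using Int.induction_on generalizing i j with
  | zero => exact ⟨i, j, by simp⟩
  | succ r ih =>
    obtain ⟨i', j', h'⟩ := ih (-j) (i - j)
    refine ⟨i', j', ?_⟩
    rw [zpow_add_one, mul_assoc, h.c_I, ← mul_assoc, h', mul_assoc]
  | pred r ih =>
    obtain ⟨i', j', h'⟩ := ih (j - i) (-i)
    refine ⟨i', j', ?_⟩
    rw [zpow_sub_one, mul_assoc, h.cinv_I, ← mul_assoc, h', mul_assoc]

theorem mem_A (h : Loc b c d) {g : G} : g ∈ Ag b d ↔ ∃ i j, g = Ie b d i j := by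
  constructor
  · intro hg
    unfold Ag at hg
    induction hg using Subgroup.closure_induction with
    | mem x hx =>
      rcases hx with rfl | rfl
      · exact ⟨1, 0, by simp [Ie]⟩
      · exact ⟨0, 1, by simp [Ie]⟩
    | one => exact ⟨0, 0, by simp [Ie]⟩
    | mul x y _ _ hx hy =>
      obtain ⟨i, j, rfl⟩ := hx
      obtain ⟨k, l, rfl⟩ := hy
      exact ⟨_, _, h.I_mul i j k l⟩
    | inv x _ hx =>
      obtain ⟨i, j, rfl⟩ := hx
      exact ⟨_, _, h.I_inv i j⟩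
  · rintro ⟨i, j, rfl⟩
    have hb : b ∈ Ag b d := Subgroup.subset_closure (by simp)
    have hd : d ∈ Ag b d := Subgroup.subset_closure (by simp)
    exact Subgroup.mul_mem _ (Subgroup.zpow_mem _ hb _) (Subgroup.zpow_mem _ hd _)

theorem b_mem_K (b c : G) : b ∈ Kg b c := Subgroup.subset_closure (by simp)

theorem c_mem_K (b c : G) : c ∈ Kg b c := Subgroup.subset_closure (by simp)

theorem A_le_K (h : Loc b c d) : Ag b d ≤ Kg b c := by
  unfold Ag
  rw [Subgroup.closure_le]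
  rintro x (rfl | rfl)
  · exact b_mem_K _ _
  · rw [← h.hd]
    exact Subgroup.mul_mem _ (Subgroup.mul_mem _ (c_mem_K _ _) (b_mem_K _ _))
      (Subgroup.inv_mem _ (c_mem_K _ _))

theorem I_mem_A (h : Loc b c d) (i j : ℤ) : Ie b d i j ∈ Ag b d := h.mem_A.2 ⟨i, j, rfl⟩

theorem mem_K (h : Loc b c d) {g : G} : g ∈ Kg b c ↔ ∃ i j r : ℤ, g = Ie b d i j * c ^ r := by
  constructor
  · intro hg
    unfold Kg at hg
    induction hg using Subgroup.closure_induction with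
    | mem x hx =>
      rcases hx with rfl | rfl
      · exact ⟨1, 0, 0, by simp [Ie]⟩
      · exact ⟨0, 0, 1, by simp [Ie]⟩
    | one => exact ⟨0, 0, 0, by simp [Ie]⟩
    | mul x y _ _ hx hy =>
      obtain ⟨i, j, r, rfl⟩ := hx
      obtain ⟨k, l, s, rfl⟩ := hy
      obtain ⟨k', l', hk⟩ := h.cz_I r k l
      refine ⟨i + k', j + l', r + s, ?_⟩
      rw [mul_assoc, ← mul_assoc (c ^ r), hk, mul_assoc, ← zpow_add, ← mul_assoc, h.I_mul]
    | inv x _ hx =>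
      obtain ⟨i, j, r, rfl⟩ := hx
      obtain ⟨k', l', hk⟩ := h.cz_I (-r) (-i) (-j)
      refine ⟨k', l', -r, ?_⟩
      rw [mul_inv_rev, h.I_inv, ← hk, zpow_neg]
  · rintro ⟨i, j, r, rfl⟩
    exact Subgroup.mul_mem _ (h.A_le_K (h.I_mem_A _ _)) (Subgroup.zpow_mem _ (c_mem_K _ _) _)

theorem c_zpow (h : Loc b c d) (r : ℤ) : ∃ i : Fin 3, c ^ r = c ^ (i : ℕ) := by
  refine ⟨⟨(r % 3).toNat, by omega⟩, ?_⟩
  have h1 : r = 3 * (r / 3) + (r % 3) := by omega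
  conv_lhs => rw [h1]
  rw [zpow_add, zpow_mul]
  have : c ^ (3 : ℤ) = 1 := by exact_mod_cast h.c3
  rw [this, one_zpow, one_mul, ← zpow_natCast]
  congr 1
  simp only
  omega

end Loc

end Pool.Agent.W449.PV
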