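import Mathlib
import Pool.Agent.W449.PV.Grp

/-! # Coset representatives for the groups of `Grp` -/

namespace Pool.Agent.W449.PV

variable {G : Type} [Group G]

theorem reps_pow {H K : Subgroup G} {x : G} (hx : x ∈ K) (h3 : x ^ 3 ∈ H)
    (hex : ∀ g ∈ K, ∃ n : ℤ, x ^ (-n) * g ∈ H) (hun : ∀ n : ℤ, x ^ n ∈ H → (3 : ℤ) ∣ n) :
    Reps H K (fun i : Fin 3 => x ^ (i : ℕ)) := by
  refine ⟨fun i => K.pow_mem hx _, fun g hg => ?_⟩
  obtain ⟨n, hn⟩ := hex g hg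
  refine ⟨⟨(n % 3).toNat, by omega⟩, ?_, ?_⟩
  · have h1 : ((n % 3).toNat : ℤ) = n % 3 := Int.toNat_of_nonneg (by omega)
    have h2 : (x ^ ((n % 3).toNat))⁻¹ * g = (x ^ (3 : ℕ)) ^ (n / 3) * (x ^ (-n) * g) := by
      rw [← zpow_natCast x ((n % 3).toNat), h1, ← zpow_natCast x 3, ← zpow_mul, ← zpow_neg,
        ← mul_assoc, ← zpow_add]
      congr 2
      push_cast
      omega
    show (x ^ ((n % 3).toNat))⁻¹ * g ∈ H
    rw [h2]
    exact H.mul_mem (H.zpow_mem h3 _) hn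
  · intro j hj
    have h1 : ((n % 3).toNat : ℤ) = n % 3 := Int.toNat_of_nonneg (by omega)
    have h2 : x ^ ((j : ℕ) - n : ℤ) ∈ H := by
      have := H.mul_mem hn (H.inv_mem hj)
      have e : x ^ (-n) * g * ((x ^ (j : ℕ))⁻¹ * g)⁻¹ = x ^ ((j : ℕ) - n : ℤ) := by
        rw [mul_inv_rev, inv_inv, mul_assoc, mul_inv_cancel_left, ← zpow_natCast, ← zpow_add]
        congr 1
        ring
      rwa [e] at this
    have h4 := hun _ h2
    have h5 := j.2
    apply Fin.ext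
    show (j : ℕ) = (n % 3).toNat
    omega

namespace Loc

variable {b c d : G}

theorem I_zpow (h : Loc b c d) (i j n : ℤ) : (Ie b d i j) ^ n = Ie b d (i * n) (j * n) := by
  unfold Ie
  rw [(h.hbd.zpow_zpow i j).mul_zpow, zpow_mul, zpow_mul]

theorem I_b (b d : G) (n : ℤ) : Ie b d n 0 = b ^ n := by simp [Ie]

theorem c_commutes (h : Loc b c d) {i j r : ℤ} (he : Ie b d i j = c ^ r) (hr : ¬ (3 : ℤ) ∣ r) :
    b = d := by
  have h1 : c ^ r * b = b * c ^ r := by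
    rw [← he]
    have := h.I_mul i j 1 0
    have h2 := h.I_mul 1 0 i j
    rw [I_b, zpow_one] at this h2
    rw [this, h2, add_comm i 1, add_comm j 0]
  have c3 : c ^ (3 : ℤ) = 1 := by exact_mod_cast h.c3
  have key : c * b = b * c := by
    have h3 : r % 3 = 1 ∨ r % 3 = 2 := by omega
    have hr' : r = 3 * (r / 3) + (r % 3) := by omega
    rcases h3 with h3 | h3
    · rw [h3] at hr'
      have e : c ^ r = c := by
        rw [hr', zpow_add, zpow_mul, c3, one_zpow, one_mul, zpow_one]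
      rwa [e] at h1
    · rw [h3] at hr'
      have e : c ^ r = c⁻¹ := by
        rw [hr', zpow_add, zpow_mul, c3, one_zpow, one_mul]
        have : c ^ (2 : ℤ) = c ^ (3 : ℤ) * c⁻¹ := by group
        rw [this, c3, one_mul]
      rw [e] at h1
      rw [inv_mul_eq_iff_eq_mul] at h1
      rw [← mul_assoc] at h1
      rw [eq_mul_inv_iff_mul_eq] at h1
      exact h1.symm
  rw [← h.hd, key, mul_inv_cancel_right]

theorem three_dvd (h : Loc b c d) (hk : ∀ i j : ℤ, Ie b d i j = 1 → (3 : ℤ) ∣ i ∧ (3 : ℤ) ∣ j)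
    {i j r : ℤ} (he : Ie b d i j = c ^ r) : (3 : ℤ) ∣ r := by
  by_contra hr
  have := h.c_commutes he hr
  have h1 : Ie b d 1 (-1) = 1 := by
    rw [← this]; simp [Ie]
  have := (hk _ _ h1).1
  omega

theorem next (h : Loc b c d) (m : ℤ) :
    Loc (Ie b d 1 (-1)) (c * b ^ (-m)) (Ie b d 1 2) := by
  have hc' : ∀ x y : ℤ, (c * b ^ (-m)) * Ie b d x y * (c * b ^ (-m))⁻¹
      = Ie b d (-y) (x - y) := by
    intro x y
    have e1 : b ^ (-m) * Ie b d x y * (b ^ (-m))⁻¹ = Ie b d x y := by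
      rw [← I_b b d, h.I_inv, h.I_mul, h.I_mul]
      congr 1 <;> ring
    rw [← h.I_c]
    calc c * b ^ (-m) * Ie b d x y * (c * b ^ (-m))⁻¹
        = c * (b ^ (-m) * Ie b d x y * (b ^ (-m))⁻¹) * c⁻¹ := by group
      _ = _ := by rw [e1]
  refine ⟨?_, ?_, ?_, ?_⟩
  · have e1 : c * b ^ (-m) = Ie b d 0 (-m) * c := by
      rw [← I_b b d, h.c_I]; congr 2; ring
    have e2 : c * Ie b d 0 (-m) = Ie b d m m * c := by
      rw [h.c_I]; congr 2 <;> ring
    have e3 : c * Ie b d m m = Ie b d (-m) 0 * c := by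
      rw [h.c_I]; congr 2; ring
    rw [e1]
    calc (Ie b d 0 (-m) * c) ^ 3
        = Ie b d 0 (-m) * (c * Ie b d 0 (-m)) * (c * Ie b d 0 (-m)) * c := by
          rw [pow_three]; simp only [mul_assoc]
      _ = Ie b d 0 (-m) * (Ie b d m m * c) * (Ie b d m m * c) * c := by rw [e2]
      _ = Ie b d 0 (-m) * Ie b d m m * (c * Ie b d m m) * c * c := by simp only [mul_assoc]
      _ = Ie b d 0 (-m) * Ie b d m m * Ie b d (-m) 0 * (c * c * c) := by
          rw [e3]; simp only [mul_assoc]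
      _ = 1 := by
          have : c * c * c = 1 := by rw [← h.c3, pow_three, mul_assoc]
          rw [this, h.I_mul, h.I_mul, mul_one]
          convert I_zero b d using 2 <;> ring
  · rw [hc']
    rfl
  · show _ * _ = _ * _
    rw [h.I_mul, h.I_mul]; congr 1
  · rw [hc', h.I_inv, h.I_inv, h.I_mul]
    congr 1

theorem I_next (h : Loc b c d) (u v : ℤ) :
    Ie (Ie b d 1 (-1)) (Ie b d 1 2) u v = Ie b d (u + v) (2 * v - u) := by
  rw [Ie, h.I_zpow, h.I_zpow, h.I_mul]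
  congr 1 <;> ring

theorem mem_A' (h : Loc b c d) {x y : ℤ} (hxy : (3 : ℤ) ∣ x + y) :
    Ie b d x y ∈ Ag (Ie b d 1 (-1)) (Ie b d 1 2) := by
  obtain ⟨v, hv⟩ := hxy
  rw [(h.next 0).mem_A]
  refine ⟨x - v, v, ?_⟩
  rw [h.I_next]
  congr 1 <;> omega

theorem A'_le_A (h : Loc b c d) : Ag (Ie b d 1 (-1)) (Ie b d 1 2) ≤ Ag b d := by
  intro g hg
  obtain ⟨u, v, rfl⟩ := (h.next 0).mem_A.1 hg
  rw [h.I_next]
  exact h.I_mem_A _ _

theorem A'_le_H (h : Loc b c d) (m : ℤ) :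
    Ag (Ie b d 1 (-1)) (Ie b d 1 2) ≤ Kg (Ie b d 1 (-1)) (c * b ^ (-m)) :=
  (h.next m).A_le_K

theorem H_le_K (h : Loc b c d) (m : ℤ) :
    Kg (Ie b d 1 (-1)) (c * b ^ (-m)) ≤ Kg b c := by
  have hb := b_mem_K b c
  have hc := c_mem_K b c
  conv_lhs => unfold Kg
  rw [Subgroup.closure_le]
  rintro x (rfl | rfl)
  · exact h.A_le_K (h.I_mem_A _ _)
  · exact Subgroup.mul_mem _ hc (Subgroup.zpow_mem _ hb _)

theorem c'_zpow (h : Loc b c d) (m r : ℤ) :
    ∃ x y : ℤ, (c * b ^ (-m)) ^ r = Ie b d x y * c ^ r ∧ (3 : ℤ) ∣ x + y + m * r := by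
  induction r using Int.induction_on with
  | zero => exact ⟨0, 0, by simp [Ie], by simp⟩
  | succ r ih =>
    obtain ⟨x, y, h1, t, ht⟩ := ih
    refine ⟨-y, x - m - y, ?_, t - y, ?_⟩
    · rw [add_comm, zpow_one_add, zpow_one_add, h1]
      have e1 : b ^ (-m) * Ie b d x y = Ie b d (x - m) y := by
        rw [← I_b b d, h.I_mul]; congr 1 <;> ring
      calc c * b ^ (-m) * (Ie b d x y * c ^ (r : ℤ))
          = c * (b ^ (-m) * Ie b d x y) * c ^ (r : ℤ) := by simp only [mul_assoc]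
        _ = _ := by rw [e1, h.c_I]; simp only [mul_assoc]
    · linear_combination ht
  | pred r ih =>
    obtain ⟨x, y, h1, t, ht⟩ := ih
    refine ⟨m + y - x, -x, ?_, t - x, ?_⟩
    · have e0 : (-(r : ℤ) - 1) = -1 + -(r : ℤ) := by ring
      rw [e0, zpow_add, zpow_add, h1]
      have e1 : (c * b ^ (-m)) ^ (-1 : ℤ) = b ^ m * c⁻¹ := by group
      have e2 : b ^ m * Ie b d (y - x) (-x) = Ie b d (m + y - x) (-x) := by
        rw [← I_b b d, h.I_mul]; congr 1 <;> ring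
      rw [e1, ← e2]
      calc b ^ m * c⁻¹ * (Ie b d x y * c ^ (-(r : ℤ)))
          = b ^ m * (c⁻¹ * Ie b d x y) * c ^ (-(r : ℤ)) := by simp only [mul_assoc]
        _ = _ := by rw [h.cinv_I, zpow_neg_one]; simp only [mul_assoc]
    · linear_combination ht

theorem mem_H (h : Loc b c d) {m x y r : ℤ} (hx : (3 : ℤ) ∣ x + y + m * r) :
    Ie b d x y * c ^ r ∈ Kg (Ie b d 1 (-1)) (c * b ^ (-m)) := by
  obtain ⟨x', y', h1, t', ht'⟩ := h.c'_zpow m r
  obtain ⟨t, ht⟩ := hx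
  have e : Ie b d x y * c ^ r = Ie b d (x - x') (y - y') * (c * b ^ (-m)) ^ r := by
    rw [h1, ← mul_assoc, h.I_mul]
    congr 2 <;> ring
  rw [e]
  refine Subgroup.mul_mem _ (h.A'_le_H m (h.mem_A' ⟨t - t', ?_⟩)) (Subgroup.zpow_mem _ (c_mem_K _ _) _)
  linear_combination ht - ht'

theorem of_mem_H (h : Loc b c d) {m : ℤ} {g : G}
    (hg : g ∈ Kg (Ie b d 1 (-1)) (c * b ^ (-m))) :
    ∃ x y r : ℤ, g = Ie b d x y * c ^ r ∧ (3 : ℤ) ∣ x + y + m * r := by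
  obtain ⟨u, v, r, rfl⟩ := (h.next m).mem_K.1 hg
  obtain ⟨x', y', h1, t', ht'⟩ := h.c'_zpow m r
  refine ⟨u + v + x', 2 * v - u + y', r, ?_, t' + v, ?_⟩
  · rw [h1, h.I_next, ← mul_assoc, h.I_mul]
  · linear_combination ht'

section

variable (hk : ∀ i j : ℤ, Ie b d i j = 1 → (3 : ℤ) ∣ i ∧ (3 : ℤ) ∣ j)
include hk

theorem reps_A_K (h : Loc b c d) : Reps (Ag b d) (Kg b c) (fun i : Fin 3 => c ^ (i : ℕ)) := by
  apply reps_pow (c_mem_K _ _)
  · rw [h.c3]; exact Subgroup.one_mem _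
  · intro g hg
    obtain ⟨i, j, r, rfl⟩ := h.mem_K.1 hg
    obtain ⟨i', j', h1⟩ := h.cz_I (-r) i j
    refine ⟨r, ?_⟩
    rw [← mul_assoc, h1, mul_assoc, ← zpow_add, neg_add_cancel, zpow_zero, mul_one]
    exact h.I_mem_A _ _
  · intro n hn
    obtain ⟨i, j, h1⟩ := h.mem_A.1 hn
    exact h.three_dvd hk h1.symm

theorem reps_H_K (h : Loc b c d) (m : ℤ) :
    Reps (Kg (Ie b d 1 (-1)) (c * b ^ (-m))) (Kg b c) (fun i : Fin 3 => b ^ (i : ℕ)) := by
  apply reps_pow (b_mem_K _ _)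
  · have : b ^ 3 = Ie b d 3 0 * c ^ (0 : ℤ) := by
      rw [zpow_zero, mul_one, I_b]; norm_cast
    rw [this]
    exact h.mem_H ⟨1, by ring⟩
  · intro g hg
    obtain ⟨i, j, r, rfl⟩ := h.mem_K.1 hg
    refine ⟨i + j + m * r, ?_⟩
    have e : b ^ (-(i + j + m * r)) * (Ie b d i j * c ^ r)
        = Ie b d (-(i + j + m * r) + i) (0 + j) * c ^ r := by
      rw [← mul_assoc, ← h.I_mul, I_b]
    rw [e]
    exact h.mem_H ⟨0, by ring⟩
  · intro n hn
    obtain ⟨x, y, r, h1, t, ht⟩ := h.of_mem_H hn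
    have h2 : Ie b d (n - x) (-y) = c ^ r := by
      rw [← I_b b d] at h1
      have : Ie b d (-x) (-y) * Ie b d n 0 = c ^ r := by
        rw [h1, ← h.I_inv]; simp
      rw [← this, h.I_mul]
      congr 1 <;> ring
    obtain ⟨s, hs⟩ := h.three_dvd hk h2
    have h4 : c ^ r = 1 := by
      rw [hs, zpow_mul]
      have : c ^ (3 : ℤ) = 1 := by exact_mod_cast h.c3
      rw [this, one_zpow]
    obtain ⟨⟨p, hp⟩, ⟨q, hq⟩⟩ := hk _ _ (h2.trans h4)
    refine ⟨p + t - m * s + q, ?_⟩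
    rw [hs] at ht
    linear_combination hp + ht + hq

theorem reps_A'_A (h : Loc b c d) :
    Reps (Ag (Ie b d 1 (-1)) (Ie b d 1 2)) (Ag b d) (fun i : Fin 3 => b ^ (i : ℕ)) := by
  have hb : b ∈ Ag b d := by
    have := h.I_mem_A 1 0
    rwa [I_b, zpow_one] at this
  apply reps_pow hb
  · have : b ^ 3 = Ie b d 3 0 := by
      rw [I_b]; norm_cast
    rw [this]
    exact h.mem_A' ⟨1, by ring⟩
  · intro g hg
    obtain ⟨i, j, rfl⟩ := h.mem_A.1 hg
    refine ⟨i + j, ?_⟩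
    rw [← I_b b d, h.I_mul]
    exact h.mem_A' ⟨0, by ring⟩
  · intro n hn
    obtain ⟨u, v, h1⟩ := (h.next 0).mem_A.1 hn
    rw [h.I_next] at h1
    have h2 : Ie b d (n - (u + v)) (-(2 * v - u)) = 1 := by
      rw [← I_b b d] at h1
      have : Ie b d (-(u + v)) (-(2 * v - u)) * Ie b d n 0 = 1 := by
        rw [h1, ← h.I_inv]; simp
      rw [← this, h.I_mul]
      congr 1 <;> ring
    obtain ⟨⟨p, hp⟩, ⟨q, hq⟩⟩ := hk _ _ h2
    exact ⟨p + q + v, by linear_combination hp + hq⟩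

end

/-- Base case. -/
theorem card_le (h : Loc b c d) [Finite G]
    (hk : ∀ i j : ℤ, (3 : ℤ) ∣ i + j → Ie b d i j = 1) : Nat.card (Kg b c) ≤ 9 := by
  have hsurj : Function.Surjective (fun x : Fin 3 × Fin 3 =>
      (⟨b ^ (x.1 : ℕ) * c ^ (x.2 : ℕ), Subgroup.mul_mem _ (Subgroup.pow_mem _ (b_mem_K _ _) _)
        (Subgroup.pow_mem _ (c_mem_K _ _) _)⟩ : Kg b c)) := by
    rintro ⟨g, hg⟩
    obtain ⟨i, j, r, rfl⟩ := h.mem_K.1 hg
    obtain ⟨s, hs⟩ := h.c_zpow r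
    refine ⟨(⟨((i + j) % 3).toNat, by omega⟩, s), ?_⟩
    apply Subtype.ext
    simp only
    rw [hs]
    congr 1
    have h1 : (((i + j) % 3).toNat : ℤ) = (i + j) % 3 := Int.toNat_of_nonneg (by omega)
    rw [← zpow_natCast, h1, ← I_b b d]
    have h2 : Ie b d (i - (i + j) % 3) j = 1 := hk _ _ ⟨(i + j) / 3, by omega⟩
    have h3 := h.I_mul ((i + j) % 3) 0 (i - (i + j) % 3) j
    rw [h2, mul_one] at h3
    rw [h3]
    congr 1 <;> ring
  have := Nat.card_le_card_of_surjective _ hsurj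
  simpa using this

end Loc

end Pool.Agent.W449.PV
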