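import Mathlib

/-! # Fitting idempotent in a finite-dimensional commutative algebra of characteristic three -/

namespace Pool.Agent.W449.PV

open Polynomial

theorem fitting {k C : Type*} [Field k] [CommRing C] [Algebra k C] [FiniteDimensional k C]
    (u : C) : ∃ (w : C) (N : ℕ), (u * w) * (u * w) = u * w ∧ u ^ N * (1 - u * w) = 0 := by
  have hint : IsIntegral k u := Algebra.IsIntegral.isIntegral u
  obtain ⟨μ, hμ, hμu⟩ : ∃ μ : k[X], μ ≠ 0 ∧ aeval u μ = 0 :=
    ⟨minpoly k u, minpoly.ne_zero hint, minpoly.aeval k u⟩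
  obtain ⟨g, hg, hg'⟩ := Polynomial.exists_eq_pow_rootMultiplicity_mul_and_not_dvd μ hμ 0
  set n := rootMultiplicity 0 μ with hn
  rw [map_zero, sub_zero] at hg hg'
  have hcop : IsCoprime (X ^ (n + 1) : k[X]) g := by
    apply IsCoprime.pow_left
    exact (Polynomial.irreducible_X.coprime_iff_not_dvd).2 hg'
  obtain ⟨α, β, hαβ⟩ := hcop
  have h1 : aeval u α * u ^ (n + 1) + aeval u β * aeval u g = 1 := by
    have := congrArg (aeval u) hαβ
    simpa using this
  have h2 : u ^ n * aeval u g = 0 := by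
    have := congrArg (aeval u) hg
    rw [hμu] at this
    simpa using this.symm
  refine ⟨aeval u α * u ^ n, n + 1, ?_, ?_⟩
  · have e1 : u * (aeval u α * u ^ n) = aeval u α * u ^ (n + 1) := by ring
    rw [e1]
    linear_combination (-(aeval u α * u ^ (n+1))) * (-h1) - (aeval u α * aeval u β * u) * h2
  · have e1 : u * (aeval u α * u ^ n) = aeval u α * u ^ (n + 1) := by ring
    rw [e1]
    linear_combination (-(u ^ (n+1))) * h1 + (aeval u β * u) * h2

theorem cube_pow {C : Type*} [CommRing C] (h3 : (3 : C) = 0) (x : C) (s : ℕ) :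
    (x ^ 3 - x) ^ (3 ^ s) = x ^ (3 ^ (s + 1)) - x ^ (3 ^ s) := by
  induction s with
  | zero => simp
  | succ s ih =>
    rw [pow_succ 3 s, pow_mul, ih]
    have : ∀ a b : C, (a - b) ^ 3 = a ^ 3 - b ^ 3 := by
      intro a b
      linear_combination (-(a^2*b) + a*b^2) * h3
    rw [this, ← pow_mul, ← pow_mul]
    ring_nf

theorem telesc {C : Type*} [CommRing C] (h3 : (3 : C) = 0) (x : C) (s : ℕ) :
    ∃ p : C, x ^ (3 ^ s) = x + (x ^ 3 - x) * p := by
  induction s with
  | zero => exact ⟨0, by simp⟩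
  | succ s ih =>
    obtain ⟨p, hp⟩ := ih
    refine ⟨1 + (x^3 - x)^2 * p^3, ?_⟩
    rw [pow_succ 3 s, pow_mul, hp]
    linear_combination (x^2*((x ^ 3 - x) * p) + x*((x ^ 3 - x) * p)^2) * h3

theorem comm_part {k C : Type*} [Field k] [CommRing C] [Algebra k C] [FiniteDimensional k C]
    (h3 : (3 : C) = 0) (x : C) : ∃ w p y : C,
      ((x^3 - x) * w) * ((x^3 - x) * w) = (x^3 - x) * w ∧
      y = x + (x^3 - x) * p ∧ (1 - (x^3 - x) * w) * (y ^ 3 - y) = 0 := by
  obtain ⟨w, N, h1, h2⟩ := fitting (k := k) (x^3 - x)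
  obtain ⟨p, hp⟩ := telesc h3 x N
  refine ⟨w, p, x ^ (3 ^ N), h1, hp, ?_⟩
  have hN : N ≤ 3 ^ N := (Nat.lt_pow_self (by norm_num)).le
  have h4 : (x ^ (3 ^ N)) ^ 3 - x ^ (3 ^ N) = (x^3 - x)^(3^N) := by
    rw [cube_pow h3, ← pow_mul, ← pow_succ]
  rw [h4]
  obtain ⟨t, ht⟩ := Nat.exists_eq_add_of_le hN
  rw [ht, pow_add]
  linear_combination ((x^3-x)^t) * h2

/-- The idempotent attached to the integer `m`. -/
def idem {C : Type*} [CommRing C] (e y : C) (m : ℤ) : C := (1 - e) * (1 - (y - (m : C)) ^ 2)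

theorem three_dvd_cube_sub (m : ℤ) : ∃ t : ℤ, m ^ 3 - m = 3 * t := by
  have : (3 : ℤ) ∣ m ^ 3 - m := by
    have h : m % 3 = 0 ∨ m % 3 = 1 ∨ m % 3 = 2 := by omega
    apply Int.dvd_of_emod_eq_zero
    rcases h with h | h | h <;> simp [pow_succ, Int.sub_emod, Int.mul_emod, h]
  exact this

theorem cast_cube {C : Type*} [CommRing C] (h3 : (3 : C) = 0) (m : ℤ) :
    ((m : C)) ^ 3 = (m : C) := by
  obtain ⟨t, ht⟩ := three_dvd_cube_sub m
  have := congrArg (Int.cast : ℤ → C) ht
  push_cast at this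
  linear_combination this + (t : C) * h3

theorem idem_mul_y {C : Type*} [CommRing C] (h3 : (3 : C) = 0) {e y : C}
    (hy : (1 - e) * (y ^ 3 - y) = 0) (m : ℤ) : idem e y m * y = (m : C) * idem e y m := by
  unfold idem
  have hm := cast_cube (C := C) h3 m
  linear_combination (-1 : C) * hy + (1 - e) * hm + ((1-e) * (y^2*m - y*m^2)) * h3

theorem idem_mul_self {C : Type*} [CommRing C] (h3 : (3 : C) = 0) {e y : C} (he : e * e = e)
    (hy : (1 - e) * (y ^ 3 - y) = 0) (m : ℤ) : idem e y m * idem e y m = idem e y m := by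
  have h1 := idem_mul_y h3 hy m
  have h2 : idem e y m * (y - (m : C)) = 0 := by linear_combination h1
  have h4 : idem e y m * (1 - e) = idem e y m := by
    unfold idem
    linear_combination (1 - (y - m)^2) * he
  calc idem e y m * idem e y m = (idem e y m * (1 - e)) * (1 - (y - (m : C)) ^ 2) := by
        conv_lhs => rw [show idem e y m * idem e y m = idem e y m * ((1 - e) * (1 - (y - (m : C)) ^ 2)) from rfl]
        ring
    _ = idem e y m := by
        rw [h4]
        linear_combination (-(y - (m:C))) * h2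

theorem idem_sum {C : Type*} [CommRing C] (h3 : (3 : C) = 0) (e y : C) :
    e + (idem e y 0 + idem e y 1 + idem e y (-1)) = 1 := by
  unfold idem
  push_cast
  linear_combination (-(1 - e) * y^2) * h3

end Pool.Agent.W449.PV
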