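import Mathlib

/-! # A noncommutative cubic form in characteristic three -/

namespace Pool.Agent.W449.PV

variable {R : Type*} [Ring R]

/-- The cubic form. -/
def F3 (x y z : R) : R :=
  x*x*y + x*x*z + x*y*x - x*y*y + x*z*x + x*z*y + y*x*x - y*x*y - y*x*z - y*y*x - y*y*z
    + y*z*x - y*z*y + z*x*x - z*x*y - z*y*y

theorem F3_cyc (h3 : (3 : R) = 0) (x y z : R) :
    F3 y z x - F3 x y z = x^3 + y^3 + z^3 - (x + y + z)^3 := by
  have h : F3 y z x - F3 x y z - (x^3 + y^3 + z^3 - (x + y + z)^3)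
      = 3 * (y*y*z + y*y*x + y*z*y + y*x*y + y*x*z + z*y*y + z*x*y + x*y*y) := by
    unfold F3
    noncomm_ring
  rw [h3, zero_mul] at h
  exact sub_eq_zero.1 h

theorem F3_b (h3 : (3 : R) = 0) (x y z : R) : F3 (x - 1) (y + 1) z = F3 x y z := by
  have h : F3 (x - 1) (y + 1) z - F3 x y z
      = 3 * (x*x - 2*(x*y) - 3*x + 3*y + 1 + 1 - x*z - 2*(y*x) + y*y - z*x - z*y - y*z) := by
    unfold F3
    noncomm_ring
  rw [h3, zero_mul] at h
  exact sub_eq_zero.1 h

theorem F3_d (h3 : (3 : R) = 0) (x y z : R) : F3 x (y - 1) (z + 1) = F3 x y z := by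
  have h : F3 x (y - 1) (z + 1) - F3 x y z
      = 3 * (x*y - x + y*x - y*y + y*z + 2*y - z - 1 + z*y) := by
    unfold F3
    noncomm_ring
  rw [h3, zero_mul] at h
  exact sub_eq_zero.1 h

theorem cube_add_of_commute (h3 : (3 : R) = 0) {x y : R} (h : Commute x y) :
    (x + y)^3 = x^3 + y^3 := by
  have h' : y * x = x * y := h.eq.symm
  have e : (x + y)^3 - (x^3 + y^3) = 3 * (x*x*y + x*y*y) := by
    have e1 : y * x * y = x * y * y := by rw [h']
    have e2 : y * x * x = x * x * y := by rw [h', mul_assoc, h', mul_assoc]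
    have e3 : x * y * x = x * x * y := by rw [mul_assoc, h', mul_assoc]
    have e4 : y * y * x = x * y * y := by rw [mul_assoc, h', ← mul_assoc, h']
    have : (x + y)^3 = x^3 + y^3 + x*x*y + x*y*x + x*y*y + y*x*x + y*x*y + y*y*x := by
      noncomm_ring
    rw [this, e1, e2, e3, e4]
    noncomm_ring
  rw [h3, zero_mul] at e
  exact sub_eq_zero.1 e

end Pool.Agent.W449.PV
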