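import Mathlib
import Pool.Agent.W449.PV.Cubic
import Pool.Agent.W449.PV.Comm

/-! # The ring part of the induction step -/

namespace Pool.Agent.W449.PV

variable {R : Type*} [Ring R]

theorem sum3_sq (h3 : (3 : R) = 0) {x e : R} (he : e * e = e) (h1 : e * x = x) (h2 : x * e = x) :
    -x^2 + -(x + e)^2 + -(x + e + e)^2 = e := by
  have e1 : (x + e)^2 = x * x + x + x + e := by
    have : (x + e)^2 = x * x + x * e + e * x + e * e := by noncomm_ring
    rw [this, h1, h2, he]
  have e2 : (x + e + e)^2 = x * x + x + x + x + x + e + e + e + e := by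
    have : (x + e + e)^2 = x * x + x * e + x * e + e * x + e * x + e * e + e * e + e * e + e * e := by
      noncomm_ring
    rw [this, h1, h2, he]
  rw [e1, e2]
  have : -x^2 + -(x * x + x + x + e) + -(x * x + x + x + x + x + e + e + e + e) - e
      = 3 * (-(x * x) - x - x - e - e) := by
    noncomm_ring
  rw [h3, zero_mul] at this
  exact sub_eq_zero.1 this

variable {G : Type} [Group G] [MulSemiringAction G R]

theorem adjoin_fixed {k : Type*} [Field k] [Algebra k R] [SMulCommClass G k R] {x : R} {g : G} (hg : g • x = x) {r : R} (hr : r ∈ Algebra.adjoin k {x}) :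
    g • r = r := by
  induction hr using Algebra.adjoin_induction with
  | mem y hy => rw [Set.mem_singleton_iff] at hy; rw [hy, hg]
  | algebraMap c => rw [Algebra.algebraMap_eq_smul_one, smul_comm, smul_one]
  | add a b _ _ ha hb => rw [smul_add, ha, hb]
  | mul a b _ _ ha hb => rw [smul_mul', ha, hb]

theorem smul_intCast' (g : G) (n : ℤ) : g • (n : R) = (n : R) :=
  map_intCast (MulSemiringAction.toRingHom G R g) n

open scoped IsMulCommutative in
/-- Output of the commutative part, in `R`. -/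
theorem comm_out (k : Type*) [Field k] [Algebra k R] [FiniteDimensional k R]
    [SMulCommClass G k R] (h3 : (3 : R) = 0) (x : R) :
    ∃ (w p y : R) (E : ℤ → R),
      (∀ g : G, g • x = x → g • w = w ∧ g • p = p ∧ g • y = y ∧ ∀ m, g • E m = E m) ∧
      Commute x w ∧ Commute x p ∧ Commute w p ∧
      y = x + (x^3 - x) * p ∧
      ((x^3 - x) * w) * ((x^3 - x) * w) = (x^3 - x) * w ∧
      (∀ m, E m * E m = E m) ∧ (∀ m, E m * y = (m : R) * E m) ∧
      (x^3 - x) * w + (E 0 + E 1 + E (-1)) = 1 := by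
  set C := Algebra.adjoin k ({x} : Set R) with hC
  have h3C : (3 : C) = 0 := by
    apply Subtype.ext
    exact h3
  obtain ⟨w, p, y, h1, h2, h4⟩ := comm_part (k := k) h3C (⟨x, Algebra.subset_adjoin rfl⟩ : C)
  set X : C := ⟨x, Algebra.subset_adjoin rfl⟩ with hX
  refine ⟨w, p, y, fun m => (idem ((X^3 - X) * w) y m : C), ?_, ?_, ?_, ?_, ?_, ?_, ?_, ?_, ?_⟩
  · intro g hg
    exact ⟨adjoin_fixed hg w.2, adjoin_fixed hg p.2, adjoin_fixed hg y.2,
      fun m => adjoin_fixed hg (Subtype.property _)⟩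
  · exact congrArg (Subtype.val) (mul_comm X w)
  · exact congrArg (Subtype.val) (mul_comm X p)
  · exact congrArg (Subtype.val) (mul_comm w p)
  · exact congrArg (Subtype.val) h2
  · exact congrArg (Subtype.val) h1
  · intro m
    exact congrArg (Subtype.val) (idem_mul_self h3C h1 h4 m)
  · intro m
    have := congrArg (Subtype.val) (idem_mul_y h3C h4 m)
    exact this
  · exact congrArg (Subtype.val) (idem_sum h3C ((X^3 - X) * w) y)

theorem cube_sub_one (h3 : (3 : R) = 0) (x : R) : (x - 1)^3 = x^3 - 1 := by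
  have h := cube_add_of_commute h3 (Commute.neg_right (Commute.one_right x))
  rw [← sub_eq_add_neg] at h
  rw [h]
  noncomm_ring

theorem cube_add_one (h3 : (3 : R) = 0) (x : R) : (x + 1)^3 = x^3 + 1 := by
  have h := cube_add_of_commute h3 (Commute.one_right x)
  rw [h, one_pow]

theorem smul_F3 (g : G) (x y z : R) : g • F3 x y z = F3 (g • x) (g • y) (g • z) := by
  simp only [F3, smul_add, smul_sub, smul_mul']

theorem zpow_shift {b : G} {x e : R} (h : b • x = x + e) (he : b • e = e) (n : ℤ) :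
    b ^ n • x = x + (n : R) * e := by
  have hinv : b⁻¹ • x = x - e := by
    rw [inv_smul_eq_iff, smul_sub, h, he]; abel
  have heinv : b⁻¹ • e = e := by rw [inv_smul_eq_iff, he]
  induction n using Int.induction_on with
  | zero => simp
  | succ n ih =>
    rw [zpow_add_one, mul_smul, h, smul_add, ih]
    have : b ^ (n : ℤ) • e = e := by
      rw [zpow_natCast]
      clear ih
      induction n with
      | zero => simp
      | succ n ih2 => rw [pow_succ, mul_smul, he, ih2]
    rw [this]
    push_cast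
    noncomm_ring
  | pred n ih =>
    rw [zpow_sub_one, mul_smul, hinv, smul_sub, ih]
    have : b ^ (-(n : ℤ)) • e = e := by
      rw [zpow_neg, zpow_natCast, inv_smul_eq_iff]
      clear ih
      induction n with
      | zero => simp
      | succ n ih2 => rw [pow_succ, mul_smul, he, ← ih2]
    rw [this]
    push_cast
    noncomm_ring

theorem step_ring (k : Type*) [Field k] [Algebra k R] [FiniteDimensional k R]
    [SMulCommClass G k R] (h3 : (3 : R) = 0) (b c d : G) (E0 E1 E2 : R)
    (hb0 : b • E0 = E0 - 1) (hb1 : b • E1 = E1 + 1) (hb2 : b • E2 = E2)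
    (hd0 : d • E0 = E0) (hd1 : d • E1 = E1 - 1) (hd2 : d • E2 = E2 + 1)
    (hc0 : c • E0 = E1) (hc1 : c • E1 = E2) (hc2 : c • E2 = E0) :
    ∃ (zi : R) (z : ℤ → R), b • zi = zi ∧ d • zi = zi ∧
      (∀ m : ℤ, (c * b ^ (-m)) • z m = z m ∧ (b * d⁻¹) • z m = z m) ∧
      (zi + c • zi + c • c • zi) + ((z 0 + b • z 0 + b • b • z 0) + (z 1 + b • z 1 + b • b • z 1)
        + (z (-1) + b • z (-1) + b • b • z (-1))) = 1 := by
  set ε : R := -(E0 + E1 + E2) with hε
  have hbε : b • ε = ε := by rw [hε, smul_neg, smul_add, smul_add, hb0, hb1, hb2]; abel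
  have hdε : d • ε = ε := by rw [hε, smul_neg, smul_add, smul_add, hd0, hd1, hd2]; abel
  have hcε : c • ε = ε := by rw [hε, smul_neg, smul_add, smul_add, hc0, hc1, hc2]; abel
  obtain ⟨w, p, y, E, hfix, cxw, cxp, cwp, hy, hee, hE, hEy, hsum⟩ := comm_out (G := G) k h3 ε
  obtain ⟨hbw, hbp, hby, hbE⟩ := hfix b hbε
  obtain ⟨hdw, hdp, hdy, hdE⟩ := hfix d hdε
  obtain ⟨hcw, hcp, hcy, hcE⟩ := hfix c hcε
  set υ : R := ε^3 - ε with hυ
  have hbυ : b • υ = υ := by rw [hυ, smul_sub, smul_pow', hbε]
  have hdυ : d • υ = υ := by rw [hυ, smul_sub, smul_pow', hdε]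
  have hcυ : c • υ = υ := by rw [hυ, smul_sub, smul_pow', hcε]
  set F : R := F3 E0 E1 E2 - ((E1^3 - E1) - (E0^3 - E0)) with hF
  have hbF : b • F = F := by
    rw [hF, smul_sub, smul_sub, smul_sub, smul_sub, smul_F3, smul_pow', smul_pow', hb0, hb1, hb2,
      F3_b h3, cube_sub_one h3, cube_add_one h3]
    abel
  have hdF : d • F = F := by
    rw [hF, smul_sub, smul_sub, smul_sub, smul_sub, smul_F3, smul_pow', smul_pow', hd0, hd1, hd2,
      F3_d h3, cube_sub_one h3]
    abel
  have hcF : c • F = F + υ := by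
    have h1 := F3_cyc h3 E0 E1 E2
    have h2 : F3 E1 E2 E0 = F3 E0 E1 E2 + (E0^3 + E1^3 + E2^3 - (E0 + E1 + E2)^3) := by
      rw [← h1]; abel
    have h4 : (E0 + E1 + E2)^3 = - ε^3 := by
      rw [hε]; noncomm_ring
    rw [hF, smul_sub, smul_sub, smul_sub, smul_sub, smul_F3, smul_pow', smul_pow', hc0, hc1, hc2,
      h2, h4]
    have h5 : F3 E0 E1 E2 + (E0 ^ 3 + E1 ^ 3 + E2 ^ 3 - -ε ^ 3) - (E2 ^ 3 - E2 - (E1 ^ 3 - E1))
        - (F3 E0 E1 E2 - (E1 ^ 3 - E1 - (E0 ^ 3 - E0)) + υ) = 3 * (E1^3 - E1) := by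
      rw [hυ, hε]
      noncomm_ring
    rw [h3, zero_mul] at h5
    exact sub_eq_zero.1 h5
  have h21 : (-1 - 1 : R) = 1 := by
    have : (-1 - 1 : R) - 1 = - 3 := by norm_num
    rw [h3, neg_zero] at this
    exact sub_eq_zero.1 this
  set Ds : R := (E0 - E1) + F * p with hDs
  have hbD : b • Ds = Ds + 1 := by
    rw [hDs, smul_add, smul_sub, smul_mul', hb0, hb1, hbF, hbp]
    have : E0 - 1 - (E1 + 1) + F * p = E0 - E1 + F * p + (-1 - 1) := by abel
    rw [this, h21]
  have hdD : d • Ds = Ds + 1 := by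
    rw [hDs, smul_add, smul_sub, smul_mul', hd0, hd1, hdF, hdp]
    abel
  have hcD : c • Ds = Ds + y := by
    rw [hDs, smul_add, smul_sub, smul_mul', hc0, hc1, hcF, hcp, hy, add_mul]
    have : E1 - E2 + (F * p + υ * p) - (E0 - E1 + F * p + (ε + υ * p)) = 3 * E1 := by
      rw [hε]; noncomm_ring
    rw [h3, zero_mul] at this
    exact sub_eq_zero.1 this
  set X : ℤ → R := fun m => E m * Ds * E m with hX
  have hbX : ∀ m, b • X m = X m + E m := by
    intro m
    simp only [hX, smul_mul', hbE, hbD]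
    rw [mul_add, add_mul, mul_one, hE]
  have hdX : ∀ m, d • X m = X m + E m := by
    intro m
    simp only [hX, smul_mul', hdE, hdD]
    rw [mul_add, add_mul, mul_one, hE]
  have hcX : ∀ m, c • X m = X m + (m : R) * E m := by
    intro m
    simp only [hX, smul_mul', hcE, hcD]
    rw [mul_add, add_mul, hEy, mul_assoc (m : R), hE]
  have hEX : ∀ m, E m * X m = X m := by
    intro m
    simp only [hX]
    rw [← mul_assoc, ← mul_assoc, hE]
  have hXE : ∀ m, X m * E m = X m := by
    intro m
    simp only [hX]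
    rw [mul_assoc, hE]
  set e : R := υ * w with he
  have hce : c • e = e := by rw [he, smul_mul', hcυ, hcw]
  have hbe : b • e = e := by rw [he, smul_mul', hbυ, hbw]
  have hde : d • e = e := by rw [he, smul_mul', hdυ, hdw]
  have cwυ : Commute w υ := by
    rw [hυ]
    exact (cxw.symm.pow_right 3).sub_right cxw.symm
  have cwe : Commute w e := by
    rw [he]
    exact cwυ.mul_right (Commute.refl w)
  set f : R := e * w * F * e with hf
  have hbf : b • f = f := by rw [hf, smul_mul', smul_mul', smul_mul', hbe, hbw, hbF]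
  have hdf : d • f = f := by rw [hf, smul_mul', smul_mul', smul_mul', hde, hdw, hdF]
  have hcf : c • f = f + e := by
    rw [hf, smul_mul', smul_mul', smul_mul', hce, hcw, hcF, mul_add, add_mul]
    congr 1
    rw [mul_assoc e w υ, cwυ.eq, ← he, hee, hee]
  have hef : e * f = f := by
    have h1 : f = e * (w * F * e) := by rw [hf, mul_assoc e w F, mul_assoc e (w * F) e]
    rw [h1, ← mul_assoc e e, hee]
  have hfe : f * e = f := by rw [hf, mul_assoc, hee]
  refine ⟨-f^2, fun m => -(X m)^2, ?_, ?_, ?_, ?_⟩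
  · rw [smul_neg, smul_pow', hbf]
  · rw [smul_neg, smul_pow', hdf]
  · intro m
    constructor
    · rw [smul_neg, smul_pow']
      congr 2
      rw [mul_smul, zpow_shift (hbX m) (hbE m), smul_add, hcX, smul_mul', hcE, smul_intCast']
      push_cast
      noncomm_ring
    · rw [smul_neg, smul_pow']
      congr 2
      have : d⁻¹ • X m = X m - E m := by
        rw [inv_smul_eq_iff, smul_sub, hdX, hdE]; abel
      rw [mul_smul, this, smul_sub, hbX, hbE]
      abel
  · have k1 : -f^2 + c • (-f^2) + c • c • (-f^2) = e := by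
      rw [smul_neg, smul_pow', hcf, smul_neg, smul_pow', smul_add, hcf, hce]
      exact sum3_sq h3 hee hef hfe
    have k2 : ∀ m, -(X m)^2 + b • (-(X m)^2) + b • b • (-(X m)^2) = E m := by
      intro m
      rw [smul_neg, smul_pow', hbX, smul_neg, smul_pow', smul_add, hbX, hbE]
      exact sum3_sq h3 (hE m) (hEX m) (hXE m)
    rw [k1, k2, k2, k2, hsum]

end Pool.Agent.W449.PV
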