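import Mathlib
import Pool.Agent.W449.PV.Grp2
import Pool.Agent.W449.PV.StepRing

/-! # The local theorem -/

namespace Pool.Agent.W449.PV

variable {G : Type} [Group G]

theorem Reps.sum_eq {H K : Subgroup G} {ι : Type} [Fintype ι] {s : ι → G} [Fintype K] [Fintype H]
    (hHK : H ≤ K) (hs : Reps H K s) {M : Type*} [AddCommMonoid M] (f : G → M) :
    ∑ k : K, f k = ∑ i, ∑ h : H, f (s i * h) := by
  rw [← Fintype.sum_prod_type' (f := fun (i : ι) (h : H) => f (s i * h))]
  symm
  refine Fintype.sum_bijective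
    (fun x : ι × H => (⟨s x.1 * x.2, K.mul_mem (hs.1 _) (hHK x.2.2)⟩ : K)) ⟨?_, ?_⟩ _ _
    (fun x => rfl)
  · rintro ⟨i, h⟩ ⟨j, h'⟩ he
    have he' : s i * h = s j * h' := congrArg Subtype.val he
    obtain ⟨l, _, hl⟩ := hs.2 (s i * h) (K.mul_mem (hs.1 _) (hHK h.2))
    have h1 : i = l := hl i (by simp)
    have h2 : j = l := hl j (by rw [he']; simp)
    subst h2
    subst h1
    have : h = h' := Subtype.ext (mul_left_cancel he')
    rw [this]
  · rintro ⟨g, hg⟩
    obtain ⟨i, hi, _⟩ := hs.2 g hg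
    exact ⟨(i, ⟨_, hi⟩), Subtype.ext (by simp)⟩

theorem reps_bot (K : Subgroup G) : Reps ⊥ K (fun a : K => (a : G)) := by
  refine ⟨fun a => a.2, fun g hg => ⟨⟨g, hg⟩, by simp, ?_⟩⟩
  rintro ⟨y, hy⟩ h
  apply Subtype.ext
  simp only [Subgroup.mem_bot] at h
  simpa using (inv_mul_eq_one.1 h)

variable {R : Type*} [Ring R] [MulSemiringAction G R]

theorem fixed_closure {S : Set G} {z : R} (h : ∀ x ∈ S, x • z = z) :
    ∀ g ∈ Subgroup.closure S, g • z = z := by
  have : Subgroup.closure S ≤ MulAction.stabilizer G z := by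
    rw [Subgroup.closure_le]
    intro x hx
    exact h x hx
  intro g hg
  exact this hg

theorem exists_E {b c d : G} [Finite G] (h : Loc b c d)
    (hk : ∀ i j : ℤ, Ie b d i j = 1 → (3 : ℤ) ∣ i ∧ (3 : ℤ) ∣ j) (h3 : (3 : R) = 0) (φ : R)
    (hφ : ∑ᶠ a : Ag b d, (a : G) • φ = 1) :
    ∃ E : R, ∀ s t : ℤ, Ie b d s t • E = E - (s : R) := by
  classical
  haveI : Fintype (Ag b d) := Fintype.ofFinite _
  rw [finsum_eq_sum_of_fintype] at hφ
  let X : Ag b d → R := fun a => ((Classical.choose (h.mem_A.1 a.2) : ℤ) : R)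
  have hX : ∀ (a : Ag b d) (i j : ℤ), (a : G) = Ie b d i j → X a = (i : R) := by
    intro a i j ha
    obtain ⟨j', hj'⟩ := Classical.choose_spec (h.mem_A.1 a.2)
    set i' := Classical.choose (h.mem_A.1 a.2) with hi'
    have h1 : Ie b d (i' - i) (j' - j) = 1 := by
      have : Ie b d i' j' * (Ie b d i j)⁻¹ = 1 := by rw [← hj', ← ha]; simp
      rw [h.I_inv, h.I_mul] at this
      rw [← this]; congr 1
    obtain ⟨⟨t, ht⟩, _⟩ := hk _ _ h1
    show ((i' : ℤ) : R) = (i : R)
    have : i' = i + 3 * t := by linarith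
    rw [this]
    push_cast
    rw [h3]; simp
  refine ⟨∑ a : Ag b d, X a * ((a : G) • φ), fun s t => ?_⟩
  have hg : Ie b d s t ∈ Ag b d := h.I_mem_A s t
  set g : Ag b d := ⟨Ie b d s t, hg⟩ with hgdef
  rw [Finset.smul_sum]
  have e1 : ∀ a : Ag b d, Ie b d s t • (X a * ((a : G) • φ)) = X a * (((g * a : Ag b d) : G) • φ) := by
    intro a
    rw [smul_mul', smul_smul]
    congr 1
    exact smul_intCast' _ _
  rw [Finset.sum_congr rfl (fun a _ => e1 a)]
  have e2 : ∑ a : Ag b d, X a * (((g * a : Ag b d) : G) • φ)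
      = ∑ a : Ag b d, X (g⁻¹ * a) * ((a : G) • φ) := by
    refine Fintype.sum_equiv (Equiv.mulLeft g) _ _ (fun a => ?_)
    simp
  rw [e2]
  have e3 : ∀ a : Ag b d, X (g⁻¹ * a) = X a - (s : R) := by
    intro a
    obtain ⟨i, j, ha⟩ := h.mem_A.1 a.2
    rw [hX a i j ha, hX (g⁻¹ * a) (i - s) (j - t)]
    · push_cast; rfl
    · show (Ie b d s t)⁻¹ * (a : G) = _
      rw [ha, h.I_inv, h.I_mul]
      congr 1 <;> ring
  simp only [e3, sub_mul]
  rw [Finset.sum_sub_distrib, ← Finset.mul_sum, hφ, mul_one]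

theorem local_step (k : Type*) [Field k] [Algebra k R] [FiniteDimensional k R]
    [SMulCommClass G k R] (h3 : (3 : R) = 0) [Finite G] {b c d : G} (h : Loc b c d)
    (hk : ∀ i j : ℤ, Ie b d i j = 1 → (3 : ℤ) ∣ i ∧ (3 : ℤ) ∣ j) (φ : R)
    (hφ : ∑ᶠ a : Ag b d, (a : G) • φ = 1)
    (ih : ∀ m : ℤ, ∀ φ' : R, ∑ᶠ a : Ag (Ie b d 1 (-1)) (Ie b d 1 2), (a : G) • φ' = 1 →
      (1 : R) ∈ Sm R (Kg (Ie b d 1 (-1)) (c * b ^ (-m)))) :
    (1 : R) ∈ Sm R (Kg b c) := by
  classical
  obtain ⟨E, hE⟩ := exists_E h hk h3 φ hφ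
  have hEb : b • E = E - 1 := by
    have := hE 1 0
    rwa [Loc.I_b, zpow_one, Int.cast_one] at this
  have hEd : d • E = E := by
    have := hE 0 1
    simpa [Ie] using this
  have hEm : Ie b d (-1) (-1) • E = E + 1 := by
    have := hE (-1) (-1)
    rw [this]; push_cast; abel
  have r1 : b * c = c * Ie b d (-1) (-1) := by
    rw [h.c_I]; simp [Ie]
  have r2 : Ie b d (-1) (-1) * c = c * d := by
    have : d = Ie b d 0 1 := by simp [Ie]
    rw [this, h.c_I]; simp [Ie]
  have r3 : d * c = c * b := by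
    have : c * b = c * Ie b d 1 0 := by simp [Ie]
    rw [this, h.c_I]; simp [Ie]
  have c3E : c • c • c • E = E := by
    rw [smul_smul, smul_smul]
    have : c * c * c = 1 := by rw [← h.c3, pow_three, mul_assoc]
    rw [this, one_smul]
  obtain ⟨zi, z, hzb, hzd, hz, hsum⟩ := step_ring k h3 b c d E (c • E) (c • c • E) hEb
    (by rw [smul_smul, r1, mul_smul, hEm, smul_add, smul_one])
    (by rw [smul_smul, r1, mul_smul, smul_smul _ c E, r2, mul_smul c d E, hEd])
    hEd
    (by rw [smul_smul, r3, mul_smul, hEb, smul_sub, smul_one])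
    (by rw [smul_smul, r3, mul_smul, smul_smul b c E, r1, mul_smul, hEm, smul_add, smul_add,
          smul_one, smul_one])
    rfl rfl c3E
  rw [← hsum]
  have hziA : ∀ g ∈ Ag b d, g • zi = zi := by
    apply fixed_closure
    rintro x (rfl | rfl)
    · exact hzb
    · exact hzd
  have hrA := h.reps_A_K hk
  haveI : Fintype (Ag b d) := Fintype.ofFinite _
  haveI : Fintype (Ag (Ie b d 1 (-1)) (Ie b d 1 2)) := Fintype.ofFinite _
  refine AddSubgroup.add_mem _ ?_ ?_
  · have h1 : zi + c • zi + c • c • zi = ∑ i : Fin 3, (c ^ (i : ℕ)) • zi := by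
      rw [Fin.sum_univ_three]
      simp [pow_two, smul_smul]
    have h2 : ∑ i : Fin 3, (c ^ (i : ℕ)) • zi
        = ∑ x : Fin 3 × Ag b d, (c ^ (x.1 : ℕ) * (x.2 : G)) • (zi * φ) := by
      rw [Fintype.sum_prod_type]
      refine Finset.sum_congr rfl fun i _ => ?_
      simp only [mul_smul]
      rw [← Finset.smul_sum]
      congr 1
      have : ∀ a : Ag b d, (a : G) • (zi * φ) = zi * ((a : G) • φ) := by
        intro a
        rw [smul_mul', hziA _ a.2]
      simp only [this]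
      rw [← Finset.mul_sum]
      rw [finsum_eq_sum_of_fintype] at hφ
      rw [hφ, mul_one]
    rw [h1, h2]
    exact Sm.tr_one (hrA.trans bot_le h.A_le_K (reps_bot _)) _
  · have key : ∀ m : ℤ, z m + b • z m + b • b • z m ∈ Sm R (Kg b c) := by
      intro m
      have h1 : z m + b • z m + b • b • z m = ∑ i : Fin 3, (b ^ (i : ℕ)) • (z m * 1) := by
        rw [Fin.sum_univ_three]
        simp [pow_two, smul_smul]
      rw [h1]
      refine Sm.tr (h.H_le_K m) (h.reps_H_K hk m) ?_ ?_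
      · apply fixed_closure
        rintro x (rfl | rfl)
        · have : Ie b d 1 (-1) = b * d⁻¹ := by simp [Ie]
          rw [this]; exact (hz m).2
        · exact (hz m).1
      · refine ih m (∑ i : Fin 3, (b ^ (i : ℕ)) • φ) ?_
        rw [finsum_eq_sum_of_fintype]
        have h4 := (h.reps_A'_A hk).sum_eq h.A'_le_A (fun g => g • φ)
        rw [finsum_eq_sum_of_fintype] at hφ
        rw [hφ] at h4
        rw [h4, Finset.sum_comm]
        refine Finset.sum_congr rfl fun a _ => ?_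
        rw [Finset.smul_sum]
        refine Finset.sum_congr rfl fun i _ => ?_
        rw [smul_smul]
        congr 1
        obtain ⟨x, y, hxy⟩ := h.mem_A.1 (h.A'_le_A a.2)
        rw [hxy, ← zpow_natCast, ← Loc.I_b b d, h.I_mul, h.I_mul, add_comm, add_comm y]
    exact AddSubgroup.add_mem _ (AddSubgroup.add_mem _ (key 0) (key 1)) (key (-1))

theorem local_main (k : Type*) [Field k] [Algebra k R] [FiniteDimensional k R]
    [SMulCommClass G k R] (h3 : (3 : R) = 0) [Finite G] (m : ℕ) : ∀ {b c d : G}, Loc b c d →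
    (∀ i j : ℤ, Ie b d i j = 1 ↔ Dv m i j) → ∀ φ : R, ∑ᶠ a : Ag b d, (a : G) • φ = 1 →
    (1 : R) ∈ Sm R (Kg b c) := by
  induction m with
  | zero =>
    intro b c d h hk φ hφ
    apply Sm.one_of_card
    exact h.card_le (fun i j _ => (hk i j).2 trivial)
  | succ m ih =>
    intro b c d h hk φ hφ
    rcases m with _ | m
    · apply Sm.one_of_card
      refine h.card_le (fun i j hij => (hk i j).2 ?_)
      obtain ⟨v, hv⟩ := hij
      exact ⟨i - v, v, by ring, by linarith, trivial⟩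
    · refine local_step k h3 h (fun i j hij => Dv_two ((hk i j).1 hij)) φ hφ ?_
      intro n φ' hφ'
      refine ih (h.next n) ?_ φ' hφ'
      intro i j
      rw [h.I_next, hk, Dv_succ]

end Pool.Agent.W449.PV
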