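import Mathlib
import Pool.Agent.W449.PV.PlaneAct

/-! # The projective plane over a finite field and its collineations -/

namespace Pool.Agent.W449.PV

open scoped LinearAlgebra.Projectivization MatrixGroups Matrix

open Matrix Projectivization

variable (K : Type) [Field K] [Fintype K] [DecidableEq K]

/-- Points and lines: the projective space of `K³`. -/
abbrev PP : Type := ℙ K (Fin 3 → K)

noncomputable instance : Fintype (PP K) := Fintype.ofFinite _

open Configuration in
theorem order_eq : ProjectivePlane.order (PP K) (PP K) = Fintype.card K := by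
  have h1 := ProjectivePlane.card_points (PP K) (PP K)
  have h2 := Projectivization.card_of_finrank K (Fin 3 → K) (n := 3) (by simp)
  rw [Nat.card_eq_fintype_card, h1, Nat.card_eq_fintype_card, Finset.sum_range_succ,
    Finset.sum_range_succ, Finset.sum_range_one] at h2
  set o := ProjectivePlane.order (PP K) (PP K)
  set q := Fintype.card K
  rcases lt_trichotomy o q with h | h | h
  · nlinarith
  · exact h
  · nlinarith

open Configuration in
/-- The projective plane over `K`. -/
noncomputable def pg : Pl (PP K) (PP K) where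
  I p l := orthogonal p l
  q := Fintype.card K
  hq := Fintype.one_lt_card
  line p p' h := ⟨cross p p', orthogonal_cross_left h, orthogonal_cross_right h⟩
  point l l' h := ⟨cross l l', cross_orthogonal_left h, cross_orthogonal_right h⟩
  uniq p p' l l' h1 h2 h3 h4 := ofField.eq_or_eq_of_orthogonal h1 h2 h3 h4
  cL p := by
    classical
    have h := ProjectivePlane.lineCount_eq (P := PP K) (L := PP K) p
    rw [order_eq] at h
    rw [← h, lineCount, Nat.card_eq_fintype_card, Fintype.card_subtype]
    congr
  cP l := by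
    classical
    have h := ProjectivePlane.pointCount_eq (P := PP K) (L := PP K) l
    rw [order_eq] at h
    rw [← h, pointCount, Nat.card_eq_fintype_card, Fintype.card_subtype]
    congr
  cardP := by
    rw [ProjectivePlane.card_points (PP K) (PP K), order_eq]
  cardL := by
    rw [ProjectivePlane.card_points (PP K) (PP K), order_eq]

variable {K}

theorem smul_vec (g : GL (Fin 3) K) (v : Fin 3 → K) :
    g • v = (g : Matrix (Fin 3) (Fin 3) K).mulVec v := rfl

/-- The inverse transpose. -/
def contra : GL (Fin 3) K →* GL (Fin 3) K where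
  toFun g := ⟨((g⁻¹ : GL (Fin 3) K) : Matrix (Fin 3) (Fin 3) K)ᵀ, (g : Matrix (Fin 3) (Fin 3) K)ᵀ,
    by rw [← Matrix.transpose_mul, ← Units.val_mul, mul_inv_cancel, Units.val_one,
      Matrix.transpose_one],
    by rw [← Matrix.transpose_mul, ← Units.val_mul, inv_mul_cancel, Units.val_one,
      Matrix.transpose_one]⟩
  map_one' := by
    apply Units.ext
    simp
  map_mul' g h := by
    apply Units.ext
    show ((((g * h)⁻¹ : GL (Fin 3) K) : Matrix (Fin 3) (Fin 3) K))ᵀ = _
    rw [_root_.mul_inv_rev, Units.val_mul, Matrix.transpose_mul]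
    rfl

theorem contra_val (g : GL (Fin 3) K) : (contra g : Matrix (Fin 3) (Fin 3) K)
    = ((g⁻¹ : GL (Fin 3) K) : Matrix (Fin 3) (Fin 3) K)ᵀ := rfl

/-- Action on points. -/
noncomputable def sig : PGL(Fin 3, K) →* Equiv.Perm (PP K) := MulAction.toPermHom _ _

theorem scalar_smul (u : Kˣ) (p : PP K) : GeneralLinearGroup.scalar (Fin 3) u • p = p := by
  induction p using Projectivization.ind with
  | h v hv =>
    rw [smul_mk, mk_eq_mk_iff]
    exact ⟨u, by simp [Units.smul_def]⟩

theorem contra_scalar (u : Kˣ) : contra (GeneralLinearGroup.scalar (Fin 3) u)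
    = GeneralLinearGroup.scalar (Fin 3) u⁻¹ := by
  apply Units.ext
  rw [contra_val, ← map_inv, GeneralLinearGroup.coe_scalar]
  ext i j
  simp [Matrix.diagonal_apply, eq_comm]

/-- Action on lines. -/
noncomputable def tau : PGL(Fin 3, K) →* Equiv.Perm (PP K) :=
  ProjGenLinGroup.lift ((MulAction.toPermHom (GL (Fin 3) K) (PP K)).comp contra) (by
    ext u p
    show contra (GeneralLinearGroup.scalar (Fin 3) u) • p = p
    rw [contra_scalar, scalar_smul])

theorem sig_mk (g : GL (Fin 3) K) {v : Fin 3 → K} (hv : v ≠ 0)
    (hv' : (g : Matrix (Fin 3) (Fin 3) K).mulVec v ≠ 0) :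
    sig (ProjGenLinGroup.mk g) (mk K v hv) = mk K ((g : Matrix (Fin 3) (Fin 3) K).mulVec v) hv' :=
  rfl

theorem tau_mk (g : GL (Fin 3) K) {v : Fin 3 → K} (hv : v ≠ 0)
    (hv' : (contra g : Matrix (Fin 3) (Fin 3) K).mulVec v ≠ 0) :
    tau (ProjGenLinGroup.mk g) (mk K v hv)
      = mk K ((contra g : Matrix (Fin 3) (Fin 3) K).mulVec v) hv' :=
  rfl

theorem mulVec_ne (g : GL (Fin 3) K) {v : Fin 3 → K} (hv : v ≠ 0) :
    (g : Matrix (Fin 3) (Fin 3) K).mulVec v ≠ 0 := by
  rw [← smul_vec]
  exact (smul_ne_zero_iff_ne g).2 hv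

theorem dot_act (g : GL (Fin 3) K) (v w : Fin 3 → K) :
    (g : Matrix (Fin 3) (Fin 3) K).mulVec v ⬝ᵥ (contra g : Matrix (Fin 3) (Fin 3) K).mulVec w
      = v ⬝ᵥ w := by
  rw [contra_val, Matrix.dotProduct_mulVec, Matrix.vecMul_transpose, Matrix.mulVec_mulVec,
    ← Units.val_mul, inv_mul_cancel, Units.val_one, Matrix.one_mulVec]

/-- The action of `PGL₃(K)` on the projective plane. -/
noncomputable def pgAct : Act PGL(Fin 3, K) (pg K) where
  σ := sig
  τ := tau
  inc g p l := by
    induction g using ProjGenLinGroup.induction_on with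
    | mk g =>
      induction p using Projectivization.ind with
      | h v hv =>
        induction l using Projectivization.ind with
        | h w hw =>
          rw [sig_mk g hv (mulVec_ne g hv), tau_mk g hw (mulVec_ne (contra g) hw)]
          refine Iff.trans (orthogonal_mk (F := K) (mulVec_ne g hv) (mulVec_ne (contra g) hw)) ?_
          rw [dot_act]
          exact (orthogonal_mk (F := K) hv hw).symm

end Pool.Agent.W449.PV
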