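import Mathlib
import Pool.Agent.W449.PV.PG

/-! # Explicit collineations -/

namespace Pool.Agent.W449.PV

open scoped LinearAlgebra.Projectivization MatrixGroups Matrix

open Matrix Projectivization

variable {K : Type} [Field K]

/-- Elementary matrices. -/
def u02 (x : K) : GL (Fin 3) K where
  val := !![1, 0, x; 0, 1, 0; 0, 0, 1]
  inv := !![1, 0, -x; 0, 1, 0; 0, 0, 1]
  val_inv := by
    ext i j; fin_cases i <;> fin_cases j <;> simp [Matrix.mul_apply, Fin.sum_univ_three]
  inv_val := by
    ext i j; fin_cases i <;> fin_cases j <;> simp [Matrix.mul_apply, Fin.sum_univ_three]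

/-- Elementary matrices. -/
def u12 (x : K) : GL (Fin 3) K where
  val := !![1, 0, 0; 0, 1, x; 0, 0, 1]
  inv := !![1, 0, 0; 0, 1, -x; 0, 0, 1]
  val_inv := by
    ext i j; fin_cases i <;> fin_cases j <;> simp [Matrix.mul_apply, Fin.sum_univ_three]
  inv_val := by
    ext i j; fin_cases i <;> fin_cases j <;> simp [Matrix.mul_apply, Fin.sum_univ_three]

/-- Elementary matrices. -/
def u01 (x : K) : GL (Fin 3) K where
  val := !![1, x, 0; 0, 1, 0; 0, 0, 1]
  inv := !![1, -x, 0; 0, 1, 0; 0, 0, 1]
  val_inv := by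
    ext i j; fin_cases i <;> fin_cases j <;> simp [Matrix.mul_apply, Fin.sum_univ_three]
  inv_val := by
    ext i j; fin_cases i <;> fin_cases j <;> simp [Matrix.mul_apply, Fin.sum_univ_three]

/-- Elementary matrices. -/
def u10 (x : K) : GL (Fin 3) K where
  val := !![1, 0, 0; x, 1, 0; 0, 0, 1]
  inv := !![1, 0, 0; -x, 1, 0; 0, 0, 1]
  val_inv := by
    ext i j; fin_cases i <;> fin_cases j <;> simp [Matrix.mul_apply, Fin.sum_univ_three]
  inv_val := by
    ext i j; fin_cases i <;> fin_cases j <;> simp [Matrix.mul_apply, Fin.sum_univ_three]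

/-- Diagonal matrices. -/
def dg (s t : Kˣ) : GL (Fin 3) K where
  val := !![(s : K), 0, 0; 0, (t : K), 0; 0, 0, 1]
  inv := !![((s⁻¹ : Kˣ) : K), 0, 0; 0, ((t⁻¹ : Kˣ) : K), 0; 0, 0, 1]
  val_inv := by
    ext i j; fin_cases i <;> fin_cases j <;> simp [Matrix.mul_apply, Fin.sum_univ_three]
  inv_val := by
    ext i j; fin_cases i <;> fin_cases j <;> simp [Matrix.mul_apply, Fin.sum_univ_three]

/-- The cyclic permutation matrix. -/
def cy : GL (Fin 3) K where
  val := !![0, 0, 1; 1, 0, 0; 0, 1, 0]
  inv := !![0, 1, 0; 0, 0, 1; 1, 0, 0]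
  val_inv := by
    ext i j; fin_cases i <;> fin_cases j <;> simp [Matrix.mul_apply, Fin.sum_univ_three]
  inv_val := by
    ext i j; fin_cases i <;> fin_cases j <;> simp [Matrix.mul_apply, Fin.sum_univ_three]

theorem u02_add (x y : K) : u02 (x + y) = u02 x * u02 y := by
  apply Units.ext
  simp only [u02, Units.val_mul]
  ext i j; fin_cases i <;> fin_cases j <;> simp [Matrix.mul_apply, Fin.sum_univ_three, add_comm]

theorem u12_add (x y : K) : u12 (x + y) = u12 x * u12 y := by
  apply Units.ext
  simp only [u12, Units.val_mul]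
  ext i j; fin_cases i <;> fin_cases j <;> simp [Matrix.mul_apply, Fin.sum_univ_three, add_comm]

theorem u01_add (x y : K) : u01 (x + y) = u01 x * u01 y := by
  apply Units.ext
  simp only [u01, Units.val_mul]
  ext i j; fin_cases i <;> fin_cases j <;> simp [Matrix.mul_apply, Fin.sum_univ_three, add_comm]

theorem u10_add (x y : K) : u10 (x + y) = u10 x * u10 y := by
  apply Units.ext
  simp only [u10, Units.val_mul]
  ext i j; fin_cases i <;> fin_cases j <;> simp [Matrix.mul_apply, Fin.sum_univ_three, add_comm]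

theorem comm_02_12 (x y : K) : u02 x * u12 y = u12 y * u02 x := by
  apply Units.ext
  simp only [u02, u12, Units.val_mul]
  ext i j; fin_cases i <;> fin_cases j <;> simp [Matrix.mul_apply, Fin.sum_univ_three]

theorem comm_01_02 (x y : K) : u01 x * u02 y = u02 y * u01 x := by
  apply Units.ext
  simp only [u02, u01, Units.val_mul]
  ext i j; fin_cases i <;> fin_cases j <;> simp [Matrix.mul_apply, Fin.sum_univ_three]

theorem comm_10_12 (x y : K) : u10 x * u12 y = u12 y * u10 x := by
  apply Units.ext
  simp only [u10, u12, Units.val_mul]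
  ext i j; fin_cases i <;> fin_cases j <;> simp [Matrix.mul_apply, Fin.sum_univ_three]

theorem dg_mul (s t s' t' : Kˣ) : dg s t * dg s' t' = dg (s * s') (t * t') := by
  apply Units.ext
  simp only [dg, Units.val_mul]
  ext i j; fin_cases i <;> fin_cases j <;> simp [Matrix.mul_apply, Fin.sum_univ_three]

theorem dg_one : dg (1 : Kˣ) 1 = 1 := by
  apply Units.ext
  simp only [dg]
  ext i j; fin_cases i <;> fin_cases j <;> simp

theorem dg_02 (s t : Kˣ) (x : K) : dg s t * u02 x = u02 (s * x) * dg s t := by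
  apply Units.ext
  simp only [dg, u02, Units.val_mul]
  ext i j; fin_cases i <;> fin_cases j <;> simp [Matrix.mul_apply, Fin.sum_univ_three]

theorem dg_12 (s t : Kˣ) (x : K) : dg s t * u12 x = u12 (t * x) * dg s t := by
  apply Units.ext
  simp only [dg, u12, Units.val_mul]
  ext i j; fin_cases i <;> fin_cases j <;> simp [Matrix.mul_apply, Fin.sum_univ_three]

theorem dg_01 (s t : Kˣ) (x : K) : dg s t * u01 x = u01 ((s * t⁻¹ : Kˣ) * x) * dg s t := by
  apply Units.ext
  simp only [dg, u01, Units.val_mul]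
  ext i j; fin_cases i <;> fin_cases j <;> simp [Matrix.mul_apply, Fin.sum_univ_three]
  field_simp

theorem dg_10 (s t : Kˣ) (x : K) : dg s t * u10 x = u10 ((t * s⁻¹ : Kˣ) * x) * dg s t := by
  apply Units.ext
  simp only [dg, u10, Units.val_mul]
  ext i j; fin_cases i <;> fin_cases j <;> simp [Matrix.mul_apply, Fin.sum_univ_three]
  field_simp

theorem cy_cube : (cy : GL (Fin 3) K) ^ 3 = 1 := by
  apply Units.ext
  rw [pow_three]
  simp only [cy, Units.val_mul]
  ext i j; fin_cases i <;> fin_cases j <;> simp [Matrix.mul_apply, Fin.sum_univ_three]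

theorem cy_dg (s t : Kˣ) : cy * dg s t = dg t⁻¹ (s * t⁻¹) * cy * GeneralLinearGroup.scalar (Fin 3) t := by
  apply Units.ext
  rw [Units.val_mul, Units.val_mul, Units.val_mul, GeneralLinearGroup.coe_scalar]
  simp only [cy, dg]
  ext i j; fin_cases i <;> fin_cases j <;>
    simp [Matrix.mul_apply, Fin.sum_univ_three, Matrix.diagonal_apply]

/-- The base point. -/
def pt0 (K : Type) [Field K] : PP K := mk K ![1, 0, 0] (by simp)

/-- The second point. -/
def pt1 (K : Type) [Field K] : PP K := mk K ![0, 1, 0] (by simp)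

/-- The base line (as a covector). -/
def ln0 (K : Type) [Field K] : PP K := mk K ![0, 0, 1] (by simp)

end Pool.Agent.W449.PV
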