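import Mathlib
import Pool.Agent.W449.PV.PG2

/-! # Transitivity facts -/

namespace Pool.Agent.W449.PV

open scoped LinearAlgebra.Projectivization MatrixGroups Matrix

open Matrix Projectivization

variable {K : Type} [Field K] [Fintype K] [DecidableEq K]

theorem mk_congr {a b : Fin 3 → K} (ha : a ≠ 0) (hb : b ≠ 0) (h : a = b) :
    mk K a ha = mk K b hb := by
  subst h; rfl

theorem I_ln0 {v : Fin 3 → K} (hv : v ≠ 0) : (pg K).I (mk K v hv) (ln0 K) ↔ v 2 = 0 := by
  show orthogonal (mk K v hv) (ln0 K) ↔ v 2 = 0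
  unfold ln0
  rw [orthogonal_mk]
  simp [dotProduct, Fin.sum_univ_three]

theorem I_pt0 {v : Fin 3 → K} (hv : v ≠ 0) : (pg K).I (pt0 K) (mk K v hv) ↔ v 0 = 0 := by
  show orthogonal (pt0 K) (mk K v hv) ↔ v 0 = 0
  unfold pt0
  rw [orthogonal_mk]
  simp [dotProduct, Fin.sum_univ_three]

theorem I_pt1 {v : Fin 3 → K} (hv : v ≠ 0) : (pg K).I (pt1 K) (mk K v hv) ↔ v 1 = 0 := by
  show orthogonal (pt1 K) (mk K v hv) ↔ v 1 = 0
  unfold pt1
  rw [orthogonal_mk]
  simp [dotProduct, Fin.sum_univ_three]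

theorem V2_val (x y : K) : ((u02 x * u12 y : GL (Fin 3) K) : Matrix (Fin 3) (Fin 3) K)
    = !![1, 0, x; 0, 1, y; 0, 0, 1] := by
  simp only [u02, u12, Units.val_mul]
  ext i j; fin_cases i <;> fin_cases j <;> simp [Matrix.mul_apply, Fin.sum_univ_three]

theorem V2_contra (x y : K) : ((contra (u02 x * u12 y) : GL (Fin 3) K) : Matrix (Fin 3) (Fin 3) K)
    = !![1, 0, 0; 0, 1, 0; -x, -y, 1] := by
  rw [map_mul, Units.val_mul, contra_val, contra_val]
  simp only [u02, u12, Units.inv_mk]
  ext i j; fin_cases i <;> fin_cases j <;> simp [Matrix.mul_apply, Fin.sum_univ_three]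

theorem V1_contra (x y : K) : ((contra (u01 x * u02 y) : GL (Fin 3) K) : Matrix (Fin 3) (Fin 3) K)
    = !![1, 0, 0; -x, 1, 0; -y, 0, 1] := by
  rw [map_mul, Units.val_mul, contra_val, contra_val]
  simp only [u02, u01, Units.inv_mk]
  ext i j; fin_cases i <;> fin_cases j <;> simp [Matrix.mul_apply, Fin.sum_univ_three]

theorem V1'_contra (x y : K) : ((contra (u10 x * u12 y) : GL (Fin 3) K) : Matrix (Fin 3) (Fin 3) K)
    = !![1, -x, 0; 0, 1, 0; 0, -y, 1] := by
  rw [map_mul, Units.val_mul, contra_val, contra_val]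
  simp only [u10, u12, Units.inv_mk]
  ext i j; fin_cases i <;> fin_cases j <;> simp [Matrix.mul_apply, Fin.sum_univ_three]

theorem U_contra (x : K) : ((contra (u01 x) : GL (Fin 3) K) : Matrix (Fin 3) (Fin 3) K)
    = !![1, 0, 0; -x, 1, 0; 0, 0, 1] := by
  rw [contra_val]
  simp only [u01, Units.inv_mk]
  ext i j; fin_cases i <;> fin_cases j <;> simp

theorem V2_fix (x y : K) (z : PP K) (hz : (pg K).I z (ln0 K)) :
    sig (ProjGenLinGroup.mk (u02 x * u12 y)) z = z := by
  induction z using Projectivization.ind with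
  | h v hv =>
    rw [I_ln0] at hz
    rw [sig_mk _ hv (mulVec_ne _ hv)]
    apply mk_congr
    rw [V2_val]
    funext i
    fin_cases i <;> simp [mulVec, dotProduct, Fin.sum_univ_three, hz]

theorem V2_tr (p p' : PP K) (hp : ¬ (pg K).I p (ln0 K)) (hp' : ¬ (pg K).I p' (ln0 K)) :
    ∃ x y : K, sig (ProjGenLinGroup.mk (u02 x * u12 y)) p = p' := by
  induction p using Projectivization.ind with
  | h v hv =>
    induction p' using Projectivization.ind with
    | h w hw =>
      rw [I_ln0] at hp hp'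
      refine ⟨w 0 / w 2 - v 0 / v 2, w 1 / w 2 - v 1 / v 2, ?_⟩
      rw [sig_mk _ hv (mulVec_ne _ hv), mk_eq_mk_iff']
      refine ⟨v 2 / w 2, ?_⟩
      rw [V2_val]
      funext i
      fin_cases i <;> simp [mulVec, dotProduct, Fin.sum_univ_three] <;> field_simp <;> ring

theorem V2_ln (x y : K) : tau (ProjGenLinGroup.mk (u02 x * u12 y)) (ln0 K) = ln0 K := by
  unfold ln0
  rw [tau_mk _ _ (mulVec_ne _ (by simp))]
  apply mk_congr
  rw [V2_contra]
  funext i
  fin_cases i <;> simp [mulVec, dotProduct, Fin.sum_univ_three]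

theorem U_pt (x : K) : sig (ProjGenLinGroup.mk (u01 x)) (pt0 K) = pt0 K := by
  unfold pt0
  rw [sig_mk _ _ (mulVec_ne _ (by simp))]
  apply mk_congr
  simp only [u01]
  funext i
  fin_cases i <;> simp [mulVec, dotProduct, Fin.sum_univ_three]

theorem U_ln (x : K) : tau (ProjGenLinGroup.mk (u01 x)) (ln0 K) = ln0 K := by
  unfold ln0
  rw [tau_mk _ _ (mulVec_ne _ (by simp))]
  apply mk_congr
  rw [U_contra]
  funext i
  fin_cases i <;> simp [mulVec, dotProduct, Fin.sum_univ_three]

theorem ne_pt0 {v : Fin 3 → K} (hv : v ≠ 0) (h2 : v 2 = 0) (h : mk K v hv ≠ pt0 K) : v 1 ≠ 0 := by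
  intro h1
  apply h
  unfold pt0
  rw [mk_eq_mk_iff']
  refine ⟨v 0, ?_⟩
  funext i
  fin_cases i <;> simp [h1, h2]

theorem U_tr (p p' : PP K) (hp : (pg K).I p (ln0 K)) (hp' : (pg K).I p' (ln0 K))
    (hne : p ≠ pt0 K) (hne' : p' ≠ pt0 K) :
    ∃ x : K, sig (ProjGenLinGroup.mk (u01 x)) p = p' := by
  induction p using Projectivization.ind with
  | h v hv =>
    induction p' using Projectivization.ind with
    | h w hw =>
      rw [I_ln0] at hp hp'
      have h1 := ne_pt0 hv hp hne
      have h2 := ne_pt0 hw hp' hne'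
      refine ⟨w 0 / w 1 - v 0 / v 1, ?_⟩
      rw [sig_mk _ hv (mulVec_ne _ hv), mk_eq_mk_iff']
      refine ⟨v 1 / w 1, ?_⟩
      simp only [u01]
      funext i
      fin_cases i
      · simp [mulVec, dotProduct, Fin.sum_univ_three]
        field_simp
        ring
      · simp [mulVec, dotProduct, Fin.sum_univ_three]
        field_simp
      · simp [mulVec, dotProduct, Fin.sum_univ_three, hp, hp']

theorem V1_fix (x y : K) (l : PP K) (hl : (pg K).I (pt0 K) l) :
    tau (ProjGenLinGroup.mk (u01 x * u02 y)) l = l := by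
  induction l using Projectivization.ind with
  | h v hv =>
    rw [I_pt0] at hl
    rw [tau_mk _ hv (mulVec_ne _ hv)]
    apply mk_congr
    rw [V1_contra]
    funext i
    fin_cases i <;> simp [mulVec, dotProduct, Fin.sum_univ_three, hl]

theorem V1_tr (l l' : PP K) (hl : ¬ (pg K).I (pt0 K) l) (hl' : ¬ (pg K).I (pt0 K) l') :
    ∃ x y : K, tau (ProjGenLinGroup.mk (u01 x * u02 y)) l = l' := by
  induction l using Projectivization.ind with
  | h v hv =>
    induction l' using Projectivization.ind with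
    | h w hw =>
      rw [I_pt0] at hl hl'
      refine ⟨v 1 / v 0 - w 1 / w 0, v 2 / v 0 - w 2 / w 0, ?_⟩
      rw [tau_mk _ hv (mulVec_ne _ hv), mk_eq_mk_iff']
      refine ⟨v 0 / w 0, ?_⟩
      rw [V1_contra]
      funext i
      fin_cases i <;> simp [mulVec, dotProduct, Fin.sum_univ_three] <;> field_simp <;> ring

theorem V1'_fix (x y : K) (l : PP K) (hl : (pg K).I (pt1 K) l) :
    tau (ProjGenLinGroup.mk (u10 x * u12 y)) l = l := by
  induction l using Projectivization.ind with
  | h v hv =>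
    rw [I_pt1] at hl
    rw [tau_mk _ hv (mulVec_ne _ hv)]
    apply mk_congr
    rw [V1'_contra]
    funext i
    fin_cases i <;> simp [mulVec, dotProduct, Fin.sum_univ_three, hl]

theorem V1'_tr (l l' : PP K) (hl : ¬ (pg K).I (pt1 K) l) (hl' : ¬ (pg K).I (pt1 K) l') :
    ∃ x y : K, tau (ProjGenLinGroup.mk (u10 x * u12 y)) l = l' := by
  induction l using Projectivization.ind with
  | h v hv =>
    induction l' using Projectivization.ind with
    | h w hw =>
      rw [I_pt1] at hl hl'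
      refine ⟨v 0 / v 1 - w 0 / w 1, v 2 / v 1 - w 2 / w 1, ?_⟩
      rw [tau_mk _ hv (mulVec_ne _ hv), mk_eq_mk_iff']
      refine ⟨v 1 / w 1, ?_⟩
      rw [V1'_contra]
      funext i
      fin_cases i <;> simp [mulVec, dotProduct, Fin.sum_univ_three] <;> field_simp <;> ring

theorem exists_other (p l : PP K) : ∃ p', p' ≠ p ∧ (pg K).I p' l := by
  classical
  by_contra hcon
  push Not at hcon
  have h1 := (pg K).cP l
  have h2 : (Finset.univ.filter (fun p' => (pg K).I p' l)) ⊆ {p} := by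
    intro x hx
    rw [Finset.mem_filter] at hx
    rw [Finset.mem_singleton]
    by_contra hxp
    exact hcon x hxp hx.2
  have h4 := Finset.card_le_card h2
  rw [Finset.card_singleton] at h4
  have h5 : (Finset.univ.filter (fun p' => (pg K).I p' l)).card = (pg K).q + 1 := by convert h1
  have := (pg K).hq
  omega

theorem flag_tr (p l : PP K) (hpl : (pg K).I p l) :
    ∃ g : PGL(Fin 3, K), sig g (pt0 K) = p ∧ tau g (ln0 K) = l := by
  obtain ⟨p', hne, hp'⟩ := exists_other p l
  have h01 : pt0 K ≠ pt1 K := by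
    unfold pt0 pt1
    rw [ne_eq, mk_eq_mk_iff']
    rintro ⟨c, hc⟩
    have := congrFun hc 0
    simp at this
  have h2t := MulAction.is_two_pretransitive_iff.1
    (inferInstance : MulAction.IsMultiplyPretransitive (Matrix.SpecialLinearGroup (Fin 3) K)
      (PP K) 2) h01 hne.symm
  obtain ⟨g, hg0, hg1⟩ := h2t
  refine ⟨ProjGenLinGroup.mk (Matrix.SpecialLinearGroup.toGL g), ?_, ?_⟩
  · exact hg0
  · have hs0 : sig (ProjGenLinGroup.mk (Matrix.SpecialLinearGroup.toGL g)) (pt0 K) = p := hg0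
    have hs1 : sig (ProjGenLinGroup.mk (Matrix.SpecialLinearGroup.toGL g)) (pt1 K) = p' := hg1
    have i0 : (pg K).I (pt0 K) (ln0 K) := by
      unfold pt0; rw [I_ln0]; simp
    have i1 : (pg K).I (pt1 K) (ln0 K) := by
      unfold pt1; rw [I_ln0]; simp
    have j0 := (pgAct.inc (ProjGenLinGroup.mk (Matrix.SpecialLinearGroup.toGL g)) _ _).2 i0
    have j1 := (pgAct.inc (ProjGenLinGroup.mk (Matrix.SpecialLinearGroup.toGL g)) _ _).2 i1
    have j0' : (pg K).I p (tau (ProjGenLinGroup.mk (Matrix.SpecialLinearGroup.toGL g)) (ln0 K)) := by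
      rw [← hs0]; exact j0
    have j1' : (pg K).I p' (tau (ProjGenLinGroup.mk (Matrix.SpecialLinearGroup.toGL g)) (ln0 K)) := by
      rw [← hs1]; exact j1
    rcases (pg K).uniq p p' _ l j0' j1' hpl hp' with h | h
    · exact absurd h.symm hne
    · exact h

end Pool.Agent.W449.PV
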