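import Mathlib
import Pool.Agent.W449.PV.PG3
import Pool.Agent.W449.PV.Grp2

/-! # Orders -/

namespace Pool.Agent.W449.PV

open scoped LinearAlgebra.Projectivization MatrixGroups Matrix

open Matrix Projectivization

theorem four_pow (n : ℕ) : ∃ s : ℕ, 4 ^ (3 ^ n) = 1 + 3 ^ (n + 1) * s ∧ ¬ 3 ∣ s := by
  induction n with
  | zero => exact ⟨1, by norm_num, by norm_num⟩
  | succ n ih =>
    obtain ⟨s, hs, h3⟩ := ih
    refine ⟨s + 3 ^ (n + 1) * s ^ 2 + 3 ^ (2 * n + 1) * s ^ 3, ?_, ?_⟩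
    · rw [pow_succ 3 n, pow_mul, hs]
      ring
    · intro h
      apply h3
      have h1 : 3 ∣ 3 ^ (n + 1) * s ^ 2 := Dvd.dvd.mul_right (dvd_pow_self 3 (by omega)) _
      have h2 : 3 ∣ 3 ^ (2 * n + 1) * s ^ 3 := Dvd.dvd.mul_right (dvd_pow_self 3 (by omega)) _
      have h4 := (Nat.dvd_add_left h2).1 h
      exact (Nat.dvd_add_left h1).1 h4

variable (K : Type) [Field K] [Fintype K] [DecidableEq K]

theorem card_center : Nat.card (Subgroup.center (GL (Fin 3) K)) = Fintype.card K - 1 := by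
  rw [GeneralLinearGroup.center_eq_range_scalar]
  have hinj : Function.Injective (GeneralLinearGroup.scalar (Fin 3) : Kˣ →* GL (Fin 3) K) := by
    intro u v h
    have h1 := congrArg (fun g : GL (Fin 3) K => (g : Matrix (Fin 3) (Fin 3) K) 0 0) h
    simp only [GeneralLinearGroup.coe_scalar] at h1
    apply Units.ext
    simpa using h1
  rw [Nat.card_congr (MonoidHom.ofInjective hinj).toEquiv.symm, Nat.card_eq_fintype_card,
    Fintype.card_units]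

theorem card_PGL : Nat.card PGL(Fin 3, K) * (Fintype.card K - 1)
    = (Fintype.card K ^ 3 - 1) * (Fintype.card K ^ 3 - Fintype.card K) *
      (Fintype.card K ^ 3 - Fintype.card K ^ 2) := by
  have h1 := Subgroup.card_eq_card_quotient_mul_card_subgroup (Subgroup.center (GL (Fin 3) K))
  rw [card_center, Matrix.card_GL_field, Fin.prod_univ_three] at h1
  rw [show Nat.card PGL(Fin 3, K) = Nat.card (GL (Fin 3) K ⧸ Subgroup.center (GL (Fin 3) K)) from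
    rfl, ← h1]
  simp

theorem card_PGL' {n s : ℕ} (hq : Fintype.card K = 1 + 3 ^ (n + 1) * s) (hs : ¬ 3 ∣ s) :
    ∃ m, Nat.card PGL(Fin 3, K) = 3 ^ (2 * (n + 1) + 1) * m ∧ ¬ 3 ∣ m := by
  have h1 := card_PGL K
  set q := Fintype.card K with hqdef
  set N := Nat.card PGL(Fin 3, K) with hN
  set t := 3 ^ (n + 1) * s with ht
  have hs0 : 0 < s := by
    rcases Nat.eq_zero_or_pos s with h | h
    · exact absurd (h ▸ dvd_zero 3) hs
    · exact h
  have ht0 : 0 < t := by positivity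
  have e1 : q - 1 = t := by omega
  have e2 : q ^ 3 - 1 = t * (3 + 3 * t + t ^ 2) := by
    rw [hq]
    have : (1 + t) ^ 3 = t * (3 + 3 * t + t ^ 2) + 1 := by ring
    omega
  have e3 : q ^ 3 - q = t * (q * (q + 1)) := by
    have : q ^ 3 = t * (q * (q + 1)) + q := by rw [hq]; ring
    omega
  have e4 : q ^ 3 - q ^ 2 = t * q ^ 2 := by
    have : q ^ 3 = t * q ^ 2 + q ^ 2 := by rw [hq]; ring
    omega
  rw [e1, e2, e3, e4] at h1
  have h2 : N = t ^ 2 * (q ^ 3 * (q + 1)) * (3 + 3 * t + t ^ 2) := by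
    apply Nat.eq_of_mul_eq_mul_right ht0
    rw [h1]; ring
  refine ⟨s ^ 2 * (q ^ 3 * (q + 1)) * (1 + 3 ^ (n + 1) * s + 3 ^ (2 * n + 1) * s ^ 2), ?_, ?_⟩
  · rw [h2, ht]
    ring
  · have p3 := Nat.prime_three
    intro h
    have hq3 : ¬ 3 ∣ q := by
      intro h5
      have h4 : 3 ∣ t := Dvd.dvd.mul_right (dvd_pow_self 3 (by omega)) _
      omega
    have hq31 : ¬ 3 ∣ q + 1 := by
      intro h5
      have h4 : 3 ∣ t := Dvd.dvd.mul_right (dvd_pow_self 3 (by omega)) _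
      omega
    rcases (p3.dvd_mul).1 h with h | h
    · rcases (p3.dvd_mul).1 h with h | h
      · exact hs (p3.dvd_of_dvd_pow h)
      · rcases (p3.dvd_mul).1 h with h | h
        · exact hq3 (p3.dvd_of_dvd_pow h)
        · exact hq31 h
    · have h5 : 3 ∣ 3 ^ (n + 1) * s := Dvd.dvd.mul_right (dvd_pow_self 3 (by omega)) _
      have h6 : 3 ∣ 3 ^ (2 * n + 1) * s ^ 2 := Dvd.dvd.mul_right (dvd_pow_self 3 (by omega)) _
      omega

variable {K}

theorem mk_dg_eq_one {s t : Kˣ} (h : (ProjGenLinGroup.mk (dg s t) : PGL(Fin 3, K)) = 1) :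
    s = 1 ∧ t = 1 := by
  rw [ProjGenLinGroup.mk_eq_one, GeneralLinearGroup.center_eq_range_scalar] at h
  obtain ⟨u, hu⟩ := h
  have h2 := congrArg (fun g : GL (Fin 3) K => (g : Matrix (Fin 3) (Fin 3) K) 2 2) hu
  have h0 := congrArg (fun g : GL (Fin 3) K => (g : Matrix (Fin 3) (Fin 3) K) 0 0) hu
  have h1 := congrArg (fun g : GL (Fin 3) K => (g : Matrix (Fin 3) (Fin 3) K) 1 1) hu
  simp only [GeneralLinearGroup.coe_scalar, dg] at h0 h1 h2
  have h2' : (u : K) = 1 := by simpa using h2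
  have h0' : (u : K) = s := by simpa using h0
  have h1' : (u : K) = t := by simpa using h1
  constructor
  · apply Units.ext; rw [← h0', h2', Units.val_one]
  · apply Units.ext; rw [← h1', h2', Units.val_one]

/-- The diagonal torus. -/
def dl : Kˣ × Kˣ →* PGL(Fin 3, K) where
  toFun s := ProjGenLinGroup.mk (dg s.1 s.2)
  map_one' := by
    show ProjGenLinGroup.mk (dg 1 1) = 1
    rw [dg_one, map_one]
  map_mul' s t := by
    rw [← map_mul, dg_mul]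
    rfl

theorem dl_inj : Function.Injective (dl : Kˣ × Kˣ →* PGL(Fin 3, K)) := by
  rw [injective_iff_map_eq_one]
  rintro ⟨s, t⟩ h
  obtain ⟨h1, h2⟩ := mk_dg_eq_one h
  exact Prod.ext h1 h2

theorem mk_scalar' (t : Kˣ) :
    (ProjGenLinGroup.mk (GeneralLinearGroup.scalar (Fin 3) t) : PGL(Fin 3, K)) = 1 :=
  ProjGenLinGroup.mk_scalar t

theorem cy_conj (s t : Kˣ) : (ProjGenLinGroup.mk cy : PGL(Fin 3, K)) * dl (s, t)
    * (ProjGenLinGroup.mk cy)⁻¹ = dl (t⁻¹, s * t⁻¹) := by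
  rw [mul_inv_eq_iff_eq_mul]
  show ProjGenLinGroup.mk cy * ProjGenLinGroup.mk (dg s t)
    = ProjGenLinGroup.mk (dg t⁻¹ (s * t⁻¹)) * ProjGenLinGroup.mk cy
  rw [← map_mul, cy_dg, map_mul, map_mul, mk_scalar', mul_one]

theorem loc_pgl (ζ : Kˣ) : Loc (dl (ζ, 1) : PGL(Fin 3, K)) (ProjGenLinGroup.mk cy) (dl (1, ζ)) where
  c3 := by rw [← map_pow, cy_cube, map_one]
  hd := by
    rw [cy_conj]; simp
  hbd := by
    show _ * _ = _ * _
    rw [← map_mul, ← map_mul, mul_comm]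
  hcd := by
    rw [cy_conj, ← map_inv, ← map_inv, ← map_mul]; simp

theorem Ie_dl (ζ : Kˣ) (i j : ℤ) : Ie (dl (ζ, 1) : PGL(Fin 3, K)) (dl (1, ζ)) i j
    = dl (ζ ^ i, ζ ^ j) := by
  unfold Ie
  rw [← map_zpow, ← map_zpow, ← map_mul]
  congr 1
  ext <;> simp

theorem Ie_eq_one_iff {ζ : Kˣ} {a : ℕ} (hζ : orderOf ζ = 3 ^ a) (i j : ℤ) :
    Ie (dl (ζ, 1) : PGL(Fin 3, K)) (dl (1, ζ)) i j = 1 ↔ Dv (2 * a) i j := by
  rw [Ie_dl, Dv_even, ← map_one dl, dl_inj.eq_iff, Prod.mk_eq_one, ← orderOf_dvd_iff_zpow_eq_one,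
    ← orderOf_dvd_iff_zpow_eq_one, hζ]
  push_cast
  rfl

theorem Ag_eq (ζ : Kˣ) : Ag (dl (ζ, 1) : PGL(Fin 3, K)) (dl (1, ζ))
    = ((Subgroup.zpowers ζ).prod (Subgroup.zpowers ζ)).map dl := by
  ext g
  rw [(loc_pgl ζ).mem_A, Subgroup.mem_map]
  constructor
  · rintro ⟨i, j, rfl⟩
    refine ⟨(ζ ^ i, ζ ^ j), ?_, (Ie_dl ζ i j).symm⟩
    rw [Subgroup.mem_prod]
    exact ⟨⟨i, rfl⟩, ⟨j, rfl⟩⟩
  · rintro ⟨⟨s, t⟩, hst, rfl⟩
    rw [Subgroup.mem_prod] at hst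
    obtain ⟨⟨i, hi⟩, ⟨j, hj⟩⟩ := hst
    refine ⟨i, j, ?_⟩
    rw [Ie_dl]
    simp only at hi hj
    rw [hi, hj]

theorem card_Ag {ζ : Kˣ} {a : ℕ} (hζ : orderOf ζ = 3 ^ a) :
    Nat.card (Ag (dl (ζ, 1) : PGL(Fin 3, K)) (dl (1, ζ))) = 3 ^ (2 * a) := by
  rw [Ag_eq, Subgroup.card_map_of_injective dl_inj,
    Nat.card_congr (Subgroup.prodEquiv _ _).toEquiv, Nat.card_prod, Nat.card_zpowers, hζ]
  ring

theorem Reps.card_eq {G : Type} [Group G] [Finite G] {H K' : Subgroup G} {ι : Type} [Finite ι]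
    {s : ι → G}
    (hHK : H ≤ K') (hs : Reps H K' s) : Nat.card K' = Nat.card ι * Nat.card H := by
  rw [← Nat.card_prod]
  symm
  refine Nat.card_eq_of_bijective
    (fun x : ι × H => (⟨s x.1 * x.2, K'.mul_mem (hs.1 _) (hHK x.2.2)⟩ : K')) ⟨?_, ?_⟩
  · rintro ⟨i, h⟩ ⟨j, h'⟩ he
    have he' : s i * h = s j * h' := congrArg Subtype.val he
    obtain ⟨l, _, hl⟩ := hs.2 (s i * h) (K'.mul_mem (hs.1 _) (hHK h.2))
    have h1 : i = l := hl i (by simp)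
    have h2 : j = l := hl j (by rw [he']; simp)
    subst h2
    subst h1
    have : h = h' := Subtype.ext (mul_left_cancel he')
    rw [this]
  · rintro ⟨g, hg⟩
    obtain ⟨i, hi, _⟩ := hs.2 g hg
    exact ⟨(i, ⟨_, hi⟩), Subtype.ext (by simp)⟩

theorem card_Kg {ζ : Kˣ} {a : ℕ} (ha : 1 ≤ a) (hζ : orderOf ζ = 3 ^ a) :
    Nat.card (Kg (dl (ζ, 1) : PGL(Fin 3, K)) (ProjGenLinGroup.mk cy)) = 3 ^ (2 * a + 1) := by
  haveI : Finite PGL(Fin 3, K) := Finite.of_surjective _ ProjGenLinGroup.mk_surjective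
  have hk : ∀ i j : ℤ, Ie (dl (ζ, 1) : PGL(Fin 3, K)) (dl (1, ζ)) i j = 1 →
      (3 : ℤ) ∣ i ∧ (3 : ℤ) ∣ j := by
    intro i j h
    rw [Ie_eq_one_iff hζ, Dv_even] at h
    exact ⟨(dvd_pow_self 3 (by omega)).trans h.1, (dvd_pow_self 3 (by omega)).trans h.2⟩
  have h1 := (((loc_pgl ζ).reps_A_K hk).card_eq (loc_pgl ζ).A_le_K)
  rw [h1, card_Ag hζ]
  simp
  ring

theorem index_Kg {ζ : Kˣ} {n s : ℕ} (hq : Fintype.card K = 1 + 3 ^ (n + 1) * s) (hs : ¬ 3 ∣ s)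
    (hζ : orderOf ζ = 3 ^ (n + 1)) :
    ¬ 3 ∣ (Kg (dl (ζ, 1) : PGL(Fin 3, K)) (ProjGenLinGroup.mk cy)).index := by
  obtain ⟨m, hm, h3⟩ := card_PGL' K hq hs
  have h1 := (Kg (dl (ζ, 1) : PGL(Fin 3, K)) (ProjGenLinGroup.mk cy)).card_mul_index
  rw [card_Kg (by omega) hζ, hm] at h1
  have h2 := Nat.eq_of_mul_eq_mul_left (by positivity) h1
  rwa [h2]

theorem exists_zeta {n s : ℕ} (hq : Fintype.card K = 1 + 3 ^ (n + 1) * s) :
    ∃ ζ : Kˣ, orderOf ζ = 3 ^ (n + 1) := by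
  obtain ⟨g, hg⟩ := IsCyclic.exists_ofOrder_eq_natCard (α := Kˣ)
  have h1 : orderOf g = 3 ^ (n + 1) * s := by
    rw [hg, Nat.card_eq_fintype_card, Fintype.card_units, hq]; omega
  have h0 : 0 < orderOf g := orderOf_pos g
  have hs0 : s ≠ 0 := by
    rintro rfl
    rw [h1] at h0
    omega
  refine ⟨g ^ s, ?_⟩
  rw [orderOf_pow_of_dvd hs0 (by rw [h1]; exact Dvd.intro_left _ rfl), h1,
    Nat.mul_div_cancel _ (Nat.pos_of_ne_zero hs0)]

end Pool.Agent.W449.PV
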