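import Mathlib
import Pool.Agent.W449.PV.Plane

/-! # The dimension of `H1` -/

namespace Pool.Agent.W449.PV

variable {P L : Type} [Fintype P] [Fintype L]

namespace Pl

variable (pl : Pl P L) (k : Type*) [Field k]

/-- The flags. -/
def Fl : Type := {x : P × L // pl.I x.1 x.2}

open Classical in
noncomputable instance : Fintype (Fl pl) := by unfold Fl; infer_instance

theorem card_Fl : Fintype.card (Fl pl) = (pl.q + 1) * (pl.q ^ 2 + pl.q + 1) := by
  classical
  have h1 : Fintype.card (Fl pl) = (Finset.univ.filter (fun x : P × L => pl.I x.1 x.2)).card := by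
    rw [← Fintype.card_subtype]
    exact Fintype.card_congr (Equiv.refl _)
  rw [h1, Finset.card_filter, ← Finset.univ_product_univ, Finset.sum_product]
  have h2 : ∀ p : P, ∑ l : L, (if pl.I p l then 1 else 0) = pl.q + 1 := by
    intro p
    rw [← Finset.card_filter]
    convert pl.cL p
  rw [Finset.sum_congr rfl (fun p _ => h2 p), Finset.sum_const, Finset.card_univ, pl.cardP,
    smul_eq_mul, mul_comm]

open Classical in
/-- The constraint matrix. -/
noncomputable def Cm : Matrix (P ⊕ L) (Fl pl) k :=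
  fun i x => match i with
    | Sum.inl p => if x.1.1 = p then 1 else 0
    | Sum.inr l => if x.1.2 = l then 1 else 0

theorem sum_Fl (F : P → L → k) (hF : ∀ p l, ¬ pl.I p l → F p l = 0) :
    ∑ x : Fl pl, F x.1.1 x.1.2 = ∑ p, ∑ l, F p l := by
  classical
  rw [← Finset.sum_product', Finset.univ_product_univ]
  have h1 : ∑ x : P × L, F x.1 x.2 = ∑ x ∈ Finset.univ.filter (fun x : P × L => pl.I x.1 x.2),
      F x.1 x.2 := by
    rw [Finset.sum_filter]
    refine Finset.sum_congr rfl fun x _ => ?_
    split_ifs with h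
    · rfl
    · exact hF _ _ h
  rw [h1]
  rw [Finset.sum_subtype (p := fun x : P × L => pl.I x.1 x.2) _ (by simp)]
  refine Fintype.sum_equiv (Equiv.refl _) _ _ (fun x => rfl)

/-- Restriction of functions to flags. -/
def resF : (P → L → k) →ₗ[k] (Fl pl → k) where
  toFun f x := f x.1.1 x.1.2
  map_add' _ _ := rfl
  map_smul' _ _ := rfl

theorem mulVec_inl (f : P → L → k) (hf : ∀ p l, ¬ pl.I p l → f p l = 0) (p : P) :
    (Cm pl k).mulVec (resF pl k f) (Sum.inl p) = ∑ l, f p l := by
  classical
  have h1 : (Cm pl k).mulVec (resF pl k f) (Sum.inl p)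
      = ∑ x : Fl pl, (fun p' l => (if p' = p then 1 else 0) * f p' l) x.1.1 x.1.2 := by
    unfold Matrix.mulVec dotProduct
    refine Finset.sum_congr rfl fun x _ => ?_
    simp only [Cm, resF, LinearMap.coe_mk, AddHom.coe_mk]
  rw [h1, sum_Fl pl k (fun p' l => (if p' = p then 1 else 0) * f p' l)
    (fun p' l h => by simp only [hf p' l h, mul_zero])]
  simp

theorem mulVec_inr (f : P → L → k) (hf : ∀ p l, ¬ pl.I p l → f p l = 0) (l : L) :
    (Cm pl k).mulVec (resF pl k f) (Sum.inr l) = ∑ p, f p l := by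
  classical
  have h1 : (Cm pl k).mulVec (resF pl k f) (Sum.inr l)
      = ∑ x : Fl pl, (fun p' l' => (if l' = l then 1 else 0) * f p' l') x.1.1 x.1.2 := by
    unfold Matrix.mulVec dotProduct
    refine Finset.sum_congr rfl fun x _ => ?_
    simp only [Cm, resF, LinearMap.coe_mk, AddHom.coe_mk]
  rw [h1, sum_Fl pl k (fun p' l' => (if l' = l then 1 else 0) * f p' l')
    (fun p' l h => by simp only [hf p' l h, mul_zero])]
  simp

theorem finrank_H1_eq : Module.finrank k (H1 k pl) = Module.finrank k
    (LinearMap.ker (Cm pl k).mulVecLin) := by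
  classical
  let φ : H1 k pl →ₗ[k] LinearMap.ker (Cm pl k).mulVecLin :=
    LinearMap.codRestrict _ ((resF pl k).comp (H1 k pl).subtype) (by
      intro f
      rw [LinearMap.mem_ker]
      funext i
      rcases i with p | l
      · show (Cm pl k).mulVec (resF pl k f) (Sum.inl p) = 0
        rw [mulVec_inl pl k f f.2.1 p]
        exact f.2.2.1 p
      · show (Cm pl k).mulVec (resF pl k f) (Sum.inr l) = 0
        rw [mulVec_inr pl k f f.2.1 l]
        exact f.2.2.2 l)
  have hinj : Function.Injective φ := by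
    intro f g hfg
    apply Subtype.ext
    funext p l
    by_cases h : pl.I p l
    · have h1 : ((φ f : LinearMap.ker (Cm pl k).mulVecLin) : Fl pl → k) = φ g := by rw [hfg]
      exact congrFun h1 (⟨(p, l), h⟩ : Fl pl)
    · rw [f.2.1 p l h, g.2.1 p l h]
  have hsurj : Function.Surjective φ := by
    rintro ⟨h, hh⟩
    let f : P → L → k := fun p l => if hpl : pl.I p l then h ⟨(p, l), hpl⟩ else 0
    have hf0 : ∀ p l, ¬ pl.I p l → f p l = 0 := by
      intro p l hpl
      simp only [f, dif_neg hpl]
    have hres : resF pl k f = h := by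
      funext x
      show f x.1.1 x.1.2 = h x
      have : pl.I x.1.1 x.1.2 := x.2
      simp only [f, dif_pos this]
      rfl
    have hfH : f ∈ H1 k pl := by
      refine ⟨hf0, fun p => ?_, fun l => ?_⟩
      · rw [← mulVec_inl pl k f hf0 p, hres]
        exact congrFun (LinearMap.mem_ker.1 hh) (Sum.inl p)
      · rw [← mulVec_inr pl k f hf0 l, hres]
        exact congrFun (LinearMap.mem_ker.1 hh) (Sum.inr l)
    exact ⟨⟨f, hfH⟩, Subtype.ext hres⟩
  exact (LinearEquiv.ofBijective φ ⟨hinj, hsurj⟩).finrank_eq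

theorem finrank_kerT : Module.finrank k (LinearMap.ker (Cm pl k).transpose.mulVecLin) = 1 := by
  classical
  have hne : Nonempty P := by
    rw [← Fintype.card_pos_iff, pl.cardP]; positivity
  have hneL : Nonempty L := by
    rw [← Fintype.card_pos_iff, pl.cardL]; positivity
  have hflag : ∀ p : P, ∃ l, pl.I p l := by
    intro p
    have h1 := pl.cL p
    have h2 : (Finset.univ.filter (fun l => pl.I p l)).card = pl.q + 1 := by convert h1
    obtain ⟨l, hl⟩ := Finset.card_pos.1 (by rw [h2]; positivity)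
    exact ⟨l, (Finset.mem_filter.1 hl).2⟩
  have hflag' : ∀ l : L, ∃ p, pl.I p l := by
    intro l
    have h1 := pl.cP l
    have h2 : (Finset.univ.filter (fun p => pl.I p l)).card = pl.q + 1 := by convert h1
    obtain ⟨p, hp⟩ := Finset.card_pos.1 (by rw [h2]; positivity)
    exact ⟨p, (Finset.mem_filter.1 hp).2⟩
  have hmv : ∀ (w : P ⊕ L → k) (x : Fl pl), (Cm pl k).transpose.mulVec w x
      = w (Sum.inl x.1.1) + w (Sum.inr x.1.2) := by
    intro w x
    unfold Matrix.mulVec dotProduct
    rw [Fintype.sum_sum_type]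
    simp [Cm, Matrix.transpose_apply]
  have hker : LinearMap.ker (Cm pl k).transpose.mulVecLin
      = Submodule.span k {(Sum.elim (fun _ => 1) (fun _ => -1) : P ⊕ L → k)} := by
    apply le_antisymm
    · intro w hw
      rw [LinearMap.mem_ker] at hw
      have hw' : ∀ p l, pl.I p l → w (Sum.inl p) + w (Sum.inr l) = 0 := by
        intro p l h
        obtain ⟨x, hx1, hx2⟩ : ∃ x : Fl pl, x.1.1 = p ∧ x.1.2 = l := ⟨⟨(p, l), h⟩, rfl, rfl⟩
        have h2 : (Cm pl k).transpose.mulVec w x = 0 := congrFun hw x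
        rw [hmv, hx1, hx2] at h2
        exact h2
      obtain ⟨p₀⟩ := hne
      have hp : ∀ p, w (Sum.inl p) = w (Sum.inl p₀) := by
        intro p
        by_cases h : p = p₀
        · rw [h]
        · obtain ⟨l, h1, h2⟩ := pl.line p p₀ h
          have e1 := hw' p l h1
          have e2 := hw' p₀ l h2
          linear_combination e1 - e2
      rw [Submodule.mem_span_singleton]
      refine ⟨w (Sum.inl p₀), ?_⟩
      funext i
      rcases i with p | l
      · simp [hp p]
      · obtain ⟨p, hpl⟩ := hflag' l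
        have e1 := hw' p l hpl
        simp only [Pi.smul_apply, Sum.elim_inr, smul_eq_mul]
        rw [← hp p]
        linear_combination -e1
    · rw [Submodule.span_singleton_le_iff_mem, LinearMap.mem_ker]
      funext x
      rw [Matrix.mulVecLin_apply, hmv]
      simp
  rw [hker, finrank_span_singleton]
  intro h
  obtain ⟨p₀⟩ := hne
  have := congrFun h (Sum.inl p₀)
  simp at this

theorem finrank_H1 : Module.finrank k (H1 k pl) = pl.q ^ 3 := by
  classical
  rw [finrank_H1_eq]
  have h1 := LinearMap.finrank_range_add_finrank_ker (Cm pl k).mulVecLin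
  have h2 := LinearMap.finrank_range_add_finrank_ker (Cm pl k).transpose.mulVecLin
  have h3 : Module.finrank k (LinearMap.range (Cm pl k).transpose.mulVecLin)
      = Module.finrank k (LinearMap.range (Cm pl k).mulVecLin) := (Cm pl k).rank_transpose
  rw [finrank_kerT, h3, Module.finrank_fintype_fun_eq_card, Fintype.card_sum, pl.cardP,
    pl.cardL] at h2
  rw [Module.finrank_fintype_fun_eq_card, card_Fl] at h1
  have h4 : (pl.q + 1) * (pl.q ^ 2 + pl.q + 1) + 1
      = pl.q ^ 3 + (pl.q ^ 2 + pl.q + 1 + (pl.q ^ 2 + pl.q + 1)) := by ring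
  omega

theorem finrank_Rs_le : Module.finrank k (Rs k pl) ≤ pl.q ^ 2 + pl.q + 1 := by
  unfold Rs
  refine (Submodule.finrank_map_le _ _).trans ?_
  refine (Submodule.finrank_le _).trans ?_
  rw [Module.finrank_fintype_fun_eq_card, pl.cardP]

theorem exists_not_Rs : ∃ f ∈ H1 k pl, f ∉ Rs k pl := by
  by_contra hcon
  push Not at hcon
  have h1 : H1 k pl ≤ Rs k pl := hcon
  have h2 := Submodule.finrank_mono h1
  rw [finrank_H1] at h2
  have h3 := finrank_Rs_le pl k
  have h4 := pl.hq
  have h5 : pl.q ^ 3 ≤ pl.q ^ 2 + pl.q + 1 := h2.trans h3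
  have h6 : 2 * pl.q ^ 2 ≤ pl.q ^ 3 := by
    rw [pow_succ pl.q 2, mul_comm]; exact Nat.mul_le_mul_left _ h4
  nlinarith

end Pl

end Pool.Agent.W449.PV
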