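import Mathlib
import Pool.Agent.W449.PV.Def

/-! # Additive characters and simple quotients -/

universe u

namespace Pool.Agent.W449.PV

theorem exists_psi (K : Type) [Field K] [Fintype K] [DecidableEq K] [CharP K 2] (k : Type*) [Field k] [CharP k 3]
    (hq : ((Fintype.card K : ℕ) : k) = 1) :
    ∃ ψ : AddChar K k, ∀ x : K, ∑ γ : K, ψ (γ * x) = if x = 0 then 1 else 0 := by
  classical
  letI : Algebra (ZMod 2) K := ZMod.algebra K 2
  obtain ⟨f, hf⟩ : ∃ f : Module.Dual (ZMod 2) K, f 1 ≠ 0 := by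
    by_contra hcon
    push Not at hcon
    exact one_ne_zero ((Module.forall_dual_apply_eq_zero_iff (ZMod 2) (1 : K)).1 hcon)
  have h1 : ((-1 : k)) ^ 2 = 1 := by norm_num
  let χ : AddChar (ZMod 2) k := AddChar.zmodChar 2 h1
  let ψ : AddChar K k := χ.compAddMonoidHom f.toAddMonoidHom
  have hχ1 : χ 1 = -1 := by
    simp only [χ]
    rw [AddChar.zmodChar_apply]
    simp [ZMod.val_one]
  have hψ1 : ψ 1 ≠ 1 := by
    show χ (f 1) ≠ 1
    have hf1 : f 1 = 1 := by
      have : ∀ z : ZMod 2, z ≠ 0 → z = 1 := by decide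
      exact this _ hf
    rw [hf1, hχ1]
    intro h
    have h2 : (2 : k) = 0 := by linear_combination -h
    have h3 : ((2 : ℕ) : k) = 0 := by exact_mod_cast h2
    rw [CharP.cast_eq_zero_iff k 3] at h3
    omega
  have hne : ψ ≠ 1 := by
    intro h
    apply hψ1
    rw [h]; rfl
  have hprim : ψ.IsPrimitive := AddChar.IsPrimitive.of_ne_one hne
  refine ⟨ψ, fun x => ?_⟩
  have := AddChar.sum_mulShift x hprim
  rw [this]
  split_ifs
  · exact hq
  · simp

section

variable {F : Type u} [Field F] {G : Type} [Group G]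

theorem exists_simple_quot {U : Type u} [AddCommGroup U] [Module F U] [FiniteDimensional F U]
    (η : Representation F G U) (R : Submodule F U) (hR : ∀ g, R ≤ R.comap (η g)) (hne : R ≠ ⊤) :
    ∃ (W : Submodule F U) (hW : ∀ g, W ≤ W.comap (η g)), R ≤ W ∧ IsIrred (η.quotient W hW) := by
  let S : Set (Submodule F U) := {W | (∀ g, W ≤ W.comap (η g)) ∧ R ≤ W ∧ W ≠ ⊤}
  obtain ⟨W, ⟨hW, hRW, hWt⟩, hmax⟩ := (wellFounded_gt (α := Submodule F U)).has_min S
    ⟨R, hR, le_rfl, hne⟩
  refine ⟨W, hW, hRW, ?_, ?_⟩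
  · exact Submodule.Quotient.nontrivial_iff.2 hWt
  · intro Y hY
    by_cases ht : Y.comap W.mkQ = ⊤
    · right
      rw [eq_top_iff]
      intro y _
      obtain ⟨u, rfl⟩ := W.mkQ_surjective y
      have : u ∈ Y.comap W.mkQ := by rw [ht]; trivial
      exact this
    · left
      have hle : W ≤ Y.comap W.mkQ := by
        intro w hw
        rw [Submodule.mem_comap]
        have : W.mkQ w = 0 := by rw [Submodule.mkQ_apply, Submodule.Quotient.mk_eq_zero]; exact hw
        rw [this]; exact Y.zero_mem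
      have hmem : Y.comap W.mkQ ∈ S := by
        refine ⟨?_, hRW.trans hle, ht⟩
        intro g u hu
        have h1 := hY g (W.mkQ u) hu
        exact h1
      have h2 := hmax _ hmem
      have h3 : Y.comap W.mkQ = W := by
        by_contra hne'
        exact h2 (lt_of_le_of_ne hle (Ne.symm hne'))
      rw [eq_bot_iff]
      intro y hy
      obtain ⟨u, rfl⟩ := W.mkQ_surjective y
      have : u ∈ Y.comap W.mkQ := hy
      rw [h3] at this
      rw [Submodule.mem_bot, Submodule.mkQ_apply, Submodule.Quotient.mk_eq_zero]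
      exact this

end

end Pool.Agent.W449.PV
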