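import Mathlib
import Pool.Agent.W449.PV.Def
import Pool.Agent.W449.PV.Local
import Pool.Agent.W449.PV.Rel
import Pool.Agent.W449.PV.Block
import Pool.Agent.W449.PV.Fourier
import Pool.Agent.W449.PV.PlaneDim
import Pool.Agent.W449.PV.Brick
import Pool.Agent.W449.PV.Ord
import Pool.Agent.W449.PV.Psi

/-! # Assembly -/

universe u

namespace Pool.Agent.W449.PV

open scoped LinearAlgebra.Projectivization MatrixGroups Matrix

open Matrix Projectivization Pl

/-- The trace over a larger group gives the trace over a smaller one. -/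
theorem trace_down {G : Type} [Group G] [Finite G] {R : Type*} [Ring R] [MulSemiringAction G R]
    {A T : Subgroup G} (hAT : A ≤ T) {φ : R} (h : ∑ᶠ t : T, (t : G) • φ = 1) :
    ∃ φ' : R, ∑ᶠ a : A, (a : G) • φ' = 1 := by
  classical
  haveI : Fintype A := Fintype.ofFinite _
  haveI : Fintype T := Fintype.ofFinite _
  obtain ⟨ι, _, s, hs, _⟩ := exists_reps hAT
  refine ⟨∑ i, (s i)⁻¹ • φ, ?_⟩
  rw [finsum_eq_sum_of_fintype] at h ⊢
  have h1 : ∑ t : T, (t : G) • φ = ∑ t : T, ((t : G)⁻¹) • φ := by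
    refine Fintype.sum_equiv (Equiv.inv T) _ _ (fun t => ?_)
    simp
  have h2 := hs.sum_eq hAT (fun g => g⁻¹ • φ)
  have h3 : ∑ a : A, (a : G) • ∑ i, (s i)⁻¹ • φ = ∑ a : A, ((a : G)⁻¹) • ∑ i, (s i)⁻¹ • φ := by
    refine Fintype.sum_equiv (Equiv.inv A) _ _ (fun t => ?_)
    simp
  rw [h3, ← h, h1, h2, Finset.sum_comm]
  refine Finset.sum_congr rfl fun a _ => ?_
  rw [Finset.smul_sum]
  refine Finset.sum_congr rfl fun i _ => ?_
  rw [smul_smul, _root_.mul_inv_rev]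

section

variable {K : Type} [Field K] [Fintype K] [DecidableEq K]

theorem perm_V2 (j : K × K) : ∃ e : Equiv.Perm (K × K), ∀ i : K × K,
    (ProjGenLinGroup.mk (u02 j.1 * u12 j.2) : PGL(Fin 3, K)) * ProjGenLinGroup.mk (u02 i.1 * u12 i.2)
      = ProjGenLinGroup.mk (u02 (e i).1 * u12 (e i).2) := by
  refine ⟨Equiv.addLeft j, fun i => ?_⟩
  rw [← map_mul]
  congr 1
  show _ = u02 (j.1 + i.1) * u12 (j.2 + i.2)
  rw [u02_add, u12_add, mul_assoc, ← mul_assoc (u12 j.2), ← comm_02_12]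
  simp only [mul_assoc]

theorem perm_V1 (j : K × K) : ∃ e : Equiv.Perm (K × K), ∀ i : K × K,
    (ProjGenLinGroup.mk (u01 j.1 * u02 j.2) : PGL(Fin 3, K)) * ProjGenLinGroup.mk (u01 i.1 * u02 i.2)
      = ProjGenLinGroup.mk (u01 (e i).1 * u02 (e i).2) := by
  refine ⟨Equiv.addLeft j, fun i => ?_⟩
  rw [← map_mul]
  congr 1
  show _ = u01 (j.1 + i.1) * u02 (j.2 + i.2)
  rw [u01_add, u02_add, mul_assoc, ← mul_assoc (u02 j.2), ← comm_01_02]
  simp only [mul_assoc]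

theorem perm_V1' (j : K × K) : ∃ e : Equiv.Perm (K × K), ∀ i : K × K,
    (ProjGenLinGroup.mk (u10 j.1 * u12 j.2) : PGL(Fin 3, K)) * ProjGenLinGroup.mk (u10 i.1 * u12 i.2)
      = ProjGenLinGroup.mk (u10 (e i).1 * u12 (e i).2) := by
  refine ⟨Equiv.addLeft j, fun i => ?_⟩
  rw [← map_mul]
  congr 1
  show _ = u10 (j.1 + i.1) * u12 (j.2 + i.2)
  rw [u10_add, u12_add, mul_assoc, ← mul_assoc (u12 j.2), ← comm_10_12]
  simp only [mul_assoc]

theorem perm_U (j : K) : ∃ e : Equiv.Perm K, ∀ i : K,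
    (ProjGenLinGroup.mk (u01 j) : PGL(Fin 3, K)) * ProjGenLinGroup.mk (u01 i)
      = ProjGenLinGroup.mk (u01 (e i)) := by
  refine ⟨Equiv.addLeft j, fun i => ?_⟩
  rw [← map_mul]
  congr 1
  exact (u01_add j i).symm

variable {F : Type u} [Field F]

theorem pg_brick (h3 : (3 : F) = 0) (hq1 : ((pg K).q : F) = 1) :
    ∀ x : Module.End F (H1 F (pg K)),
      (∀ g, (pgAct (K := K)).η1 F g * x = x * (pgAct (K := K)).η1 F g) → ∃ c : F, x = c • 1 := by
  have hcard : ((Fintype.card K : ℕ) : F) = 1 := hq1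
  refine (pgAct (K := K)).brick h3 hq1 (pt0 K) (ln0 K) ?_
    (fun i : K × K => ProjGenLinGroup.mk (u02 i.1 * u12 i.2))
    (fun i : K => ProjGenLinGroup.mk (u01 i)) perm_V2 (fun i z hz => V2_fix _ _ z hz)
    (fun i => V2_ln _ _) ?_ ?_ perm_U (fun i => U_pt _) (fun i => U_ln _)
    ?_ hcard ?_
  · unfold pt0
    rw [I_ln0]; simp
  · intro x x' hx hx'
    obtain ⟨a, b, h⟩ := V2_tr x x' hx hx'
    exact ⟨(a, b), h⟩
  · rw [Fintype.card_prod]
    push_cast
    rw [hcard, one_mul]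
  · intro z z' hz hz' hn hn'
    exact U_tr z z' hz hz' hn hn'
  · intro p l hpl
    exact flag_tr p l hpl

theorem sumzero (h3 : (3 : F) = 0) (hq1 : ((pg K).q : F) = 1)
    {W : Submodule F (H1 F (pg K))}
    (hW : ∀ g, W ≤ W.comap ((pgAct (K := K)).η1 F g))
    (hRW : (Rs F (pg K)).comap (H1 F (pg K)).subtype ≤ W)
    {ι : Type} [Fintype ι] (g : ι → PGL(Fin 3, K))
    (hm : ∀ j, ∃ e : Equiv.Perm ι, ∀ i, g j * g i = g (e i))
    (hR : ∀ f ∈ H1 F (pg K), (∀ j, (pgAct (K := K)).η0 F (g j) f = f) → f ∈ Rs F (pg K)) :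
    ∑ i, ((pgAct (K := K)).η1 F).quotient W hW (g i) = 0 := by
  apply LinearMap.ext
  intro v
  obtain ⟨f, rfl⟩ := W.mkQ_surjective v
  rw [LinearMap.sum_apply]
  have h1 : ∀ i, ((pgAct (K := K)).η1 F).quotient W hW (g i) (W.mkQ f)
      = W.mkQ ((pgAct (K := K)).η1 F (g i) f) := fun i => rfl
  simp only [h1]
  rw [← map_sum, LinearMap.zero_apply, Submodule.mkQ_apply, Submodule.Quotient.mk_eq_zero]
  apply hRW
  show ((∑ i, (pgAct (K := K)).η1 F (g i) f : H1 F (pg K)) : PP K → PP K → F) ∈ Rs F (pg K)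
  apply hR _ (Subtype.property _)
  intro j
  obtain ⟨e, he⟩ := hm j
  have h2 : (pgAct (K := K)).η1 F (g j) (∑ i, (pgAct (K := K)).η1 F (g i) f)
      = ∑ i, (pgAct (K := K)).η1 F (g i) f := by
    rw [map_sum]
    conv_rhs => rw [← Equiv.sum_comp e]
    refine Finset.sum_congr rfl fun i _ => ?_
    rw [← he, map_mul]
    rfl
  exact congrArg Subtype.val h2

theorem smulComm_cj {G : Type} [Group G] {F : Type u} [Field F] {V : Type u} [AddCommGroup V]
    [Module F V] (ρ : Representation F G V) :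
    letI := cjAct ρ; SMulCommClass G F (Module.End F V) := by
  letI := cjAct ρ
  refine ⟨fun g c x => ?_⟩
  show ρ g * (c • x) * ρ g⁻¹ = c • (ρ g * x * ρ g⁻¹)
  rw [mul_smul_comm, smul_mul_assoc]

theorem main_K [CharP K 2] [CharP F 3] {n s : ℕ}
    (hq : Fintype.card K = 1 + 3 ^ (n + 1) * s) (hs : ¬ 3 ∣ s) :
    ∃ (V : Type u) (_ : AddCommGroup V) (_ : Module F V) (_ : FiniteDimensional F V)
      (ρ : Representation F PGL(Fin 3, K) V) (Q : Subgroup PGL(Fin 3, K)),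
      IsIrred ρ ∧ IsVertex ρ Q ∧ IsPGroup 3 Q ∧ Nat.card Q ≤ 9 ∧
      ∀ (e : MonoidAlgebra F PGL(Fin 3, K)), IsBlock e → ρ.asAlgebraHom e = 1 →
        ∀ D : Subgroup PGL(Fin 3, K), IsDefectGroup e D → 3 ^ (2 * (n + 1) + 1) ≤ Nat.card D := by
  classical
  haveI : Finite PGL(Fin 3, K) := Finite.of_surjective _ ProjGenLinGroup.mk_surjective
  have h3 : (3 : F) = 0 := by
    have := CharP.cast_eq_zero F 3
    exact_mod_cast this
  have hcard : ((Fintype.card K : ℕ) : F) = 1 := by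
    rw [hq]
    push_cast
    rw [h3, pow_succ, mul_zero, zero_mul, add_zero]
  have hq1 : ((pg K).q : F) = 1 := hcard
  have hstab : ∀ g, (Rs F (pg K)).comap (H1 F (pg K)).subtype
      ≤ ((Rs F (pg K)).comap (H1 F (pg K)).subtype).comap ((pgAct (K := K)).η1 F g) := by
    intro g f hf
    exact (pgAct (K := K)).η0_Rs g hf
  have hne : (Rs F (pg K)).comap (H1 F (pg K)).subtype ≠ ⊤ := by
    intro h
    obtain ⟨f, hf, hf'⟩ := exists_not_Rs (pg K) F
    have : (⟨f, hf⟩ : H1 F (pg K)) ∈ (Rs F (pg K)).comap (H1 F (pg K)).subtype := by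
      rw [h]; trivial
    exact hf' this
  obtain ⟨W, hW, hRW, hirr⟩ := exists_simple_quot ((pgAct (K := K)).η1 F) _ hstab hne
  set ρ := ((pgAct (K := K)).η1 F).quotient W hW with hρ
  have hsum2 : ∑ i : K × K, ρ (ProjGenLinGroup.mk (u02 i.1 * u12 i.2)) = 0 := by
    refine sumzero h3 hq1 hW hRW (fun i : K × K => ProjGenLinGroup.mk (u02 i.1 * u12 i.2))
      perm_V2 ?_
    intro f hf hfix
    refine (pgAct (K := K)).inv_axis_Rs h3 hq1 hf (ln0 K)
      (Set.range (fun i : K × K => ProjGenLinGroup.mk (u02 i.1 * u12 i.2))) ?_ ?_ ?_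
    · rintro _ ⟨j, rfl⟩; exact hfix j
    · rintro _ ⟨j, rfl⟩ z hz; exact V2_fix _ _ z hz
    · intro x x' hx hx'
      obtain ⟨a, b, h⟩ := V2_tr x x' hx hx'
      exact ⟨_, ⟨(a, b), rfl⟩, h⟩
  have hsum1 : ∑ i : K × K, ρ (ProjGenLinGroup.mk (u01 i.1 * u02 i.2)) = 0 := by
    refine sumzero h3 hq1 hW hRW (fun i : K × K => ProjGenLinGroup.mk (u01 i.1 * u02 i.2))
      perm_V1 ?_
    intro f hf hfix
    refine (pgAct (K := K)).inv_center_Rs h3 hq1 hf (pt0 K)
      (Set.range (fun i : K × K => ProjGenLinGroup.mk (u01 i.1 * u02 i.2))) ?_ ?_ ?_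
    · rintro _ ⟨j, rfl⟩; exact hfix j
    · rintro _ ⟨j, rfl⟩ z hz; exact V1_fix _ _ z hz
    · intro x x' hx hx'
      obtain ⟨a, b, h⟩ := V1_tr x x' hx hx'
      exact ⟨_, ⟨(a, b), rfl⟩, h⟩
  have hsum1' : ∑ i : K × K, ρ (ProjGenLinGroup.mk (u10 i.1 * u12 i.2)) = 0 := by
    refine sumzero h3 hq1 hW hRW (fun i : K × K => ProjGenLinGroup.mk (u10 i.1 * u12 i.2))
      perm_V1' ?_
    intro f hf hfix
    refine (pgAct (K := K)).inv_center_Rs h3 hq1 hf (pt1 K)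
      (Set.range (fun i : K × K => ProjGenLinGroup.mk (u10 i.1 * u12 i.2))) ?_ ?_ ?_
    · rintro _ ⟨j, rfl⟩; exact hfix j
    · rintro _ ⟨j, rfl⟩ z hz; exact V1'_fix _ _ z hz
    · intro x x' hx hx'
      obtain ⟨a, b, h⟩ := V1'_tr x x' hx hx'
      exact ⟨_, ⟨(a, b), rfl⟩, h⟩
  letI : MulSemiringAction PGL(Fin 3, K) (Module.End F (H1 F (pg K) ⧸ W)) := cjAct ρ
  haveI : SMulCommClass PGL(Fin 3, K) F (Module.End F (H1 F (pg K) ⧸ W)) := smulComm_cj ρ
  have hdef : ∀ (g : PGL(Fin 3, K)) (x : Module.End F (H1 F (pg K) ⧸ W)),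
      g • x = ρ g * x * ρ g⁻¹ := fun _ _ => rfl
  obtain ⟨ψ, hψ⟩ := exists_psi K F hcard
  have conj_mk : ∀ (s t : Kˣ) (u u' : GL (Fin 3) K), dg s t * u = u' * dg s t →
      dl (s, t) • ρ (ProjGenLinGroup.mk u) = ρ (ProjGenLinGroup.mk u') := by
    intro s t u u' h
    rw [hdef, ← map_mul, ← map_mul]
    congr 1
    show ProjGenLinGroup.mk (dg s t) * ProjGenLinGroup.mk u * (ProjGenLinGroup.mk (dg s t))⁻¹ = _
    rw [← map_mul, h, map_mul, mul_inv_cancel_right]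
  have factor : ∀ (u v : K → GL (Fin 3) K),
      (∑ x, ρ (ProjGenLinGroup.mk (u x))) * (∑ y, ρ (ProjGenLinGroup.mk (v y)))
        = ∑ i : K × K, ρ (ProjGenLinGroup.mk (u i.1 * v i.2)) := by
    intro u v
    rw [Finset.sum_mul_sum, Fintype.sum_prod_type]
    refine Finset.sum_congr rfl fun x _ => Finset.sum_congr rfl fun y _ => ?_
    rw [← map_mul, ← map_mul]
  obtain ⟨φ, hφ⟩ := fourier hψ (R := Module.End F (H1 F (pg K) ⧸ W))
    (fun x => ρ (ProjGenLinGroup.mk (u02 x))) (fun x => ρ (ProjGenLinGroup.mk (u12 x)))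
    (fun x => ρ (ProjGenLinGroup.mk (u01 x))) (fun x => ρ (ProjGenLinGroup.mk (u10 x)))
    (by
      have : (u02 0 : GL (Fin 3) K) = 1 := by
        apply Units.ext; simp only [u02]; ext i j; fin_cases i <;> fin_cases j <;> simp
      simp only [this, map_one])
    (by
      have : (u12 0 : GL (Fin 3) K) = 1 := by
        apply Units.ext; simp only [u12]; ext i j; fin_cases i <;> fin_cases j <;> simp
      simp only [this, map_one])
    (by
      have : (u01 0 : GL (Fin 3) K) = 1 := by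
        apply Units.ext; simp only [u01]; ext i j; fin_cases i <;> fin_cases j <;> simp
      simp only [this, map_one])
    (by
      have : (u10 0 : GL (Fin 3) K) = 1 := by
        apply Units.ext; simp only [u10]; ext i j; fin_cases i <;> fin_cases j <;> simp
      simp only [this, map_one])
    (by
      intro x y
      rw [← map_mul, ← map_mul, ← map_mul, ← map_mul, comm_02_12])
    (by rw [factor u02 u12]; exact hsum2)
    (by rw [factor u01 u02]; exact hsum1)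
    (by rw [factor u10 u12]; exact hsum1')
    (fun s => MulSemiringAction.toAlgHom F _ (dl s))
    (fun s x => conj_mk _ _ _ _ (dg_02 _ _ _))
    (fun s x => conj_mk _ _ _ _ (dg_12 _ _ _))
    (fun s x => conj_mk _ _ _ _ (dg_01 _ _ _))
    (fun s x => conj_mk _ _ _ _ (dg_10 _ _ _))
  have hφ' : ∑ s : Kˣ × Kˣ, dl s • φ = 1 := hφ
  obtain ⟨ζ, hζ⟩ := exists_zeta hq
  have hrange : ∑ᶠ t : (dl : Kˣ × Kˣ →* PGL(Fin 3, K)).range, (t : PGL(Fin 3, K)) • φ = 1 := by
    haveI : Fintype (dl : Kˣ × Kˣ →* PGL(Fin 3, K)).range := Fintype.ofFinite _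
    rw [finsum_eq_sum_of_fintype, ← hφ']
    symm
    refine Fintype.sum_equiv (MonoidHom.ofInjective dl_inj).toEquiv _ _ (fun x => rfl)
  have hle : Ag (dl (ζ, 1) : PGL(Fin 3, K)) (dl (1, ζ)) ≤ (dl : Kˣ × Kˣ →* PGL(Fin 3, K)).range := by
    rw [Ag_eq]
    exact Subgroup.map_le_range _ _
  obtain ⟨φ', hφA⟩ := trace_down hle hrange
  have h3E : (3 : Module.End F (H1 F (pg K) ⧸ W)) = 0 := by
    have : (3 : Module.End F (H1 F (pg K) ⧸ W)) = algebraMap F _ (3 : F) := by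
      rw [map_ofNat]
    rw [this, h3, map_zero]
  have hlocal := local_main F h3E (2 * (n + 1)) (loc_pgl ζ) (Ie_eq_one_iff hζ) φ' hφA
  have hT := SmT.of_index h3E hlocal (index_Kg hq hs hζ)
  obtain ⟨Q, hQP, hQ9, hQv⟩ := exists_vertex hirr hT
  have hP3 : IsPGroup 3 (Kg (dl (ζ, 1) : PGL(Fin 3, K)) (ProjGenLinGroup.mk cy)) :=
    IsPGroup.of_card (card_Kg (by omega) hζ)
  refine ⟨H1 F (pg K) ⧸ W, inferInstance, inferInstance, inferInstance, ρ, Q, hirr, hQv,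
    hP3.to_le hQP, hQ9, ?_⟩
  intro e he heρ D hD
  haveI := hirr.1
  obtain ⟨m, hm, _⟩ := card_PGL' K hq hs
  refine defect_bound (η := (pgAct (K := K)).η1 F) (ρ := ρ) (π := W.mkQ) (fun g u => rfl)
    W.mkQ_surjective (pg_brick h3 hq1) ?_ he.2.2.1 heρ hD.1 (hm ▸ Dvd.intro _ rfl)
  rw [finrank_H1]
  push_cast
  rw [hq1]
  simp

end

end Pool.Agent.W449.PV
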