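import Mathlib
import Pool.Agent.W449.PV.Final

/-! # Pigeonhole over the groups of order at most nine -/

universe u

namespace Pool.Agent.W449.PV

/-- `t` is a multiplication table of `Q`. -/
def Tab (Q : Type) [Group Q] (t : Σ m : Fin 10, (Fin m → Fin m → Fin m)) : Prop :=
  ∃ e : Q ≃ Fin t.1, ∀ x y, e (x * y) = t.2 (e x) (e y)

theorem exists_tab (Q : Type) [Group Q] [Finite Q] (hQ : Nat.card Q ≤ 9) : ∃ t, Tab Q t := by
  let e : Q ≃ Fin (Nat.card Q) := Finite.equivFin Q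
  refine ⟨⟨⟨Nat.card Q, by omega⟩, fun i j => e (e.symm i * e.symm j)⟩, e, ?_⟩
  intro x y
  simp

theorem pigeon (Q : ℕ → Type) [∀ n, Group (Q n)] [∀ n, Finite (Q n)]
    (hQ : ∀ n, Nat.card (Q n) ≤ 9) : ∃ n₀, ∀ c, ∃ n, c ≤ n ∧ Nonempty (Q n ≃* Q n₀) := by
  classical
  choose t ht using fun n => exists_tab (Q n) (hQ n)
  obtain ⟨y, hy⟩ := Finite.exists_infinite_fiber t
  have hinf : (t ⁻¹' {y}).Infinite := Set.infinite_coe_iff.1 hy
  obtain ⟨n₀, hn₀⟩ := hinf.nonempty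
  refine ⟨n₀, fun c => ?_⟩
  obtain ⟨n, hn, hcn⟩ := hinf.exists_gt c
  refine ⟨n, hcn.le, ?_⟩
  have h1 : Tab (Q n) y := by
    have := ht n
    rwa [show t n = y from hn] at this
  have h2 : Tab (Q n₀) y := by
    have := ht n₀
    rwa [show t n₀ = y from hn₀] at this
  obtain ⟨e1, he1⟩ := h1
  obtain ⟨e2, he2⟩ := h2
  refine ⟨⟨e1.trans e2.symm, fun x z => ?_⟩⟩
  apply e2.injective
  show e2 (e2.symm (e1 (x * z))) = e2 (e2.symm (e1 x) * e2.symm (e1 z))
  rw [he2, e2.apply_symm_apply, e2.apply_symm_apply, e2.apply_symm_apply, he1]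

theorem main_n (F : Type u) [Field F] [CharP F 3] (n : ℕ) :
    ∃ (G : Type) (_ : Group G) (_ : Finite G) (V : Type u) (_ : AddCommGroup V) (_ : Module F V)
      (_ : FiniteDimensional F V) (ρ : Representation F G V) (Q : Subgroup G),
      IsIrred ρ ∧ IsVertex ρ Q ∧ IsPGroup 3 Q ∧ Nat.card Q ≤ 9 ∧
      ∀ (e : MonoidAlgebra F G), IsBlock e → ρ.asAlgebraHom e = 1 →
        ∀ D : Subgroup G, IsDefectGroup e D → 3 ^ (2 * (n + 1) + 1) ≤ Nat.card D := by
  classical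
  let K := GaloisField 2 (2 * 3 ^ n)
  haveI : Finite K := inferInstance
  haveI : Fintype K := Fintype.ofFinite K
  obtain ⟨s, hs, h3⟩ := four_pow n
  have hcard : Fintype.card K = 1 + 3 ^ (n + 1) * s := by
    rw [← Nat.card_eq_fintype_card, GaloisField.card 2 (2 * 3 ^ n) (by positivity), pow_mul,
      ← hs]
    norm_num
  haveI : Finite (Matrix.ProjGenLinGroup (Fin 3) K) :=
    Finite.of_surjective _ Matrix.ProjGenLinGroup.mk_surjective
  obtain ⟨V, i1, i2, i3, ρ, Q, h1, h2, h4, h5, h6⟩ := main_K (K := K) (F := F) hcard h3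
  exact ⟨Matrix.ProjGenLinGroup (Fin 3) K, inferInstance, inferInstance, V, i1, i2, i3, ρ, Q,
    h1, h2, h4, h5, h6⟩

theorem puig (F : Type u) [Field F] [CharP F 3] :
    ∃ (Q : Type) (_ : Group Q), IsPGroup 3 Q ∧ Finite Q ∧ Nat.card Q ≤ 9 ∧
      ∀ c : ℕ, ∃ (G : Type) (_ : Group G) (_ : Finite G)
        (V : Type u) (_ : AddCommGroup V) (_ : Module F V) (_ : FiniteDimensional F V)
        (ρ : Representation F G V) (R : Subgroup G) (e : MonoidAlgebra F G) (D : Subgroup G),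
        IsIrred ρ ∧ IsVertex ρ R ∧ Nonempty (R ≃* Q) ∧
        IsBlock e ∧ ρ.asAlgebraHom e = 1 ∧ IsDefectGroup e D ∧ c < Nat.card D := by
  classical
  choose G iG fG V iV iM iF ρ R h1 h2 h4 h5 h6 using main_n F
  obtain ⟨n₀, hn₀⟩ := pigeon (fun n => R n) h5
  refine ⟨R n₀, inferInstance, h4 n₀, inferInstance, h5 n₀, fun c => ?_⟩
  obtain ⟨n, hcn, hiso⟩ := hn₀ c
  obtain ⟨e, he, heρ⟩ := exists_block (h1 n)
  obtain ⟨D, hD⟩ := exists_defect e he.2.2.1
  refine ⟨G n, inferInstance, inferInstance, V n, inferInstance, inferInstance, inferInstance,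
    ρ n, R n, e, D, h1 n, h2 n, hiso, he, heρ, hD, ?_⟩
  have h7 := h6 n e he heρ D hD
  have h8 : n < 3 ^ n := Nat.lt_pow_self (by norm_num)
  have h9 : 3 ^ n ≤ 3 ^ (2 * (n + 1) + 1) := Nat.pow_le_pow_right (by norm_num) (by omega)
  omega

end Pool.Agent.W449.PV
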